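import Mathlib

/-! Exact character sums for the family `y² = x³ + a x² + b x + c` with marked points. -/

set_option autoImplicit false

open Finset

namespace Pool.Agent.H678R3.BSD

section

variable {F : Type*} [Field F] [Fintype F] [DecidableEq F]

/-- the quadratic character, with real values -/
noncomputable def ch (x : F) : ℝ := (quadraticChar F x : ℝ)

lemma ch_mul (x y : F) : ch (x * y) = ch x * ch y := by
  unfold ch; rw [map_mul]; push_cast; rfl

lemma ch_zero : ch (0 : F) = 0 := by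
  unfold ch; rw [quadraticChar_zero]; simp

lemma ch_one : ch (1 : F) = 1 := by
  unfold ch; simp

lemma ch_sq_val {x : F} (hx : x ≠ 0) : ch (x ^ 2) = 1 := by
  unfold ch; rw [quadraticChar_sq_one' hx]; simp

lemma ch_mul_self {x : F} (hx : x ≠ 0) : ch x * ch x = 1 := by
  rw [← ch_mul, ← sq, ch_sq_val hx]

lemma abs_ch_le (x : F) : |ch x| ≤ 1 := by
  rcases eq_or_ne x 0 with rfl | hx
  · rw [ch_zero]; simp
  · have h := ch_mul_self hx
    have h2 : |ch x| * |ch x| = 1 := by rw [← abs_mul, h, abs_one]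
    nlinarith [abs_nonneg (ch x)]

lemma sum_ch (hF : ringChar F ≠ 2) : ∑ x : F, ch x = 0 := by
  have h := quadraticChar_sum_zero hF
  unfold ch
  exact_mod_cast h

lemma sum_comp_lin (g : F → ℝ) {α : F} (hα : α ≠ 0) (R : F) : ∑ a : F, g (a * α + R) = ∑ a : F, g a :=
  Equiv.sum_comp ((Equiv.mulRight₀ α hα).trans (Equiv.addRight R)) g

lemma sum_lin (hF : ringChar F ≠ 2) {α : F} (hα : α ≠ 0) (R : F) : ∑ a : F, ch (a * α + R) = 0 := by
  rw [sum_comp_lin _ hα, sum_ch hF]

lemma sum_ch_self : ∑ a : F, ch a * ch a = (Fintype.card F : ℝ) - 1 := by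
  have h : ∀ a : F, ch a * ch a = 1 - if a = 0 then 1 else 0 := by
    intro a
    by_cases ha : a = 0
    · rw [if_pos ha, ha, ch_zero]; ring
    · rw [if_neg ha, ch_mul_self ha]; ring
  rw [Finset.sum_congr rfl fun a _ => h a, Finset.sum_sub_distrib]
  simp

lemma sum_quad (hF : ringChar F ≠ 2) {d : F} (hd : d ≠ 0) : ∑ a : F, ch a * ch (a + d) = -1 := by
  have h : ∀ a : F, ch a * ch (a + d) = ch (a⁻¹ * d + 1) - if a = 0 then 1 else 0 := by
    intro a
    by_cases ha : a = 0
    · subst ha; simp [ch_zero, ch_one]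
    · rw [if_neg ha, sub_zero, ← ch_mul]
      have e : a * (a + d) = a ^ 2 * (a⁻¹ * d + 1) := by field_simp; ring
      rw [e, ch_mul, ch_sq_val ha, one_mul]
  rw [Finset.sum_congr rfl fun a _ => h a, Finset.sum_sub_distrib]
  have h2 : ∑ a : F, ch (a⁻¹ * d + 1) = 0 := by
    have h3 := Equiv.sum_comp (Equiv.inv F) (fun a => ch (a * d + 1))
    simp only [Equiv.inv_apply] at h3
    rw [h3, sum_lin hF hd]
  rw [h2]
  simp

lemma sum_two (hF : ringChar F ≠ 2) {α β : F} (hα : α ≠ 0) (hβ : β ≠ 0) (R S : F) :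
    ∑ a : F, ch (a * α + R) * ch (a * β + S) =
      ch (α * β) * ((if R * β = S * α then (Fintype.card F : ℝ) else 0) - 1) := by
  have h : ∀ a : F, ch (a * α + R) * ch (a * β + S) =
      ch (α * β) * (ch (a * 1 + R / α) * ch (a * 1 + R / α + (S / β - R / α))) := by
    intro a
    rw [← ch_mul, ← ch_mul, ← ch_mul]
    congr 1
    field_simp
    ring
  rw [Finset.sum_congr rfl fun a _ => h a, ← Finset.mul_sum]
  congr 1
  rw [sum_comp_lin (fun a => ch a * ch (a + (S / β - R / α))) one_ne_zero (R / α)]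
  by_cases hRS : R * β = S * α
  · have e : S / β - R / α = 0 := by
      rw [sub_eq_zero, div_eq_div_iff hβ hα, hRS]
    rw [if_pos hRS, e]
    simp_rw [add_zero]
    exact sum_ch_self
  · have e : S / β - R / α ≠ 0 := by
      rw [sub_ne_zero, Ne, div_eq_div_iff hβ hα]
      exact fun h => hRS h.symm
    rw [if_neg hRS, sum_quad hF e]
    ring

lemma sum_sq (hF : ringChar F ≠ 2) (h : F → ℝ) : ∑ t : F, h (t ^ 2) = ∑ c : F, (1 + ch c) * h c := by
  have h1 : ∀ t : F, h (t ^ 2) = ∑ c : F, if t ^ 2 = c then h c else 0 := by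
    intro t; simp
  rw [Finset.sum_congr rfl fun t _ => h1 t, Finset.sum_comm]
  refine Finset.sum_congr rfl fun c _ => ?_
  rw [← Finset.sum_filter, Finset.sum_const, nsmul_eq_mul]
  congr 1
  have h2 := quadraticChar_card_sqrts hF c
  have h3 : ((Finset.univ.filter fun t : F => t ^ 2 = c).card : ℤ) = quadraticChar F c + 1 := by
    rw [← h2]
    congr 2
    ext t
    simp
  have h4 : ((Finset.univ.filter fun t : F => t ^ 2 = c).card : ℝ) = (quadraticChar F c : ℝ) + 1 := by
    exact_mod_cast h3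
  rw [h4]
  unfold ch
  ring

lemma sum_pick (g : F → ℝ) {B : F} (hB : B ≠ 0) (s r : F) :
    ∑ d : F, (if B * d - s = r then g d else 0) = g ((r + s) / B) := by
  rw [Finset.sum_eq_single ((r + s) / B)]
  · rw [if_pos]; field_simp; ring
  · intro b _ hb
    rw [if_neg]
    intro h
    apply hb
    rw [← h]; field_simp; ring
  · intro h; exact absurd (Finset.mem_univ _) h

/-- the two coordinates `P(0)` and `P(1)` in terms of the parameters -/
def V0 {R : Type*} [Monoid R] (j : ℕ) (v : R) : R := if 1 ≤ j then v ^ 2 else v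
def V1 {R : Type*} [Monoid R] (j : ℕ) (w : R) : R := if 2 ≤ j then w ^ 2 else w

/-- the number of parameters on a line in the `(P(0), P(1))`-plane -/
lemma count_line (hF : ringChar F ≠ 2) (j : ℕ) {A B : F} (hA : A ≠ 0) (hB : B ≠ 0) :
    |∑ v : F, ∑ w : F, (if B * V1 j w - A * V0 j v = A * B then (1 : ℝ) else 0) - Fintype.card F|
      ≤ 1 := by
  by_cases hj : 2 ≤ j
  · have h1 : ∀ v : F, ∑ w : F, (if B * V1 j w - A * V0 j v = A * B then (1 : ℝ) else 0) =
        1 + ch (A * B) * ch (v ^ 2 + B) := by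
      intro v
      have e0 : V0 j v = v ^ 2 := by unfold V0; rw [if_pos (by omega)]
      have e1 : ∀ w : F, V1 j w = w ^ 2 := by intro w; unfold V1; rw [if_pos hj]
      rw [e0]
      simp_rw [e1]
      rw [sum_sq hF (fun d => if B * d - A * v ^ 2 = A * B then (1 : ℝ) else 0)]
      simp_rw [mul_ite, mul_one, mul_zero]
      rw [sum_pick (fun d => 1 + ch d) hB (A * v ^ 2) (A * B)]
      congr 1
      have e : (A * B + A * v ^ 2) / B = (A * B) * (v ^ 2 + B) * (B⁻¹) ^ 2 := by field_simp; ring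
      rw [e, ch_mul, ch_sq_val (inv_ne_zero hB), mul_one, ch_mul]
    rw [Finset.sum_congr rfl fun v _ => h1 v, Finset.sum_add_distrib, ← Finset.mul_sum,
      sum_sq hF (fun c => ch (c + B))]
    have h2 : ∑ c : F, (1 + ch c) * ch (c + B) = -1 := by
      simp_rw [add_mul, one_mul]
      rw [Finset.sum_add_distrib, sum_quad hF hB]
      have := sum_comp_lin (fun a : F => ch a) one_ne_zero B
      simp_rw [mul_one] at this
      rw [this, sum_ch hF]; ring
    rw [h2]
    simp only [Finset.sum_const, Finset.card_univ, nsmul_eq_mul, mul_one]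
    rw [show (Fintype.card F : ℝ) + ch (A * B) * -1 - Fintype.card F = -ch (A * B) by ring, abs_neg]
    exact abs_ch_le _
  · have h1 : ∀ v : F, ∑ w : F, (if B * V1 j w - A * V0 j v = A * B then (1 : ℝ) else 0) = 1 := by
      intro v
      have e1 : ∀ w : F, V1 j w = w := by intro w; unfold V1; rw [if_neg hj]
      simp_rw [e1]
      rw [sum_pick (fun _ => (1 : ℝ)) hB (A * V0 j v) (A * B)]
    rw [Finset.sum_congr rfl fun v _ => h1 v]
    simp

/-- `R_x` -/
def Rx (c d x : F) : F := x ^ 3 + (d - 1 - c) * x + c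

/-- the character sum of the cubic with parameters `a`, `P(0) = c`, `P(1) = d` -/
noncomputable def TT (a c d : F) : ℝ := ∑ x : F, ch (a * (x ^ 2 - x) + Rx c d x)

lemma alpha_eq_zero {x : F} : x ^ 2 - x = 0 ↔ x = 0 ∨ x = 1 := by
  rw [show x ^ 2 - x = x * (x - 1) by ring, mul_eq_zero, sub_eq_zero]

lemma sum_a_TT (hF : ringChar F ≠ 2) (c d : F) :
    ∑ a : F, TT a c d = Fintype.card F * (ch c + ch d) := by
  unfold TT
  rw [Finset.sum_comm]
  have h : ∀ x : F, ∑ a : F, ch (a * (x ^ 2 - x) + Rx c d x) =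
      (if x = 0 then (Fintype.card F : ℝ) * ch c else 0) +
        (if x = 1 then (Fintype.card F : ℝ) * ch d else 0) := by
    intro x
    by_cases h0 : x = 0
    · subst h0
      simp [Rx]
    · by_cases h1 : x = 1
      · subst h1
        have e : (1 : F) + (d - 1 - c) + c = d := by ring
        simp [Rx, e]
      · rw [if_neg h0, if_neg h1, sum_lin hF (fun h => by
          rcases alpha_eq_zero.1 h with h | h
          · exact h0 h
          · exact h1 h)]
        ring
  rw [Finset.sum_congr rfl fun x _ => h x, Finset.sum_add_distrib]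
  simp
  ring

lemma sum_V0 (hF : ringChar F ≠ 2) (j : ℕ) :
    ∑ v : F, ch (V0 j v) = if 1 ≤ j then (Fintype.card F : ℝ) - 1 else 0 := by
  unfold V0
  split_ifs
  · rw [← sum_ch_self]
    refine Finset.sum_congr rfl fun v _ => ?_
    rw [sq, ch_mul]
  · exact sum_ch hF

lemma sum_V1 (hF : ringChar F ≠ 2) (j : ℕ) :
    ∑ v : F, ch (V1 j v) = if 2 ≤ j then (Fintype.card F : ℝ) - 1 else 0 := by
  unfold V1
  split_ifs
  · rw [← sum_ch_self]
    refine Finset.sum_congr rfl fun v _ => ?_
    rw [sq, ch_mul]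
  · exact sum_ch hF

/-- the first moment -/
theorem first_moment (hF : ringChar F ≠ 2) (j : ℕ) (hj : j ≤ 2) :
    ∑ v : F, ∑ w : F, ∑ a : F, TT a (V0 j v) (V1 j w) =
      j * ((Fintype.card F : ℝ) - 1) * (Fintype.card F : ℝ) ^ 2 := by
  simp_rw [sum_a_TT hF, ← Finset.mul_sum, Finset.sum_add_distrib, Finset.sum_const, Finset.card_univ,
    nsmul_eq_mul, ← Finset.mul_sum]
  rw [sum_V0 hF, sum_V1 hF]
  interval_cases j <;> simp <;> ring

/-- the correlation of two values -/
noncomputable def KK (c d x y : F) : ℝ :=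
  ∑ a : F, ch (a * (x ^ 2 - x) + Rx c d x) * ch (a * (y ^ 2 - y) + Rx c d y)

lemma sum_TT_sq (c d : F) : ∑ a : F, TT a c d ^ 2 = ∑ x : F, ∑ y : F, KK c d x y := by
  unfold TT KK
  simp_rw [sq (∑ x : F, _), Finset.sum_mul_sum]
  rw [Finset.sum_comm]
  refine Finset.sum_congr rfl fun x _ => ?_
  rw [Finset.sum_comm]

lemma abs_KK_le (c d x y : F) : |KK c d x y| ≤ Fintype.card F := by
  unfold KK
  refine (Finset.abs_sum_le_sum_abs _ _).trans ?_
  calc _ ≤ ∑ a : F, (1 : ℝ) := Finset.sum_le_sum fun a _ => by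
        rw [abs_mul]
        exact mul_le_one₀ (abs_ch_le _) (abs_nonneg _) (abs_ch_le _)
    _ = _ := by simp

lemma KK_generic (hF : ringChar F ≠ 2) (c d : F) {x y : F} (hx0 : x ≠ 0) (hx1 : x ≠ 1)
    (hy0 : y ≠ 0) (hy1 : y ≠ 1) (hxy : x ≠ y) :
    KK c d x y = ch ((x ^ 2 - x) * (y ^ 2 - y)) *
      ((Fintype.card F : ℝ) * (if (x * y) * d - ((x - 1) * (y - 1)) * c = ((x - 1) * (y - 1)) * (x * y)
        then 1 else 0) - 1) := by
  unfold KK
  have hx : x ^ 2 - x ≠ 0 := fun h => by
    rcases alpha_eq_zero.1 h with h | h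
    · exact hx0 h
    · exact hx1 h
  have hy : y ^ 2 - y ≠ 0 := fun h => by
    rcases alpha_eq_zero.1 h with h | h
    · exact hy0 h
    · exact hy1 h
  rw [sum_two hF hx hy]
  congr 2
  have e : Rx c d x * (y ^ 2 - y) - Rx c d y * (x ^ 2 - x) =
      (x - y) * (((x - 1) * (y - 1)) * (x * y) - ((x * y) * d - ((x - 1) * (y - 1)) * c)) := by
    unfold Rx; ring
  have e2 : (Rx c d x * (y ^ 2 - y) = Rx c d y * (x ^ 2 - x)) ↔
      ((x * y) * d - ((x - 1) * (y - 1)) * c = ((x - 1) * (y - 1)) * (x * y)) := by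
    rw [← sub_eq_zero, e, mul_eq_zero, sub_eq_zero, sub_eq_zero]
    constructor
    · rintro (h | h)
      · exact absurd h hxy
      · exact h.symm
    · intro h; exact Or.inr h.symm
  simp only [e2, mul_ite, mul_one, mul_zero]

lemma KK_mixed (hF : ringChar F ≠ 2) (c d : F) {x y : F} (hx : x ^ 2 - x = 0) (hy : y ^ 2 - y ≠ 0) :
    KK c d x y = 0 := by
  unfold KK
  simp_rw [hx, mul_zero, zero_add]
  rw [← Finset.mul_sum, sum_lin hF hy, mul_zero]

lemma KK_symm (c d x y : F) : KK c d x y = KK c d y x := by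
  unfold KK
  exact Finset.sum_congr rfl fun a _ => mul_comm _ _

lemma KK_diag (c d : F) {x : F} (hx : x ^ 2 - x ≠ 0) :
    KK c d x x = (Fintype.card F : ℝ) - 1 := by
  unfold KK
  rw [sum_comp_lin (fun a => ch a * ch a) hx, sum_ch_self]

lemma pair_bound (hF : ringChar F ≠ 2) (j : ℕ) (x y : F) :
    |∑ v : F, ∑ w : F, KK (V0 j v) (V1 j w) x y - (if x = y then (Fintype.card F : ℝ) ^ 3 else 0)| ≤
      Fintype.card F + (if x = y then (Fintype.card F : ℝ) ^ 2 else 0) +
        (if x ^ 2 - x = 0 then 1 else 0) * (if y ^ 2 - y = 0 then 1 else 0) *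
          (2 * (Fintype.card F : ℝ) ^ 3) := by
  have hq : (1 : ℝ) ≤ Fintype.card F := by
    have : 0 < Fintype.card F := Fintype.card_pos
    exact_mod_cast this
  set q : ℝ := (Fintype.card F : ℝ) with hqdef
  by_cases hx : x ^ 2 - x = 0
  · by_cases hy : y ^ 2 - y = 0
    · have h1 : |∑ v : F, ∑ w : F, KK (V0 j v) (V1 j w) x y| ≤ q ^ 3 := by
        refine (Finset.abs_sum_le_sum_abs _ _).trans ?_
        calc _ ≤ ∑ v : F, ∑ w : F, q := Finset.sum_le_sum fun v _ =>
              (Finset.abs_sum_le_sum_abs _ _).trans (Finset.sum_le_sum fun w _ => abs_KK_le _ _ _ _)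
          _ = q ^ 3 := by simp [← hqdef]; ring
      rw [if_pos hx, if_pos hy]
      have h2 : |∑ v : F, ∑ w : F, KK (V0 j v) (V1 j w) x y - (if x = y then q ^ 3 else 0)| ≤
          q ^ 3 + q ^ 3 := by
        refine (abs_sub _ _).trans (add_le_add h1 ?_)
        split_ifs
        · rw [abs_of_pos (by positivity)]
        · rw [abs_zero]; positivity
      refine h2.trans ?_
      have h3 : (0 : ℝ) ≤ if x = y then q ^ 2 else 0 := by split_ifs <;> positivity
      nlinarith
    · have hxy : x ≠ y := by rintro rfl; exact hy hx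
      simp_rw [KK_mixed hF _ _ hx hy]
      rw [if_neg hxy, if_neg hxy, if_neg hy]
      simp
      linarith
  · by_cases hy : y ^ 2 - y = 0
    · have hxy : x ≠ y := by rintro rfl; exact hx hy
      have : ∀ v w : F, KK (V0 j v) (V1 j w) x y = 0 := fun v w => by
        rw [KK_symm, KK_mixed hF _ _ hy hx]
      simp_rw [this]
      rw [if_neg hxy, if_neg hxy, if_neg hx]
      simp
      linarith
    · by_cases hxy : x = y
      · subst hxy
        simp_rw [KK_diag _ _ hx]
        rw [if_pos trivial, if_pos trivial, if_neg hx]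
        simp only [Finset.sum_const, Finset.card_univ, nsmul_eq_mul, ← hqdef]
        rw [show q * (q * (q - 1)) - q ^ 3 = -(q ^ 2) by ring, abs_neg, abs_of_nonneg (by positivity)]
        linarith
      · rw [if_neg hxy, if_neg hxy, if_neg hx, if_neg hy]
        have hx0 : x ≠ 0 := fun h => hx (alpha_eq_zero.2 (Or.inl h))
        have hx1 : x ≠ 1 := fun h => hx (alpha_eq_zero.2 (Or.inr h))
        have hy0 : y ≠ 0 := fun h => hy (alpha_eq_zero.2 (Or.inl h))
        have hy1 : y ≠ 1 := fun h => hy (alpha_eq_zero.2 (Or.inr h))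
        simp_rw [KK_generic hF _ _ hx0 hx1 hy0 hy1 hxy, ← Finset.mul_sum, Finset.sum_sub_distrib,
          ← Finset.mul_sum]
        have hA : (x - 1) * (y - 1) ≠ 0 := mul_ne_zero (sub_ne_zero.2 hx1) (sub_ne_zero.2 hy1)
        have hB : x * y ≠ 0 := mul_ne_zero hx0 hy0
        have hc := count_line hF j hA hB
        rw [← hqdef] at hc
        simp only [Finset.sum_const, Finset.card_univ, nsmul_eq_mul, mul_one, ← hqdef]
        set N := ∑ v : F, ∑ w : F, (if x * y * V1 j w - (x - 1) * (y - 1) * V0 j v =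
          (x - 1) * (y - 1) * (x * y) then (1 : ℝ) else 0) with hN
        rw [show ch ((x ^ 2 - x) * (y ^ 2 - y)) * (q * N - q * q) - 0 =
          ch ((x ^ 2 - x) * (y ^ 2 - y)) * (q * (N - q)) by ring, abs_mul, abs_mul,
          abs_of_nonneg (by linarith : (0 : ℝ) ≤ q)]
        calc _ ≤ 1 * (q * 1) := mul_le_mul (abs_ch_le _)
              (mul_le_mul_of_nonneg_left hc (by linarith)) (by positivity) zero_le_one
          _ ≤ _ := by linarith

/-- the second moment -/
theorem second_moment (hF : ringChar F ≠ 2) (j : ℕ) :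
    |∑ v : F, ∑ w : F, ∑ a : F, TT a (V0 j v) (V1 j w) ^ 2 - (Fintype.card F : ℝ) ^ 4| ≤
      10 * (Fintype.card F : ℝ) ^ 3 := by
  simp_rw [sum_TT_sq]
  have e1 : ∑ v : F, ∑ w : F, ∑ x : F, ∑ y : F, KK (V0 j v) (V1 j w) x y =
      ∑ x : F, ∑ y : F, ∑ v : F, ∑ w : F, KK (V0 j v) (V1 j w) x y := by
    calc _ = ∑ v : F, ∑ x : F, ∑ w : F, ∑ y : F, KK (V0 j v) (V1 j w) x y :=
          Finset.sum_congr rfl fun v _ => Finset.sum_comm
      _ = ∑ x : F, ∑ v : F, ∑ w : F, ∑ y : F, KK (V0 j v) (V1 j w) x y := Finset.sum_comm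
      _ = ∑ x : F, ∑ v : F, ∑ y : F, ∑ w : F, KK (V0 j v) (V1 j w) x y :=
          Finset.sum_congr rfl fun x _ => Finset.sum_congr rfl fun v _ => Finset.sum_comm
      _ = _ := Finset.sum_congr rfl fun x _ => Finset.sum_comm
  have e2 : (Fintype.card F : ℝ) ^ 4 = ∑ x : F, ∑ y : F, (if x = y then (Fintype.card F : ℝ) ^ 3 else 0) := by
    simp
    ring
  rw [e1, e2, ← Finset.sum_sub_distrib]
  simp_rw [← Finset.sum_sub_distrib]
  refine (Finset.abs_sum_le_sum_abs _ _).trans ?_
  have h3 : ∀ x : F, |∑ y : F, (∑ v : F, ∑ w : F, KK (V0 j v) (V1 j w) x y -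
      (if x = y then (Fintype.card F : ℝ) ^ 3 else 0))| ≤ ∑ y : F, (
      Fintype.card F + (if x = y then (Fintype.card F : ℝ) ^ 2 else 0) +
        (if x ^ 2 - x = 0 then 1 else 0) * (if y ^ 2 - y = 0 then 1 else 0) *
          (2 * (Fintype.card F : ℝ) ^ 3)) := fun x =>
    (Finset.abs_sum_le_sum_abs _ _).trans (Finset.sum_le_sum fun y _ => pair_bound hF j x y)
  refine (Finset.sum_le_sum fun x _ => h3 x).trans (le_of_eq ?_)
  have e3 : ∑ x : F, (if x ^ 2 - x = 0 then (1 : ℝ) else 0) = 2 := by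
    have h : ∀ x : F, (if x ^ 2 - x = 0 then (1 : ℝ) else 0) =
        (if x = 0 then 1 else 0) + (if x = 1 then 1 else 0) := by
      intro x
      by_cases h0 : x = 0
      · subst h0; simp
      · by_cases h1 : x = 1
        · subst h1; simp
        · rw [if_neg h0, if_neg h1, if_neg (fun h => by
            rcases alpha_eq_zero.1 h with h | h
            · exact h0 h
            · exact h1 h)]
          simp
    rw [Finset.sum_congr rfl fun x _ => h x, Finset.sum_add_distrib]
    simp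
    norm_num
  simp_rw [Finset.sum_add_distrib, ← Finset.sum_mul, ← Finset.mul_sum, e3]
  rw [← Finset.sum_mul, e3]
  simp
  ring

end

end Pool.Agent.H678R3.BSD
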