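import Pool.Agent.H678R3.BSD.CharSum

/-! Exact character sums for the family `y² = x³ + A x + c`, `c` free or a square. -/

set_option autoImplicit false
set_option maxHeartbeats 4000000

open Finset

namespace Pool.Agent.H678R3.BSD.W2

section

variable {F : Type*} [Field F] [Fintype F] [DecidableEq F]

/-- the character sum of the cubic `x³ + A x + c` -/
noncomputable def TW (A c : F) : ℝ := ∑ x : F, ch (A * x + (x ^ 3 + c))

lemma sum_A_TW (hF : ringChar F ≠ 2) (c : F) : ∑ A : F, TW A c = Fintype.card F * ch c := by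
  unfold TW
  rw [Finset.sum_comm]
  have h : ∀ x : F, ∑ A : F, ch (A * x + (x ^ 3 + c)) =
      (if x = 0 then (Fintype.card F : ℝ) * ch c else 0) := by
    intro x
    by_cases h0 : x = 0
    · subst h0; simp
    · rw [if_neg h0, sum_lin hF h0]
  rw [Finset.sum_congr rfl fun x _ => h x]
  simp

theorem first_moment (hF : ringChar F ≠ 2) (j : ℕ) (hj : j ≤ 1) :
    ∑ t : F, ∑ A : F, TW A (V0 j t) = j * ((Fintype.card F : ℝ) - 1) * Fintype.card F := by
  simp_rw [sum_A_TW hF, ← Finset.mul_sum]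
  rw [sum_V0 hF]
  interval_cases j <;> simp <;> ring

noncomputable def KW (c x y : F) : ℝ :=
  ∑ A : F, ch (A * x + (x ^ 3 + c)) * ch (A * y + (y ^ 3 + c))

lemma sum_TW_sq (c : F) : ∑ A : F, TW A c ^ 2 = ∑ x : F, ∑ y : F, KW c x y := by
  unfold TW KW
  simp_rw [sq (∑ x : F, _), Finset.sum_mul_sum]
  rw [Finset.sum_comm]
  refine Finset.sum_congr rfl fun x _ => ?_
  rw [Finset.sum_comm]

lemma abs_KW_le (c x y : F) : |KW c x y| ≤ Fintype.card F := by
  unfold KW
  refine (Finset.abs_sum_le_sum_abs _ _).trans ?_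
  calc _ ≤ ∑ a : F, (1 : ℝ) := Finset.sum_le_sum fun a _ => by
        rw [abs_mul]
        exact mul_le_one₀ (abs_ch_le _) (abs_nonneg _) (abs_ch_le _)
    _ = _ := by simp

lemma KW_mixed (hF : ringChar F ≠ 2) (c : F) {y : F} (hy : y ≠ 0) : KW c 0 y = 0 := by
  unfold KW
  simp_rw [mul_zero, zero_add]
  rw [← Finset.mul_sum, sum_lin hF hy, mul_zero]

lemma KW_symm (c x y : F) : KW c x y = KW c y x := by
  unfold KW
  exact Finset.sum_congr rfl fun a _ => mul_comm _ _

lemma KW_diag (c : F) {x : F} (hx : x ≠ 0) : KW c x x = (Fintype.card F : ℝ) - 1 := by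
  unfold KW
  rw [sum_comp_lin (fun a => ch a * ch a) hx, sum_ch_self]

lemma KW_generic (hF : ringChar F ≠ 2) (c : F) {x y : F} (hx : x ≠ 0) (hy : y ≠ 0) (hxy : x ≠ y) :
    KW c x y = ch (x * y) * ((Fintype.card F : ℝ) * (if c = x * y * (x + y) then 1 else 0) - 1) := by
  unfold KW
  rw [sum_two hF hx hy]
  congr 2
  have e : (x ^ 3 + c) * y - (y ^ 3 + c) * x = (x - y) * (x * y * (x + y) - c) := by ring
  have e2 : ((x ^ 3 + c) * y = (y ^ 3 + c) * x) ↔ c = x * y * (x + y) := by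
    rw [← sub_eq_zero, e, mul_eq_zero, sub_eq_zero, sub_eq_zero]
    constructor
    · rintro (h | h)
      · exact absurd h hxy
      · exact h.symm
    · intro h; exact Or.inr h.symm
  simp only [e2, mul_ite, mul_one, mul_zero]

lemma count_V0 (hF : ringChar F ≠ 2) (j : ℕ) (r : F) :
    ∑ t : F, (if V0 j t = r then (1 : ℝ) else 0) = 1 + (if 1 ≤ j then ch r else 0) := by
  unfold V0
  split_ifs with h
  · rw [sum_sq hF (fun c => if c = r then (1 : ℝ) else 0)]
    simp
  · simp

lemma DW_generic (hF : ringChar F ≠ 2) (j : ℕ) {x y : F} (hx : x ≠ 0) (hy : y ≠ 0) (hxy : x ≠ y) :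
    ∑ t : F, KW (V0 j t) x y = (if 1 ≤ j then 1 else 0) * Fintype.card F * ch (x + y) := by
  simp_rw [KW_generic hF _ hx hy hxy, ← Finset.mul_sum, Finset.sum_sub_distrib, ← Finset.mul_sum]
  rw [count_V0 hF]
  have hxy2 : x * y ≠ 0 := mul_ne_zero hx hy
  split_ifs with h
  · simp only [Finset.sum_const, Finset.card_univ, nsmul_eq_mul, mul_one]
    rw [ch_mul (x * y) (x + y)]
    have := ch_mul_self hxy2
    linear_combination (Fintype.card F : ℝ) * ch (x + y) * this
  · simp

/-- the row sums -/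
lemma row_ne (hF : ringChar F ≠ 2) (j : ℕ) {x : F} (hx : x ≠ 0) :
    |∑ y : F, ∑ t : F, KW (V0 j t) x y - (Fintype.card F : ℝ) ^ 2| ≤ 3 * Fintype.card F := by
  set q : ℝ := (Fintype.card F : ℝ) with hq
  have hq0 : 0 ≤ q := by rw [hq]; positivity
  set ε : ℝ := (if 1 ≤ j then 1 else 0) with hε
  have hε1 : |ε| ≤ 1 := by rw [hε]; split_ifs <;> simp
  have h : ∀ y : F, ∑ t : F, KW (V0 j t) x y = (if y = x then q * (q - 1) - ε * q * ch (x + x) else 0) +
      (if y = 0 then - (ε * q * ch x) else 0) + ε * q * ch (x + y) := by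
    intro y
    by_cases hy0 : y = 0
    · subst hy0
      have : ∀ t : F, KW (V0 j t) x 0 = 0 := fun t => by rw [KW_symm, KW_mixed hF _ hx]
      simp_rw [this]
      rw [if_neg (Ne.symm hx), if_pos trivial, add_zero]
      simp
    · by_cases hyx : y = x
      · subst hyx
        simp_rw [KW_diag _ hx]
        rw [if_pos trivial, if_neg hx]
        simp only [Finset.sum_const, Finset.card_univ, nsmul_eq_mul, ← hq]
        ring
      · rw [if_neg hyx, if_neg hy0, DW_generic hF j hx hy0 (Ne.symm hyx)]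
        ring
  rw [Finset.sum_congr rfl fun y _ => h y, Finset.sum_add_distrib, Finset.sum_add_distrib,
    ← Finset.mul_sum]
  have h2 : ∑ y : F, ch (x + y) = 0 := by
    have := sum_comp_lin (fun a : F => ch a) one_ne_zero x
    simp_rw [mul_one] at this
    rw [← sum_ch hF, ← this]
    exact Finset.sum_congr rfl fun y _ => by rw [add_comm]
  rw [h2]
  simp only [Finset.sum_ite_eq', Finset.mem_univ, if_true, mul_zero, add_zero]
  have e : q * (q - 1) - ε * q * ch (x + x) + -(ε * q * ch x) - q ^ 2 =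
      -(q * (1 + ε * ch (x + x) + ε * ch x)) := by ring
  rw [e, abs_neg, abs_mul, abs_of_nonneg hq0]
  have h3 : |1 + ε * ch (x + x) + ε * ch x| ≤ 3 := by
    have a1 : |ε * ch (x + x)| ≤ 1 := by
      rw [abs_mul]; exact mul_le_one₀ hε1 (abs_nonneg _) (abs_ch_le _)
    have a2 : |ε * ch x| ≤ 1 := by
      rw [abs_mul]; exact mul_le_one₀ hε1 (abs_nonneg _) (abs_ch_le _)
    have := abs_le.1 a1
    have := abs_le.1 a2
    rw [abs_le]
    constructor <;> linarith
  calc q * |1 + ε * ch (x + x) + ε * ch x| ≤ q * 3 := mul_le_mul_of_nonneg_left h3 hq0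
    _ = 3 * q := by ring

lemma row_zero (hF : ringChar F ≠ 2) (j : ℕ) :
    |∑ y : F, ∑ t : F, KW (V0 j t) 0 y - (Fintype.card F : ℝ) ^ 2| ≤ 2 * (Fintype.card F : ℝ) ^ 2 := by
  set q : ℝ := (Fintype.card F : ℝ) with hq
  have h : ∀ y : F, ∑ t : F, KW (V0 j t) 0 y = if y = 0 then ∑ t : F, KW (V0 j t) 0 0 else 0 := by
    intro y
    by_cases hy : y = 0
    · subst hy; simp
    · rw [if_neg hy]
      simp_rw [KW_mixed hF _ hy]
      simp
  rw [Finset.sum_congr rfl fun y _ => h y]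
  simp only [Finset.sum_ite_eq', Finset.mem_univ, if_true]
  have h1 : |∑ t : F, KW (V0 j t) 0 0| ≤ q ^ 2 := by
    refine (Finset.abs_sum_le_sum_abs _ _).trans ?_
    calc _ ≤ ∑ t : F, q := Finset.sum_le_sum fun t _ => abs_KW_le _ _ _
      _ = q ^ 2 := by simp [← hq]; ring
  refine (abs_sub _ _).trans ?_
  rw [abs_of_nonneg (by positivity : (0 : ℝ) ≤ q ^ 2)]
  linarith

theorem second_moment (hF : ringChar F ≠ 2) (j : ℕ) :
    |∑ t : F, ∑ A : F, TW A (V0 j t) ^ 2 - (Fintype.card F : ℝ) ^ 3| ≤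
      5 * (Fintype.card F : ℝ) ^ 2 := by
  set q : ℝ := (Fintype.card F : ℝ) with hq
  have hq0 : 0 ≤ q := by rw [hq]; positivity
  simp_rw [sum_TW_sq]
  have e1 : ∑ t : F, ∑ x : F, ∑ y : F, KW (V0 j t) x y = ∑ x : F, ∑ y : F, ∑ t : F, KW (V0 j t) x y := by
    rw [Finset.sum_comm]
    exact Finset.sum_congr rfl fun x _ => Finset.sum_comm
  have e2 : q ^ 3 = ∑ x : F, q ^ 2 := by simp [← hq]; ring
  rw [e1, e2, ← Finset.sum_sub_distrib]
  refine (Finset.abs_sum_le_sum_abs _ _).trans ?_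
  have h3 : ∀ x : F, |∑ y : F, ∑ t : F, KW (V0 j t) x y - q ^ 2| ≤ 3 * q + if x = 0 then 2 * q ^ 2 else 0 := by
    intro x
    by_cases hx : x = 0
    · subst hx
      rw [if_pos rfl]
      have := row_zero (F := F) hF j
      rw [← hq] at this
      linarith
    · rw [if_neg hx, add_zero]
      exact row_ne hF j hx
  refine (Finset.sum_le_sum fun x _ => h3 x).trans (le_of_eq ?_)
  rw [Finset.sum_add_distrib]
  simp [← hq]
  ring

end

end Pool.Agent.H678R3.BSD.W2
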