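import Mathlib

/-! Averages over boxes of products of functions of the residues modulo primes. -/

set_option autoImplicit false

open Finset

namespace Pool.Agent.H678R3.BSD

/-- the box `[0, N)³` -/
noncomputable def box (N : ℤ) : Finset (Fin 3 → ℤ) := Fintype.piFinset fun _ => Finset.Ico 0 N

/-- periodicity -/
def Per (g : (Fin 3 → ℤ) → ℝ) (M : ℤ) : Prop :=
  ∀ n n' : Fin 3 → ℤ, (∀ i, n i ≡ n' i [ZMOD M]) → g n = g n'

lemma mem_box {N : ℤ} {n : Fin 3 → ℤ} : n ∈ box N ↔ ∀ i, 0 ≤ n i ∧ n i < N := by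
  simp [box]

/-- the Chinese remainder theorem for sums -/
theorem crt_two {g h : (Fin 3 → ℤ) → ℝ} {m p : ℤ} (hm : 0 < m) (hp : 0 < p)
    (hcop : IsCoprime m p) (hg : Per g m) (hh : Per h p) :
    ∑ n ∈ box (m * p), g n * h n = (∑ n ∈ box m, g n) * ∑ n ∈ box p, h n := by
  obtain ⟨α, β, hab⟩ := hcop
  rw [Finset.sum_mul_sum, ← Finset.sum_product']
  have key1 : ∀ a b : ℤ, a * (β * p) + b * (α * m) ≡ a [ZMOD m] := by
    intro a b
    have : a * (β * p) + b * (α * m) = a + m * (b * α - a * α) := by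
      have : β * p = 1 - α * m := by linarith
      rw [this]; ring
    rw [this]
    exact Int.modEq_iff_dvd.2 ⟨-(b * α - a * α), by ring⟩
  have key2 : ∀ a b : ℤ, a * (β * p) + b * (α * m) ≡ b [ZMOD p] := by
    intro a b
    have : a * (β * p) + b * (α * m) = b + p * (a * β - b * β) := by
      have : α * m = 1 - β * p := by linarith
      rw [this]; ring
    rw [this]
    exact Int.modEq_iff_dvd.2 ⟨-(a * β - b * β), by ring⟩
  have hmp : 0 < m * p := mul_pos hm hp
  have cop : IsCoprime m p := ⟨α, β, hab⟩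
  refine Finset.sum_bij' (fun n _ => ((fun i => n i % m), (fun i => n i % p)))
    (fun q _ => fun i => (q.1 i * (β * p) + q.2 i * (α * m)) % (m * p)) ?_ ?_ ?_ ?_ ?_
  · intro n _
    rw [Finset.mem_product]
    constructor
    · rw [mem_box]
      exact fun i => ⟨Int.emod_nonneg _ hm.ne', Int.emod_lt_of_pos _ hm⟩
    · rw [mem_box]
      exact fun i => ⟨Int.emod_nonneg _ hp.ne', Int.emod_lt_of_pos _ hp⟩
  · intro q _
    rw [mem_box]
    exact fun i => ⟨Int.emod_nonneg _ hmp.ne', Int.emod_lt_of_pos _ hmp⟩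
  · intro n hn
    rw [mem_box] at hn
    funext i
    show (n i % m * (β * p) + n i % p * (α * m)) % (m * p) = n i
    have h1 : n i % m * (β * p) + n i % p * (α * m) ≡ n i [ZMOD m] :=
      (key1 _ _).trans (Int.mod_modEq _ _)
    have h2 : n i % m * (β * p) + n i % p * (α * m) ≡ n i [ZMOD p] :=
      (key2 _ _).trans (Int.mod_modEq _ _)
    have h3 : n i % m * (β * p) + n i % p * (α * m) ≡ n i [ZMOD m * p] := by
      rw [Int.modEq_iff_dvd]
      exact cop.mul_dvd (Int.modEq_iff_dvd.1 h1) (Int.modEq_iff_dvd.1 h2)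
    rw [h3.eq, Int.emod_eq_of_lt (hn i).1 (hn i).2]
  · rintro ⟨u, w⟩ hq
    rw [Finset.mem_product, mem_box, mem_box] at hq
    simp only
    refine Prod.ext ?_ ?_
    · funext i
      show (u i * (β * p) + w i * (α * m)) % (m * p) % m = u i
      rw [Int.emod_emod_of_dvd _ (Dvd.intro _ rfl), (key1 _ _).eq]
      exact Int.emod_eq_of_lt (hq.1 i).1 (hq.1 i).2
    · funext i
      show (u i * (β * p) + w i * (α * m)) % (m * p) % p = w i
      rw [Int.emod_emod_of_dvd _ (Dvd.intro_left _ rfl), (key2 _ _).eq]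
      exact Int.emod_eq_of_lt (hq.2 i).1 (hq.2 i).2
  · intro n _
    simp only
    rw [hg n (fun i => n i % m) fun i => (Int.mod_modEq _ _).symm,
      hh n (fun i => n i % p) fun i => (Int.mod_modEq _ _).symm]

/-- a product over the primes of a finite set -/
theorem crt_prod (f : ℕ → (Fin 3 → ℤ) → ℝ) (S : Finset ℕ) (hS : ∀ p ∈ S, p.Prime)
    (hf : ∀ p ∈ S, Per (f p) p) :
    Per (fun n => ∏ p ∈ S, f p n) ((∏ p ∈ S, p : ℕ) : ℤ) ∧
    ∑ n ∈ box ((∏ p ∈ S, p : ℕ) : ℤ), ∏ p ∈ S, f p n = ∏ p ∈ S, ∑ n ∈ box (p : ℤ), f p n := by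
  classical
  induction S using Finset.induction_on with
  | empty =>
    refine ⟨fun n n' _ => by simp, ?_⟩
    simp [box]
  | insert a S ha ih =>
    have ih' := ih (fun p hp => hS p (Finset.mem_insert_of_mem hp))
      (fun p hp => hf p (Finset.mem_insert_of_mem hp))
    have hfa := hf a (Finset.mem_insert_self _ _)
    have hpa := hS a (Finset.mem_insert_self _ _)
    constructor
    · intro n n' h
      simp only [Finset.prod_insert ha]
      rw [Finset.prod_insert ha] at h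
      push_cast at h
      have h1 : f a n = f a n' := hfa n n' fun i => (h i).of_dvd (Dvd.intro _ rfl)
      have h2 := ih'.1 n n' fun i => by
        push_cast
        exact (h i).of_dvd (Dvd.intro_left _ rfl)
      simp only at h2
      rw [h1, h2]
    · simp only [Finset.prod_insert ha]
      rw [← ih'.2]
      have hcop : IsCoprime (a : ℤ) ((∏ p ∈ S, p : ℕ) : ℤ) := by
        rw [Nat.isCoprime_iff_coprime]
        exact Nat.Coprime.prod_right fun p hp =>
          (Nat.coprime_primes hpa (hS p (Finset.mem_insert_of_mem hp))).2 fun h => ha (h ▸ hp)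
      have := crt_two (g := f a) (h := fun n => ∏ p ∈ S, f p n) (m := (a : ℤ))
        (p := ((∏ p ∈ S, p : ℕ) : ℤ)) (by exact_mod_cast hpa.pos)
        (by exact_mod_cast Finset.prod_pos fun p hp => (hS p (Finset.mem_insert_of_mem hp)).pos)
        hcop hfa ih'.1
      rw [← this]
      push_cast
      rfl

/-- the box `[1, H]³` -/
noncomputable def boxH (H : ℤ) : Finset (Fin 3 → ℤ) := Fintype.piFinset fun _ => Finset.Icc 1 H

lemma count_int {M H : ℤ} (hM : 0 < M) (hH : M ≤ H) (r : ℤ) :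
    1 ≤ ⌊(H : ℚ) / M⌋ ∧ ⌊(H : ℚ) / M⌋ ≤ (((Finset.Icc 1 H).filter fun n => n % M = r % M).card : ℤ) ∧
    (((Finset.Icc 1 H).filter fun n => n % M = r % M).card : ℤ) ≤ ⌊(H : ℚ) / M⌋ + 1 := by
  have e : ((Finset.Icc 1 H).filter fun n => n % M = r % M) =
      (Finset.Ioc 0 H).filter fun n => n ≡ r [ZMOD M] := by
    ext n
    rw [Finset.mem_filter, Finset.mem_filter, Finset.mem_Icc, Finset.mem_Ioc]
    constructor
    · rintro ⟨⟨h1, h2⟩, h3⟩; exact ⟨⟨by omega, h2⟩, h3⟩
    · rintro ⟨⟨h1, h2⟩, h3⟩; exact ⟨⟨by omega, h2⟩, h3⟩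
  have h1 := Int.Ioc_filter_modEq_card 0 H hM r
  rw [← e] at h1
  set c := ((Finset.Icc 1 H).filter fun n => n % M = r % M).card with hc
  set X : ℚ := (H : ℚ) / M with hX
  have hMq : (0 : ℚ) < M := by exact_mod_cast hM
  have hX1 : 1 ≤ X := by
    rw [hX, le_div_iff₀ hMq, one_mul]; exact_mod_cast hH
  set t : ℚ := (0 - r) / M with ht
  have e2 : ((H : ℚ) - r) / M = X + t := by rw [hX, ht]; ring
  push_cast at h1
  rw [e2, ← ht] at h1
  have f1 := Int.floor_le X
  have f2 := Int.lt_floor_add_one X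
  have f3 := Int.le_floor_add X t
  have f4 := Int.le_floor_add_floor X t
  have g3 : 1 ≤ ⌊X⌋ := Int.le_floor.2 (by exact_mod_cast hX1)
  have hmax : max (⌊X + t⌋ - ⌊t⌋) 0 = ⌊X + t⌋ - ⌊t⌋ := max_eq_left (by linarith)
  rw [hmax] at h1
  exact ⟨g3, by linarith, by linarith⟩

lemma count_bounds {M H : ℤ} (hM : 0 < M) (hH : M ≤ H) (r : ℤ) :
    ((H : ℝ) / M / 2 ≤ (((Finset.Icc 1 H).filter fun n => n % M = r % M).card : ℝ)) ∧
    ((((Finset.Icc 1 H).filter fun n => n % M = r % M).card : ℝ) ≤ 2 * ((H : ℝ) / M)) := by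
  have e : ((Finset.Icc 1 H).filter fun n => n % M = r % M) =
      (Finset.Ioc 0 H).filter fun n => n ≡ r [ZMOD M] := by
    ext n
    rw [Finset.mem_filter, Finset.mem_filter, Finset.mem_Icc, Finset.mem_Ioc]
    constructor
    · rintro ⟨⟨h1, h2⟩, h3⟩; exact ⟨⟨by omega, h2⟩, h3⟩
    · rintro ⟨⟨h1, h2⟩, h3⟩; exact ⟨⟨by omega, h2⟩, h3⟩
  have h1 := Int.Ioc_filter_modEq_card 0 H hM r
  rw [← e] at h1
  set c := ((Finset.Icc 1 H).filter fun n => n % M = r % M).card with hc
  set X : ℚ := (H : ℚ) / M with hX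
  have hMq : (0 : ℚ) < M := by exact_mod_cast hM
  have hX1 : 1 ≤ X := by
    rw [hX, le_div_iff₀ hMq, one_mul]; exact_mod_cast hH
  set t : ℚ := (0 - r) / M with ht
  have e2 : ((H : ℚ) - r) / M = X + t := by rw [hX, ht]; ring
  push_cast at h1
  rw [e2, ← ht] at h1
  have f1 := Int.floor_le X
  have f2 := Int.lt_floor_add_one X
  have f3 := Int.le_floor_add X t
  have f4 := Int.le_floor_add_floor X t
  have g1 : ⌊X⌋ ≤ ⌊X + t⌋ - ⌊t⌋ := by linarith
  have g2 : ⌊X + t⌋ - ⌊t⌋ ≤ ⌊X⌋ + 1 := by linarith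
  have g3 : 1 ≤ ⌊X⌋ := Int.le_floor.2 (by exact_mod_cast hX1)
  have hmax : max (⌊X + t⌋ - ⌊t⌋) 0 = ⌊X + t⌋ - ⌊t⌋ := max_eq_left (by linarith)
  rw [hmax] at h1
  have hcl : (⌊X⌋ : ℤ) ≤ c := by linarith
  have hcu : (c : ℤ) ≤ ⌊X⌋ + 1 := by linarith
  have hXr : ((X : ℚ) : ℝ) = (H : ℝ) / M := by rw [hX]; push_cast; rfl
  rw [← hXr]
  have hcl' : ((⌊X⌋ : ℤ) : ℚ) ≤ c := by exact_mod_cast hcl
  have hcu' : (c : ℚ) ≤ ⌊X⌋ + 1 := by exact_mod_cast hcu
  have g3' : (1 : ℚ) ≤ ⌊X⌋ := by exact_mod_cast g3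
  constructor
  · have : X / 2 ≤ (c : ℚ) := by linarith
    exact_mod_cast this
  · have : (c : ℚ) ≤ 2 * X := by linarith
    exact_mod_cast this

/-- the sum over `[1, H]³` as a sum over the residues -/
theorem box_formula {g : (Fin 3 → ℤ) → ℝ} {M : ℤ} (H : ℤ) (hM : 0 < M) (hg : Per g M) :
    ∑ n ∈ boxH H, g n = ∑ r ∈ box M,
      (∏ i : Fin 3, (((Finset.Icc 1 H).filter fun n => n % M = r i % M).card : ℝ)) * g r := by
  classical
  have hmaps : ∀ n ∈ boxH H, (fun i => n i % M) ∈ box M := by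
    intro n _
    rw [mem_box]
    exact fun i => ⟨Int.emod_nonneg _ hM.ne', Int.emod_lt_of_pos _ hM⟩
  rw [← Finset.sum_fiberwise_of_maps_to hmaps]
  refine Finset.sum_congr rfl fun r hr => ?_
  rw [mem_box] at hr
  have e1 : ∀ n ∈ (boxH H).filter (fun n => (fun i => n i % M) = r), g n = g r := by
    intro n hn
    rw [Finset.mem_filter] at hn
    refine hg n r fun i => ?_
    have := congrFun hn.2 i
    rw [← this]
    exact (Int.mod_modEq _ _).symm
  rw [Finset.sum_congr rfl e1, Finset.sum_const, nsmul_eq_mul]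
  congr 1
  have e2 : (boxH H).filter (fun n => (fun i => n i % M) = r) =
      Fintype.piFinset fun i => (Finset.Icc 1 H).filter fun n => n % M = r i % M := by
    ext n
    simp only [Finset.mem_filter, boxH, Fintype.mem_piFinset, funext_iff]
    constructor
    · rintro ⟨a, b⟩ i
      exact ⟨a i, by rw [b i, Int.emod_eq_of_lt (hr i).1 (hr i).2]⟩
    · intro h
      refine ⟨fun i => (h i).1, fun i => ?_⟩
      rw [(h i).2, Int.emod_eq_of_lt (hr i).1 (hr i).2]
  rw [e2, Fintype.card_piFinset]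
  push_cast
  rfl

/-- comparison of the sum over `[1, H]³` with the sum over the residues -/
theorem box_compare {g : (Fin 3 → ℤ) → ℝ} {M H : ℤ} (hM : 0 < M) (hH : M ≤ H)
    (hg : Per g M) (hg0 : ∀ n, 0 ≤ g n) :
    ((H : ℝ) / M / 2) ^ 3 * ∑ n ∈ box M, g n ≤ ∑ n ∈ boxH H, g n ∧
    ∑ n ∈ boxH H, g n ≤ (2 * ((H : ℝ) / M)) ^ 3 * ∑ n ∈ box M, g n := by
  have h1 := box_formula H hM hg
  have hx : 0 ≤ (H : ℝ) / M := by
    have : (0 : ℝ) < M := by exact_mod_cast hM
    have : (0 : ℝ) < H := by exact_mod_cast lt_of_lt_of_le hM hH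
    positivity
  rw [h1, Finset.mul_sum, Finset.mul_sum]
  constructor
  · refine Finset.sum_le_sum fun r _ => mul_le_mul_of_nonneg_right ?_ (hg0 r)
    rw [show ((H : ℝ) / M / 2) ^ 3 = ∏ i : Fin 3, ((H : ℝ) / M / 2) by
      rw [Finset.prod_const, Finset.card_univ, Fintype.card_fin]]
    exact Finset.prod_le_prod (fun i _ => by positivity) fun i _ => (count_bounds hM hH (r i)).1
  · refine Finset.sum_le_sum fun r _ => mul_le_mul_of_nonneg_right ?_ (hg0 r)
    rw [show (2 * ((H : ℝ) / M)) ^ 3 = ∏ i : Fin 3, (2 * ((H : ℝ) / M)) by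
      rw [Finset.prod_const, Finset.card_univ, Fintype.card_fin]]
    exact Finset.prod_le_prod (fun i _ => by positivity) fun i _ => (count_bounds hM hH (r i)).2

/-- the sum over `[1, H]³` of a function with mean zero -/
theorem box_zero {g : (Fin 3 → ℤ) → ℝ} {M H : ℤ} {G : ℝ} (hM : 0 < M) (hH : M ≤ H)
    (hg : Per g M) (hG : ∀ n, |g n| ≤ G) (h0 : ∑ n ∈ box M, g n = 0) :
    |∑ n ∈ boxH H, g n| ≤ 7 * G * M * (H : ℝ) ^ 2 := by
  have hMr : (0 : ℝ) < M := by exact_mod_cast hM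
  have hHr : (M : ℝ) ≤ H := by exact_mod_cast hH
  have hG0 : 0 ≤ G := (abs_nonneg _).trans (hG 0)
  set L : ℤ := ⌊(H : ℚ) / M⌋ with hL
  have hLM : (L : ℝ) * M ≤ H := by
    have h1 := Int.floor_le ((H : ℚ) / M)
    rw [← hL, le_div_iff₀ (by exact_mod_cast hM)] at h1
    exact_mod_cast h1
  have hL1 : (1 : ℝ) ≤ L := by
    have h := (count_int hM hH 0).1
    rw [← hL] at h
    exact_mod_cast h
  have h1 : ∑ n ∈ boxH H, g n = ∑ r ∈ box M,
      ((∏ i : Fin 3, (((Finset.Icc 1 H).filter fun n => n % M = r i % M).card : ℝ)) - (L : ℝ) ^ 3) *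
        g r := by
    simp_rw [sub_mul]
    rw [Finset.sum_sub_distrib, ← Finset.mul_sum, h0, mul_zero, sub_zero, box_formula H hM hg]
  have hc : ∀ r : ℤ, (L : ℝ) ≤ (((Finset.Icc 1 H).filter fun n => n % M = r % M).card : ℝ) ∧
      (((Finset.Icc 1 H).filter fun n => n % M = r % M).card : ℝ) ≤ L + 1 := by
    intro r
    have h := (count_int hM hH r).2
    rw [← hL] at h
    exact ⟨by exact_mod_cast h.1, by exact_mod_cast h.2⟩
  have h2 : ∀ r : Fin 3 → ℤ,
      |(∏ i : Fin 3, (((Finset.Icc 1 H).filter fun n => n % M = r i % M).card : ℝ)) - (L : ℝ) ^ 3| ≤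
        7 * (L : ℝ) ^ 2 := by
    intro r
    have e1 : (L : ℝ) ^ 3 = ∏ i : Fin 3, (L : ℝ) := by
      rw [Finset.prod_const, Finset.card_univ, Fintype.card_fin]
    have e2 : ((L : ℝ) + 1) ^ 3 = ∏ i : Fin 3, ((L : ℝ) + 1) := by
      rw [Finset.prod_const, Finset.card_univ, Fintype.card_fin]
    have l1 : (L : ℝ) ^ 3 ≤
        ∏ i : Fin 3, (((Finset.Icc 1 H).filter fun n => n % M = r i % M).card : ℝ) := by
      rw [e1]
      exact Finset.prod_le_prod (fun i _ => by linarith) fun i _ => (hc (r i)).1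
    have l2 : ∏ i : Fin 3, (((Finset.Icc 1 H).filter fun n => n % M = r i % M).card : ℝ) ≤
        ((L : ℝ) + 1) ^ 3 := by
      rw [e2]
      exact Finset.prod_le_prod (fun i _ => by positivity) fun i _ => (hc (r i)).2
    rw [abs_of_nonneg (by linarith)]
    nlinarith
  rw [h1]
  refine (Finset.abs_sum_le_sum_abs _ _).trans ?_
  calc _ ≤ ∑ r ∈ box M, 7 * (L : ℝ) ^ 2 * G := Finset.sum_le_sum fun r _ => by
        rw [abs_mul]
        exact mul_le_mul (h2 r) (hG r) (abs_nonneg _) (by positivity)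
    _ = (M : ℝ) ^ 3 * (7 * (L : ℝ) ^ 2 * G) := by
        rw [Finset.sum_const, nsmul_eq_mul]
        congr 1
        unfold box
        rw [Fintype.card_piFinset, Finset.prod_const, Finset.card_univ, Fintype.card_fin, Int.card_Ico,
          sub_zero]
        have : ((M.toNat : ℕ) : ℝ) = M := by
          have := Int.toNat_of_nonneg hM.le
          exact_mod_cast this
        push_cast
        rw [this]
    _ = 7 * G * M * ((L : ℝ) * M) ^ 2 := by ring
    _ ≤ _ := by
        apply mul_le_mul_of_nonneg_left _ (by positivity)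
        exact pow_le_pow_left₀ (by positivity) hLM 2

end Pool.Agent.H678R3.BSD
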