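import Mathlib

/-! Averages over boxes of products of functions of the residues modulo primes. -/

set_option autoImplicit false

open Finset

namespace Pool.Agent.H678R3.BSD.W2

/-- the box `[0, N)²` -/
noncomputable def box (N : ℤ) : Finset (Fin 2 → ℤ) := Fintype.piFinset fun _ => Finset.Ico 0 N

/-- periodicity -/
def Per (g : (Fin 2 → ℤ) → ℝ) (M : ℤ) : Prop :=
  ∀ n n' : Fin 2 → ℤ, (∀ i, n i ≡ n' i [ZMOD M]) → g n = g n'

lemma mem_box {N : ℤ} {n : Fin 2 → ℤ} : n ∈ box N ↔ ∀ i, 0 ≤ n i ∧ n i < N := by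
  simp [box]

/-- the Chinese remainder theorem for sums -/
theorem crt_two {g h : (Fin 2 → ℤ) → ℝ} {m p : ℤ} (hm : 0 < m) (hp : 0 < p)
    (hcop : IsCoprime m p) (hg : Per g m) (hh : Per h p) :
    ∑ n ∈ box (m * p), g n * h n = (∑ n ∈ box m, g n) * ∑ n ∈ box p, h n := by
  obtain ⟨α, β, hab⟩ := hcop
  rw [Finset.sum_mul_sum, ← Finset.sum_product']
  have key1 : ∀ a b : ℤ, a * (β * p) + b * (α * m) ≡ a [ZMOD m] := by
    intro a b
    have : a * (β * p) + b * (α * m) = a + m * (b * α - a * α) := by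
      have : β * p = 1 - α * m := by linarith
      rw [this]; ring
    rw [this]
    exact Int.modEq_iff_dvd.2 ⟨-(b * α - a * α), by ring⟩
  have key2 : ∀ a b : ℤ, a * (β * p) + b * (α * m) ≡ b [ZMOD p] := by
    intro a b
    have : a * (β * p) + b * (α * m) = b + p * (a * β - b * β) := by
      have : α * m = 1 - β * p := by linarith
      rw [this]; ring
    rw [this]
    exact Int.modEq_iff_dvd.2 ⟨-(a * β - b * β), by ring⟩
  have hmp : 0 < m * p := mul_pos hm hp
  have cop : IsCoprime m p := ⟨α, β, hab⟩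
  refine Finset.sum_bij' (fun n _ => ((fun i => n i % m), (fun i => n i % p)))
    (fun q _ => fun i => (q.1 i * (β * p) + q.2 i * (α * m)) % (m * p)) ?_ ?_ ?_ ?_ ?_
  · intro n _
    rw [Finset.mem_product]
    constructor
    · rw [mem_box]
      exact fun i => ⟨Int.emod_nonneg _ hm.ne', Int.emod_lt_of_pos _ hm⟩
    · rw [mem_box]
      exact fun i => ⟨Int.emod_nonneg _ hp.ne', Int.emod_lt_of_pos _ hp⟩
  · intro q _
    rw [mem_box]
    exact fun i => ⟨Int.emod_nonneg _ hmp.ne', Int.emod_lt_of_pos _ hmp⟩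
  · intro n hn
    rw [mem_box] at hn
    funext i
    show (n i % m * (β * p) + n i % p * (α * m)) % (m * p) = n i
    have h1 : n i % m * (β * p) + n i % p * (α * m) ≡ n i [ZMOD m] :=
      (key1 _ _).trans (Int.mod_modEq _ _)
    have h2 : n i % m * (β * p) + n i % p * (α * m) ≡ n i [ZMOD p] :=
      (key2 _ _).trans (Int.mod_modEq _ _)
    have h3 : n i % m * (β * p) + n i % p * (α * m) ≡ n i [ZMOD m * p] := by
      rw [Int.modEq_iff_dvd]
      exact cop.mul_dvd (Int.modEq_iff_dvd.1 h1) (Int.modEq_iff_dvd.1 h2)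
    rw [h3.eq, Int.emod_eq_of_lt (hn i).1 (hn i).2]
  · rintro ⟨u, w⟩ hq
    rw [Finset.mem_product, mem_box, mem_box] at hq
    simp only
    refine Prod.ext ?_ ?_
    · funext i
      show (u i * (β * p) + w i * (α * m)) % (m * p) % m = u i
      rw [Int.emod_emod_of_dvd _ (Dvd.intro _ rfl), (key1 _ _).eq]
      exact Int.emod_eq_of_lt (hq.1 i).1 (hq.1 i).2
    · funext i
      show (u i * (β * p) + w i * (α * m)) % (m * p) % p = w i
      rw [Int.emod_emod_of_dvd _ (Dvd.intro_left _ rfl), (key2 _ _).eq]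
      exact Int.emod_eq_of_lt (hq.2 i).1 (hq.2 i).2
  · intro n _
    simp only
    rw [hg n (fun i => n i % m) fun i => (Int.mod_modEq _ _).symm,
      hh n (fun i => n i % p) fun i => (Int.mod_modEq _ _).symm]

/-- a product over the primes of a finite set -/
theorem crt_prod (f : ℕ → (Fin 2 → ℤ) → ℝ) (S : Finset ℕ) (hS : ∀ p ∈ S, p.Prime)
    (hf : ∀ p ∈ S, Per (f p) p) :
    Per (fun n => ∏ p ∈ S, f p n) ((∏ p ∈ S, p : ℕ) : ℤ) ∧
    ∑ n ∈ box ((∏ p ∈ S, p : ℕ) : ℤ), ∏ p ∈ S, f p n = ∏ p ∈ S, ∑ n ∈ box (p : ℤ), f p n := by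
  classical
  induction S using Finset.induction_on with
  | empty =>
    refine ⟨fun n n' _ => by simp, ?_⟩
    simp [box]
  | insert a S ha ih =>
    have ih' := ih (fun p hp => hS p (Finset.mem_insert_of_mem hp))
      (fun p hp => hf p (Finset.mem_insert_of_mem hp))
    have hfa := hf a (Finset.mem_insert_self _ _)
    have hpa := hS a (Finset.mem_insert_self _ _)
    constructor
    · intro n n' h
      simp only [Finset.prod_insert ha]
      rw [Finset.prod_insert ha] at h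
      push_cast at h
      have h1 : f a n = f a n' := hfa n n' fun i => (h i).of_dvd (Dvd.intro _ rfl)
      have h2 := ih'.1 n n' fun i => by
        push_cast
        exact (h i).of_dvd (Dvd.intro_left _ rfl)
      simp only at h2
      rw [h1, h2]
    · simp only [Finset.prod_insert ha]
      rw [← ih'.2]
      have hcop : IsCoprime (a : ℤ) ((∏ p ∈ S, p : ℕ) : ℤ) := by
        rw [Nat.isCoprime_iff_coprime]
        exact Nat.Coprime.prod_right fun p hp =>
          (Nat.coprime_primes hpa (hS p (Finset.mem_insert_of_mem hp))).2 fun h => ha (h ▸ hp)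
      have := crt_two (g := f a) (h := fun n => ∏ p ∈ S, f p n) (m := (a : ℤ))
        (p := ((∏ p ∈ S, p : ℕ) : ℤ)) (by exact_mod_cast hpa.pos)
        (by exact_mod_cast Finset.prod_pos fun p hp => (hS p (Finset.mem_insert_of_mem hp)).pos)
        hcop hfa ih'.1
      rw [← this]
      push_cast
      rfl

/-- the rectangle with sides `(lo i, hi i]` -/
noncomputable def boxS (lo hi : Fin 2 → ℤ) : Finset (Fin 2 → ℤ) :=
  Fintype.piFinset fun i => Finset.Ioc (lo i) (hi i)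

lemma count_int {M a b : ℤ} (hM : 0 < M) (hH : M ≤ b - a) (r : ℤ) :
    1 ≤ ⌊((b - a : ℤ) : ℚ) / M⌋ ∧
    ⌊((b - a : ℤ) : ℚ) / M⌋ ≤ (((Finset.Ioc a b).filter fun n => n % M = r % M).card : ℤ) ∧
    (((Finset.Ioc a b).filter fun n => n % M = r % M).card : ℤ) ≤ ⌊((b - a : ℤ) : ℚ) / M⌋ + 1 := by
  have e : ((Finset.Ioc a b).filter fun n => n % M = r % M) =
      (Finset.Ioc a b).filter fun n => n ≡ r [ZMOD M] := by
    ext n
    rw [Finset.mem_filter, Finset.mem_filter]
    constructor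
    · rintro ⟨h1, h3⟩; exact ⟨h1, h3⟩
    · rintro ⟨h1, h3⟩; exact ⟨h1, h3⟩
  have h1 := Int.Ioc_filter_modEq_card a b hM r
  rw [← e] at h1
  set c := ((Finset.Ioc a b).filter fun n => n % M = r % M).card with hc
  set X : ℚ := ((b - a : ℤ) : ℚ) / M with hX
  have hMq : (0 : ℚ) < M := by exact_mod_cast hM
  have hX1 : 1 ≤ X := by
    rw [hX, le_div_iff₀ hMq, one_mul]; exact_mod_cast hH
  set t : ℚ := ((a : ℚ) - r) / M with ht
  have e2 : ((b : ℚ) - r) / M = X + t := by rw [hX, ht]; push_cast; ring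
  rw [e2] at h1
  have f1 := Int.floor_le X
  have f2 := Int.lt_floor_add_one X
  have f3 := Int.le_floor_add X t
  have f4 := Int.le_floor_add_floor X t
  have g3 : 1 ≤ ⌊X⌋ := Int.le_floor.2 (by exact_mod_cast hX1)
  have hmax : max (⌊X + t⌋ - ⌊t⌋) 0 = ⌊X + t⌋ - ⌊t⌋ := max_eq_left (by linarith)
  rw [hmax] at h1
  exact ⟨g3, by linarith, by linarith⟩

/-- the sum over the rectangle as a sum over the residues -/
theorem box_formula {g : (Fin 2 → ℤ) → ℝ} {M : ℤ} (lo hi : Fin 2 → ℤ) (hM : 0 < M) (hg : Per g M) :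
    ∑ n ∈ boxS lo hi, g n = ∑ r ∈ box M,
      (∏ i : Fin 2, (((Finset.Ioc (lo i) (hi i)).filter fun n => n % M = r i % M).card : ℝ)) * g r := by
  classical
  have hmaps : ∀ n ∈ boxS lo hi, (fun i => n i % M) ∈ box M := by
    intro n _
    rw [mem_box]
    exact fun i => ⟨Int.emod_nonneg _ hM.ne', Int.emod_lt_of_pos _ hM⟩
  rw [← Finset.sum_fiberwise_of_maps_to hmaps]
  refine Finset.sum_congr rfl fun r hr => ?_
  rw [mem_box] at hr
  have e1 : ∀ n ∈ (boxS lo hi).filter (fun n => (fun i => n i % M) = r), g n = g r := by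
    intro n hn
    rw [Finset.mem_filter] at hn
    refine hg n r fun i => ?_
    have := congrFun hn.2 i
    rw [← this]
    exact (Int.mod_modEq _ _).symm
  rw [Finset.sum_congr rfl e1, Finset.sum_const, nsmul_eq_mul]
  congr 1
  have e2 : (boxS lo hi).filter (fun n => (fun i => n i % M) = r) =
      Fintype.piFinset fun i => (Finset.Ioc (lo i) (hi i)).filter fun n => n % M = r i % M := by
    ext n
    simp only [Finset.mem_filter, boxS, Fintype.mem_piFinset, funext_iff]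
    constructor
    · rintro ⟨a, b⟩ i
      exact ⟨a i, by rw [b i, Int.emod_eq_of_lt (hr i).1 (hr i).2]⟩
    · intro h
      refine ⟨fun i => (h i).1, fun i => ?_⟩
      rw [(h i).2, Int.emod_eq_of_lt (hr i).1 (hr i).2]
  rw [e2, Fintype.card_piFinset]
  push_cast
  rfl

/-- the sum over a rectangle of a function with mean zero -/
theorem box_zero {g : (Fin 2 → ℤ) → ℝ} {M : ℤ} {lo hi : Fin 2 → ℤ} {G K : ℝ} (hM : 0 < M)
    (hH : ∀ i, M ≤ hi i - lo i) (hK : ∀ i, K ≤ ((hi i - lo i : ℤ) : ℝ)) (hK0 : 0 < K)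
    (hg : Per g M) (hG : ∀ n, |g n| ≤ G) (h0 : ∑ n ∈ box M, g n = 0) :
    K * |∑ n ∈ boxS lo hi, g n| ≤
      3 * G * M * (((hi 0 - lo 0 : ℤ) : ℝ) * ((hi 1 - lo 1 : ℤ) : ℝ)) := by
  have hMr : (0 : ℝ) < M := by exact_mod_cast hM
  have hG0 : 0 ≤ G := (abs_nonneg _).trans (hG 0)
  set l : Fin 2 → ℝ := fun i => ((hi i - lo i : ℤ) : ℝ) with hl
  have hlM : ∀ i, (M : ℝ) ≤ l i := fun i => by
    show (M : ℝ) ≤ ((hi i - lo i : ℤ) : ℝ)
    exact_mod_cast hH i
  set L : Fin 2 → ℤ := fun i => ⌊((hi i - lo i : ℤ) : ℚ) / M⌋ with hL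
  have hLM : ∀ i, (L i : ℝ) * M ≤ l i := by
    intro i
    have h1 := Int.floor_le (((hi i - lo i : ℤ) : ℚ) / M)
    rw [le_div_iff₀ (by exact_mod_cast hM)] at h1
    have h2 : ((L i : ℤ) : ℚ) * M ≤ ((hi i - lo i : ℤ) : ℚ) := h1
    show (L i : ℝ) * M ≤ ((hi i - lo i : ℤ) : ℝ)
    exact_mod_cast h2
  have hL1 : ∀ i, (1 : ℝ) ≤ L i := by
    intro i
    have h : 1 ≤ L i := (count_int hM (hH i) 0).1
    exact_mod_cast h
  have h1 : ∑ n ∈ boxS lo hi, g n = ∑ r ∈ box M,
      ((∏ i : Fin 2, (((Finset.Ioc (lo i) (hi i)).filter fun n => n % M = r i % M).card : ℝ)) -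
        (L 0 : ℝ) * L 1) * g r := by
    simp_rw [sub_mul]
    rw [Finset.sum_sub_distrib, ← Finset.mul_sum, h0, mul_zero, sub_zero, box_formula lo hi hM hg]
  have hc : ∀ (i : Fin 2) (r : ℤ),
      (L i : ℝ) ≤ (((Finset.Ioc (lo i) (hi i)).filter fun n => n % M = r % M).card : ℝ) ∧
      (((Finset.Ioc (lo i) (hi i)).filter fun n => n % M = r % M).card : ℝ) ≤ L i + 1 := by
    intro i r
    have h : L i ≤ _ ∧ _ ≤ L i + 1 := (count_int hM (hH i) r).2
    exact ⟨by exact_mod_cast h.1, by exact_mod_cast h.2⟩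
  have h2 : ∀ r : Fin 2 → ℤ,
      |(∏ i : Fin 2, (((Finset.Ioc (lo i) (hi i)).filter fun n => n % M = r i % M).card : ℝ)) -
        (L 0 : ℝ) * L 1| ≤ L 0 + L 1 + 1 := by
    intro r
    rw [Fin.prod_univ_two]
    have a0 := hc 0 (r 0)
    have a1 := hc 1 (r 1)
    have b0 := hL1 0
    have b1 := hL1 1
    set c0 := (((Finset.Ioc (lo 0) (hi 0)).filter fun n => n % M = r 0 % M).card : ℝ)
    set c1 := (((Finset.Ioc (lo 1) (hi 1)).filter fun n => n % M = r 1 % M).card : ℝ)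
    have l1 : (L 0 : ℝ) * L 1 ≤ c0 * c1 := mul_le_mul a0.1 a1.1 (by linarith) (by linarith)
    have l2 : c0 * c1 ≤ ((L 0 : ℝ) + 1) * (L 1 + 1) :=
      mul_le_mul a0.2 a1.2 (by linarith) (by linarith)
    rw [abs_of_nonneg (by linarith)]
    linarith
  have h3 : |∑ n ∈ boxS lo hi, g n| ≤ (M : ℝ) ^ 2 * (((L 0 : ℝ) + L 1 + 1) * G) := by
    rw [h1]
    refine (Finset.abs_sum_le_sum_abs _ _).trans ?_
    calc _ ≤ ∑ r ∈ box M, ((L 0 : ℝ) + L 1 + 1) * G := Finset.sum_le_sum fun r _ => by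
          rw [abs_mul]
          exact mul_le_mul (h2 r) (hG r) (abs_nonneg _) (by linarith [hL1 0, hL1 1])
      _ = _ := by
          rw [Finset.sum_const, nsmul_eq_mul]
          congr 1
          unfold box
          rw [Fintype.card_piFinset, Finset.prod_const, Finset.card_univ, Fintype.card_fin, Int.card_Ico,
            sub_zero]
          have : ((M.toNat : ℕ) : ℝ) = M := by
            have := Int.toNat_of_nonneg hM.le
            exact_mod_cast this
          push_cast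
          rw [this]
  have hl0 : 0 < l 0 := lt_of_lt_of_le hMr (hlM 0)
  have hl1 : 0 < l 1 := lt_of_lt_of_le hMr (hlM 1)
  show K * |∑ n ∈ boxS lo hi, g n| ≤ 3 * G * M * (l 0 * l 1)
  have hK0' : K ≤ l 0 := hK 0
  have hK1' : K ≤ l 1 := hK 1
  have h4 : K * ((M : ℝ) * ((L 0 : ℝ) + L 1 + 1)) ≤ 3 * (l 0 * l 1) := by
    have e1 : (M : ℝ) * ((L 0 : ℝ) + L 1 + 1) ≤ l 0 + l 1 + M := by
      have := hLM 0
      have := hLM 1
      linarith
    have e2 : K * ((M : ℝ) * ((L 0 : ℝ) + L 1 + 1)) ≤ K * (l 0 + l 1 + M) :=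
      mul_le_mul_of_nonneg_left e1 hK0.le
    have e3 : K * l 0 ≤ l 1 * l 0 := mul_le_mul_of_nonneg_right hK1' hl0.le
    have e4 : K * l 1 ≤ l 0 * l 1 := mul_le_mul_of_nonneg_right hK0' hl1.le
    have e5 : K * M ≤ l 0 * l 1 := mul_le_mul hK0' (hlM 1) hMr.le hl0.le
    linarith
  calc K * |∑ n ∈ boxS lo hi, g n| ≤ K * ((M : ℝ) ^ 2 * (((L 0 : ℝ) + L 1 + 1) * G)) :=
        mul_le_mul_of_nonneg_left h3 hK0.le
    _ = (G * M) * (K * ((M : ℝ) * ((L 0 : ℝ) + L 1 + 1))) := by ring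
    _ ≤ (G * M) * (3 * (l 0 * l 1)) := mul_le_mul_of_nonneg_left h4 (by positivity)
    _ = _ := by ring

end Pool.Agent.H678R3.BSD.W2
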