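import Pool.Agent.H678R3.BSD.CharSum
import Pool.Agent.H678R3.BSD.Crt

/-! The families and the products of `#C(F_p) / p`. -/

set_option autoImplicit false

open Finset

namespace Pool.Agent.H678R3.BSD

/-- the discriminant of `x³ + a x² + b x + c` -/
def disc {R : Type*} [CommRing R] (a b c : R) : R :=
  a ^ 2 * b ^ 2 - 4 * b ^ 3 - 4 * a ^ 3 * c + 18 * a * b * c - 27 * c ^ 2

/-- the primes not dividing twice the discriminant of the cubic -/
def Good (a b c : ℤ) (p : ℕ) : Prop := p.Prime ∧ ¬ ((p : ℤ) ∣ 2 * disc a b c)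

/-- the number of affine points of `y² = x³ + a x² + b x + c` modulo `p` -/
noncomputable def Np (a b c : ℤ) (p : ℕ) : ℕ :=
  Nat.card {q : ZMod p × ZMod p //
    q.2 ^ 2 = q.1 ^ 3 + (a : ZMod p) * q.1 ^ 2 + (b : ZMod p) * q.1 + (c : ZMod p)}

open Classical in
/-- the product of `#C(F_p) / p` over the good primes `p ≤ x` -/
noncomputable def EP (a b c : ℤ) (x : ℕ) : ℝ :=
  ∏ p ∈ (Finset.Icc 1 x).filter (Good a b c), ((Np a b c p : ℝ) + 1) / p

/-- the product for the member of the family with `j` marked points -/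
noncomputable def FP (j : ℕ) (n : Fin 3 → ℤ) (x : ℕ) : ℝ :=
  EP (n 0) (V1 j (n 2) - 1 - n 0 - V0 j (n 1)) (V0 j (n 1)) x

open Classical in
/-- the local factor as a function of the residues -/
noncomputable def lfZ (j p : ℕ) (m : Fin 3 → ZMod p) : ℝ :=
  if p.Prime ∧ 2 * disc (m 0) (V1 j (m 2) - 1 - m 0 - V0 j (m 1)) (V0 j (m 1)) ≠ 0 then
    ((Nat.card {q : ZMod p × ZMod p //
      q.2 ^ 2 = q.1 ^ 3 + m 0 * q.1 ^ 2 + (V1 j (m 2) - 1 - m 0 - V0 j (m 1)) * q.1 + V0 j (m 1)} : ℝ)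
      + 1) / p
  else 1

noncomputable def lf (j p : ℕ) (n : Fin 3 → ℤ) : ℝ := lfZ j p fun i => (n i : ZMod p)

lemma lf_per (j p : ℕ) : Per (lf j p) p := by
  intro n n' h
  unfold lf
  congr 1
  funext i
  exact (ZMod.intCast_eq_intCast_iff _ _ _).2 (h i)

lemma V0_cast (j p : ℕ) (v : ℤ) : ((V0 j v : ℤ) : ZMod p) = V0 j (v : ZMod p) := by
  unfold V0; split_ifs <;> push_cast <;> rfl

lemma V1_cast (j p : ℕ) (v : ℤ) : ((V1 j v : ℤ) : ZMod p) = V1 j (v : ZMod p) := by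
  unfold V1; split_ifs <;> push_cast <;> rfl

lemma FP_eq (j : ℕ) (n : Fin 3 → ℤ) (x : ℕ) :
    FP j n x = ∏ p ∈ (Finset.Icc 1 x).filter Nat.Prime, lf j p n := by
  classical
  unfold FP EP
  rw [Finset.prod_filter, Finset.prod_filter]
  refine Finset.prod_congr rfl fun p _ => ?_
  unfold lf lfZ Good Np
  by_cases hp : p.Prime
  · rw [if_pos hp]
    have e : (¬ ((p : ℤ) ∣ 2 * disc (n 0) (V1 j (n 2) - 1 - n 0 - V0 j (n 1)) (V0 j (n 1)))) ↔
        (2 * disc ((n 0 : ℤ) : ZMod p) (V1 j ((n 2 : ℤ) : ZMod p) - 1 - ((n 0 : ℤ) : ZMod p) -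
          V0 j ((n 1 : ℤ) : ZMod p)) (V0 j ((n 1 : ℤ) : ZMod p)) ≠ 0) := by
      rw [← ZMod.intCast_zmod_eq_zero_iff_dvd, Ne, not_iff_not]
      unfold disc
      push_cast
      rw [V0_cast, V1_cast]
    have e2 : (p.Prime ∧ ¬ ((p : ℤ) ∣ 2 * disc (n 0) (V1 j (n 2) - 1 - n 0 - V0 j (n 1)) (V0 j (n 1)))) ↔
        (p.Prime ∧ (2 * disc ((n 0 : ℤ) : ZMod p) (V1 j ((n 2 : ℤ) : ZMod p) - 1 - ((n 0 : ℤ) : ZMod p) -
          V0 j ((n 1 : ℤ) : ZMod p)) (V0 j ((n 1 : ℤ) : ZMod p)) ≠ 0)) := by rw [e]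
    simp only [e2]
    push_cast
    rw [V0_cast, V1_cast]
  · rw [if_neg hp, if_neg (fun h => hp h.1)]

end Pool.Agent.H678R3.BSD
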