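import Pool.Agent.H678R3.BSD.Glob

/-! A maximal inequality: the concentration holds simultaneously for all `y` in `[x₀, X]`. -/

set_option autoImplicit false
set_option maxHeartbeats 4000000

open Finset

namespace Pool.Agent.H678R3.BSD

/-- the primes up to `y` -/
def PS (y : ℕ) : Finset ℕ := (Finset.Icc 1 y).filter Nat.Prime

lemma PS_prime {y p : ℕ} (hp : p ∈ PS y) : p.Prime := (Finset.mem_filter.1 hp).2

lemma PS_mono {y z : ℕ} (h : y ≤ z) : PS y ⊆ PS z :=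
  Finset.filter_subset_filter _ (Finset.Icc_subset_Icc_right h)

/-- normalised local factor -/
noncomputable def ww (j : ℕ) (k : ℝ) (p : ℕ) (n : Fin 3 → ℤ) : ℝ := lf j p n ^ k / EE j k p

/-- normalised product -/
noncomputable def WW (j : ℕ) (k : ℝ) (y : ℕ) (n : Fin 3 → ℤ) : ℝ := ∏ p ∈ PS y, ww j k p n

lemma ww_per (j : ℕ) (k : ℝ) (p : ℕ) : Per (ww j k p) p := fun n n' h => by
  unfold ww
  rw [lf_per j p n n' h]

lemma ww_pos (j : ℕ) (k : ℝ) {p : ℕ} (hp : p.Prime) (n : Fin 3 → ℤ) : 0 < ww j k p n :=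
  div_pos (Real.rpow_pos_of_pos (lf_pos j p n) k) (EE_pos j k hp)

lemma ww_sum (j : ℕ) (k : ℝ) {p : ℕ} (hp : p.Prime) : ∑ n ∈ box (p : ℤ), ww j k p n = (p : ℝ) ^ 3 := by
  have hp0 : (0 : ℝ) < p := by exact_mod_cast hp.pos
  have hE := EE_pos j k hp
  unfold ww
  rw [← Finset.sum_div]
  have e : ∑ n ∈ box (p : ℤ), lf j p n ^ k = EE j k p * (p : ℝ) ^ 3 := by
    unfold EE
    field_simp
  rw [e]
  field_simp

lemma card_box' (M : ℕ) : ((box (M : ℤ)).card : ℝ) = (M : ℝ) ^ 3 := by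
  unfold box
  rw [Fintype.card_piFinset, Finset.prod_const, Finset.card_univ, Fintype.card_fin, Int.card_Ico,
    sub_zero, Int.toNat_natCast]
  push_cast
  rfl

lemma WW_pos (j : ℕ) (k : ℝ) (y : ℕ) (n : Fin 3 → ℤ) : 0 < WW j k y n :=
  Finset.prod_pos fun _ hp => ww_pos j k (PS_prime hp) n

lemma WW_per (j : ℕ) (k : ℝ) (y : ℕ) : Per (WW j k y) ((∏ p ∈ PS y, p : ℕ) : ℤ) :=
  (crt_prod (fun p => ww j k p) (PS y) (fun _ hp => PS_prime hp) (fun p _ => ww_per j k p)).1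

lemma WW_sum (j : ℕ) (k : ℝ) (X : ℕ) : ∑ n ∈ box ((∏ p ∈ PS X, p : ℕ) : ℤ), WW j k X n =
    ((∏ p ∈ PS X, p : ℕ) : ℝ) ^ 3 := by
  have h := (crt_prod (fun p => ww j k p) (PS X) (fun _ hp => PS_prime hp)
    (fun p _ => ww_per j k p)).2
  show ∑ n ∈ box ((∏ p ∈ PS X, p : ℕ) : ℤ), ∏ p ∈ PS X, ww j k p n = _
  rw [h]
  push_cast
  rw [← Finset.prod_pow]
  exact Finset.prod_congr rfl fun p hp => ww_sum j k (PS_prime hp)

lemma PM_dvd {y X : ℕ} (h : y ≤ X) : (∏ p ∈ PS y, p) ∣ ∏ p ∈ PS X, p :=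
  Finset.prod_dvd_prod_of_subset _ _ _ (PS_mono h)

/-- the martingale property -/
lemma mart (j : ℕ) (k : ℝ) {y X : ℕ} (hyX : y ≤ X) (A : (Fin 3 → ℤ) → ℝ)
    (hA : Per A ((∏ p ∈ PS y, p : ℕ) : ℤ)) :
    ∑ n ∈ box ((∏ p ∈ PS X, p : ℕ) : ℤ), A n * WW j k X n =
      ∑ n ∈ box ((∏ p ∈ PS X, p : ℕ) : ℤ), A n * WW j k y n := by
  classical
  set R := PS X \ PS y with hR
  have hRp : ∀ p ∈ R, p.Prime := fun p hp => PS_prime (Finset.mem_sdiff.1 hp).1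
  have hprod : ∏ p ∈ PS X, p = (∏ p ∈ PS y, p) * ∏ p ∈ R, p := by
    rw [hR, mul_comm, Finset.prod_sdiff (PS_mono hyX)]
  have hM0 : 0 < ∏ p ∈ PS y, p := Finset.prod_pos fun p hp => (PS_prime hp).pos
  have hR0 : 0 < ∏ p ∈ R, p := Finset.prod_pos fun p hp => (hRp p hp).pos
  have hcop : IsCoprime ((∏ p ∈ PS y, p : ℕ) : ℤ) ((∏ p ∈ R, p : ℕ) : ℤ) := by
    rw [Nat.isCoprime_iff_coprime]
    refine Nat.Coprime.prod_left fun p hp => Nat.Coprime.prod_right fun q hq => ?_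
    rw [Nat.coprime_primes (PS_prime hp) (hRp q hq)]
    intro h
    exact (Finset.mem_sdiff.1 hq).2 (h ▸ hp)
  have hrest := crt_prod (fun p => ww j k p) R hRp (fun p _ => ww_per j k p)
  have hone : Per (fun _ => (1 : ℝ)) ((∏ p ∈ R, p : ℕ) : ℤ) := fun _ _ _ => rfl
  have hAW : Per (fun n => A n * WW j k y n) ((∏ p ∈ PS y, p : ℕ) : ℤ) := fun n n' h => by
    show A n * WW j k y n = A n' * WW j k y n'
    rw [hA n n' h, WW_per j k y n n' h]
  have hWX : ∀ n, WW j k X n = WW j k y n * ∏ p ∈ R, ww j k p n := by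
    intro n
    unfold WW
    rw [mul_comm, hR, Finset.prod_sdiff (PS_mono hyX)]
  have hsumR : ∑ n ∈ box ((∏ p ∈ R, p : ℕ) : ℤ), ∏ p ∈ R, ww j k p n = ((∏ p ∈ R, p : ℕ) : ℝ) ^ 3 := by
    rw [hrest.2]
    push_cast
    rw [← Finset.prod_pow]
    exact Finset.prod_congr rfl fun p hp => ww_sum j k (hRp p hp)
  have e1 := crt_two (g := fun n => A n * WW j k y n) (h := fun n => ∏ p ∈ R, ww j k p n)
    (m := ((∏ p ∈ PS y, p : ℕ) : ℤ)) (p := ((∏ p ∈ R, p : ℕ) : ℤ)) (by exact_mod_cast hM0)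
    (by exact_mod_cast hR0) hcop hAW hrest.1
  have e2 := crt_two (g := fun n => A n * WW j k y n) (h := fun _ => (1 : ℝ))
    (m := ((∏ p ∈ PS y, p : ℕ) : ℤ)) (p := ((∏ p ∈ R, p : ℕ) : ℤ)) (by exact_mod_cast hM0)
    (by exact_mod_cast hR0) hcop hAW hone
  rw [hsumR] at e1
  have e3 : ∑ n ∈ box ((∏ p ∈ R, p : ℕ) : ℤ), (1 : ℝ) = ((∏ p ∈ R, p : ℕ) : ℝ) ^ 3 := by
    rw [Finset.sum_const, nsmul_eq_mul, mul_one, card_box']
  rw [e3] at e2
  have hcast : ((∏ p ∈ PS X, p : ℕ) : ℤ) = ((∏ p ∈ PS y, p : ℕ) : ℤ) * ((∏ p ∈ R, p : ℕ) : ℤ) := by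
    rw [hprod]; push_cast; rfl
  rw [hcast]
  calc _ = ∑ n ∈ box (((∏ p ∈ PS y, p : ℕ) : ℤ) * ((∏ p ∈ R, p : ℕ) : ℤ)),
        A n * WW j k y n * ∏ p ∈ R, ww j k p n := Finset.sum_congr rfl fun n _ => by
          rw [hWX n]; ring
    _ = _ := e1
    _ = _ := e2.symm
    _ = _ := Finset.sum_congr rfl fun n _ => by ring

open Classical in
/-- the maximal inequality -/
theorem doob (j : ℕ) (k : ℝ) (x₀ X : ℕ) (L : ℝ) (hL : 0 < L) :
    ∑ n ∈ box ((∏ p ∈ PS X, p : ℕ) : ℤ), (if ∃ y ∈ Finset.Icc x₀ X, L ≤ WW j k y n then (1 : ℝ) else 0)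
      ≤ ((∏ p ∈ PS X, p : ℕ) : ℝ) ^ 3 / L := by
  set M : ℤ := ((∏ p ∈ PS X, p : ℕ) : ℤ) with hM
  set Q : ℕ → (Fin 3 → ℤ) → Prop := fun y n => L ≤ WW j k y n ∧ ∀ z ∈ Finset.Icc x₀ X, z < y →
    ¬ L ≤ WW j k z n with hQ
  set A : ℕ → (Fin 3 → ℤ) → ℝ := fun y n => if Q y n then 1 else 0 with hA
  have hAper : ∀ y ∈ Finset.Icc x₀ X, Per (A y) ((∏ p ∈ PS y, p : ℕ) : ℤ) := by
    intro y hy n n' h
    have hW : ∀ z, z ≤ y → WW j k z n = WW j k z n' := fun z hz =>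
      WW_per j k z n n' fun i => (h i).of_dvd (by exact_mod_cast PM_dvd hz)
    have e : Q y n ↔ Q y n' := by
      show (L ≤ WW j k y n ∧ _) ↔ (L ≤ WW j k y n' ∧ _)
      rw [hW y le_rfl]
      constructor
      · rintro ⟨h1, h2⟩
        exact ⟨h1, fun z hz hzy => by rw [← hW z hzy.le]; exact h2 z hz hzy⟩
      · rintro ⟨h1, h2⟩
        exact ⟨h1, fun z hz hzy => by rw [hW z hzy.le]; exact h2 z hz hzy⟩
    show (if Q y n then (1 : ℝ) else 0) = if Q y n' then 1 else 0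
    simp only [e]
  have hA0 : ∀ y n, 0 ≤ A y n := fun y n => by
    show 0 ≤ if Q y n then (1 : ℝ) else 0
    split_ifs <;> norm_num
  have hone : ∀ n, (if ∃ y ∈ Finset.Icc x₀ X, L ≤ WW j k y n then (1 : ℝ) else 0) ≤
      ∑ y ∈ Finset.Icc x₀ X, A y n := by
    intro n
    by_cases hex : ∃ y ∈ Finset.Icc x₀ X, L ≤ WW j k y n
    · rw [if_pos hex]
      have hex' : ∃ y, y ∈ Finset.Icc x₀ X ∧ L ≤ WW j k y n := hex
      set y0 := Nat.find hex' with hy0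
      have hspec := Nat.find_spec hex'
      have hQ0 : Q y0 n := ⟨hspec.2, fun z hz hzy hcon => Nat.find_min hex' hzy ⟨hz, hcon⟩⟩
      have h1 : A y0 n = 1 := if_pos hQ0
      rw [← h1]
      exact Finset.single_le_sum (fun y _ => hA0 y n) hspec.1
    · rw [if_neg hex]
      exact Finset.sum_nonneg fun y _ => hA0 y n
  have hle1 : ∀ n, ∑ y ∈ Finset.Icc x₀ X, A y n ≤ 1 := by
    intro n
    have e : ∑ y ∈ Finset.Icc x₀ X, A y n = (((Finset.Icc x₀ X).filter fun y => Q y n).card : ℝ) := by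
      rw [Finset.card_filter]
      push_cast
      rfl
    rw [e]
    have : ((Finset.Icc x₀ X).filter fun y => Q y n).card ≤ 1 := by
      rw [Finset.card_le_one]
      intro a ha b hb
      rw [Finset.mem_filter] at ha hb
      rcases lt_trichotomy a b with h | h | h
      · exact absurd ha.2.1 (hb.2.2 a ha.1 h)
      · exact h
      · exact absurd hb.2.1 (ha.2.2 b hb.1 h)
    exact_mod_cast this
  have hAy : ∀ y ∈ Finset.Icc x₀ X, L * ∑ n ∈ box M, A y n ≤ ∑ n ∈ box M, A y n * WW j k X n := by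
    intro y hy
    rw [mart j k (Finset.mem_Icc.1 hy).2 (A y) (hAper y hy), Finset.mul_sum]
    refine Finset.sum_le_sum fun n _ => ?_
    show L * (if Q y n then (1 : ℝ) else 0) ≤ (if Q y n then (1 : ℝ) else 0) * WW j k y n
    by_cases h : Q y n
    · rw [if_pos h, mul_one, one_mul]
      exact h.1
    · rw [if_neg h]; simp
  rw [le_div_iff₀ hL]
  calc (∑ n ∈ box M, (if ∃ y ∈ Finset.Icc x₀ X, L ≤ WW j k y n then (1 : ℝ) else 0)) * L
      ≤ (∑ n ∈ box M, ∑ y ∈ Finset.Icc x₀ X, A y n) * L :=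
        mul_le_mul_of_nonneg_right (Finset.sum_le_sum fun n _ => hone n) hL.le
    _ = ∑ y ∈ Finset.Icc x₀ X, L * ∑ n ∈ box M, A y n := by
        rw [Finset.sum_comm, Finset.sum_mul]
        exact Finset.sum_congr rfl fun y _ => mul_comm _ _
    _ ≤ ∑ y ∈ Finset.Icc x₀ X, ∑ n ∈ box M, A y n * WW j k X n := Finset.sum_le_sum hAy
    _ = ∑ n ∈ box M, (∑ y ∈ Finset.Icc x₀ X, A y n) * WW j k X n := by
        rw [Finset.sum_comm]
        exact Finset.sum_congr rfl fun n _ => by rw [Finset.sum_mul]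
    _ ≤ ∑ n ∈ box M, 1 * WW j k X n := Finset.sum_le_sum fun n _ =>
        mul_le_mul_of_nonneg_right (hle1 n) (WW_pos j k X n).le
    _ = _ := by simp_rw [one_mul]; exact WW_sum j k X

end Pool.Agent.H678R3.BSD
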