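import Pool.Agent.H678R3.BSD.Glob

/-! The normal order of the products, for `x ≤ H ^ (1/3)`. -/

set_option autoImplicit false
set_option maxHeartbeats 4000000

open Finset

namespace Pool.Agent.H678R3.BSD

/-- the logarithm of the local factor is small -/
lemma log_lf_le (j : ℕ) {p : ℕ} (hp : p.Prime) (n : Fin 3 → ℤ) :
    |Real.log (lf j p n)| ≤ 24 / Real.sqrt p := by
  classical
  have hp0 : (0 : ℝ) < p := by exact_mod_cast hp.pos
  have hs0 : 0 < Real.sqrt p := Real.sqrt_pos.2 hp0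
  have : Fact p.Prime := ⟨hp⟩
  by_cases h36 : 36 ≤ p
  · have hp2 : p ≠ 2 := by omega
    have h36r : (36 : ℝ) ≤ p := by exact_mod_cast h36
    have hss : Real.sqrt p * Real.sqrt p = p := Real.mul_self_sqrt hp0.le
    have hs6 : 6 ≤ Real.sqrt p := by
      apply Real.le_sqrt_of_sq_le
      linarith
    set m : Fin 3 → ZMod p := fun i => (n i : ZMod p) with hm
    have e0 : lf j p n = lfZ j p ![m 0, m 1, m 2] := by
      unfold lf
      congr 1
      funext i
      fin_cases i <;> rfl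
    by_cases h : disc (m 0) (V1 j (m 2) - 1 - m 0 - V0 j (m 1)) (V0 j (m 1)) = 0
    · rw [e0, lfZ_bad j _ _ _ h, Real.log_one, abs_zero]
      positivity
    · rw [e0, lfZ_good hp2 j _ _ _ h]
      set u := (1 + TT (m 0) (V0 j (m 1)) (V1 j (m 2))) / (p : ℝ) with hu
      have hT := hasse hp2 (m 0) (V0 j (m 1)) (V1 j (m 2))
      have hu1 : |u| ≤ 3 / Real.sqrt p := by
        rw [hu, abs_div, abs_of_pos hp0, div_le_div_iff₀ hp0 hs0]
        have : |1 + TT (m 0) (V0 j (m 1)) (V1 j (m 2))| ≤ 1 + 2 * Real.sqrt p :=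
          (abs_add_le _ _).trans (by rw [abs_one]; linarith)
        nlinarith
      have h3s : 3 / Real.sqrt p ≤ 1 / 2 := by
        rw [div_le_div_iff₀ hs0 (by norm_num)]; linarith
      have hu2 := hu1.trans h3s
      have h1 := log_one_add u hu2
      have h2 : |Real.log (1 + u)| ≤ 2 * |u| := by
        have e1 : Real.log (1 + u) = (Real.log (1 + u) - u) + u := by ring
        rw [e1]
        refine (abs_add_le _ _).trans ?_
        have e2 : 2 * u ^ 2 ≤ |u| := by
          rw [← sq_abs]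
          nlinarith [abs_nonneg u]
        linarith
      calc _ ≤ 2 * |u| := h2
        _ ≤ 2 * (3 / Real.sqrt p) := by linarith
        _ = 6 / Real.sqrt p := by ring
        _ ≤ 24 / Real.sqrt p := by
          apply div_le_div_of_nonneg_right _ hs0.le
          norm_num
  · push Not at h36
    have hs6 : Real.sqrt p ≤ 6 := by
      rw [Real.sqrt_le_left (by norm_num)]
      have : (p : ℝ) ≤ 36 := by exact_mod_cast h36.le
      linarith
    have h4 : |Real.log (lf j p n)| ≤ 4 := by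
      have hlo : (1 : ℝ) / 36 ≤ lf j p n := by
        unfold lf lfZ
        split_ifs with h
        · rw [div_le_div_iff₀ (by norm_num) hp0]
          have : (p : ℝ) ≤ 36 := by exact_mod_cast h36.le
          have h0 : (0 : ℝ) ≤ (Nat.card {q : ZMod p × ZMod p // q.2 ^ 2 =
            q.1 ^ 3 + ((n 0 : ℤ) : ZMod p) * q.1 ^ 2 + (V1 j ((n 2 : ℤ) : ZMod p) - 1 -
            ((n 0 : ℤ) : ZMod p) - V0 j ((n 1 : ℤ) : ZMod p)) * q.1 + V0 j ((n 1 : ℤ) : ZMod p)} : ℝ) := by
            positivity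
          linarith
        · norm_num
      have hhi : lf j p n ≤ 37 := by
        unfold lf lfZ
        split_ifs with h
        · rw [div_le_iff₀ hp0]
          have hc : Nat.card {q : ZMod p × ZMod p // q.2 ^ 2 =
            q.1 ^ 3 + ((n 0 : ℤ) : ZMod p) * q.1 ^ 2 + (V1 j ((n 2 : ℤ) : ZMod p) - 1 -
            ((n 0 : ℤ) : ZMod p) - V0 j ((n 1 : ℤ) : ZMod p)) * q.1 + V0 j ((n 1 : ℤ) : ZMod p)} ≤
              p * p := by
            refine (Nat.card_le_card_of_injective Subtype.val Subtype.val_injective).trans ?_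
            rw [Nat.card_prod, Nat.card_zmod]
          have hc' : (Nat.card {q : ZMod p × ZMod p // q.2 ^ 2 =
            q.1 ^ 3 + ((n 0 : ℤ) : ZMod p) * q.1 ^ 2 + (V1 j ((n 2 : ℤ) : ZMod p) - 1 -
            ((n 0 : ℤ) : ZMod p) - V0 j ((n 1 : ℤ) : ZMod p)) * q.1 + V0 j ((n 1 : ℤ) : ZMod p)} : ℝ) ≤
              p * p := by exact_mod_cast hc
          have : (p : ℝ) ≤ 36 := by exact_mod_cast h36.le
          have h1p : (1 : ℝ) ≤ p := by exact_mod_cast hp.one_lt.le
          nlinarith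
        · norm_num
      have hl0 := lf_pos j p n
      have he : (37 : ℝ) ≤ Real.exp 4 := by
        have h1 : (2.7 : ℝ) ≤ Real.exp 1 := by
          have := Real.exp_one_gt_d9
          linarith
        have h2 : Real.exp 4 = Real.exp 1 ^ 4 := by rw [← Real.exp_nat_mul]; norm_num
        rw [h2]
        calc (37 : ℝ) ≤ 2.7 ^ 4 := by norm_num
          _ ≤ _ := pow_le_pow_left₀ (by norm_num) h1 4
      rw [abs_le]
      constructor
      · rw [Real.le_log_iff_exp_le hl0, Real.exp_neg]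
        refine le_trans ?_ hlo
        rw [one_div]
        exact inv_anti₀ (by norm_num) (by linarith)
      · rw [Real.log_le_iff_le_exp hl0]
        linarith
    refine h4.trans ?_
    rw [le_div_iff₀ hs0]
    linarith

/-- the mean of the logarithm of the local factor -/
noncomputable def LL (j p : ℕ) : ℝ := (∑ n ∈ box (p : ℤ), Real.log (lf j p n)) / (p : ℝ) ^ 3

lemma card_box (p : ℕ) : ((box (p : ℤ)).card : ℝ) = (p : ℝ) ^ 3 := by
  unfold box
  rw [Fintype.card_piFinset, Finset.prod_const, Finset.card_univ, Fintype.card_fin, Int.card_Ico,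
    sub_zero, Int.toNat_natCast]
  push_cast
  rfl

lemma LL_le (j : ℕ) {p : ℕ} (hp : p.Prime) : |LL j p| ≤ 24 / Real.sqrt p := by
  have hp0 : (0 : ℝ) < p := by exact_mod_cast hp.pos
  unfold LL
  rw [abs_div, abs_of_pos (by positivity : (0 : ℝ) < (p : ℝ) ^ 3), div_le_iff₀ (by positivity)]
  refine (Finset.abs_sum_le_sum_abs _ _).trans ((Finset.sum_le_sum fun n _ => log_lf_le j hp n).trans
    (le_of_eq ?_))
  rw [Finset.sum_const, nsmul_eq_mul, card_box, mul_comm]

lemma log_expand (u : ℝ) (hu : |u| ≤ 1 / 2) :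
    |Real.log (1 + u) - Real.log 1 - 1 * u - (-1 / 2) * u ^ 2| ≤ 2 * |u| ^ 3 := by
  have h1 : |-u| < 1 := by rw [abs_neg]; linarith
  have h := Real.abs_log_sub_add_sum_range_le h1 2
  rw [Finset.sum_range_succ, Finset.sum_range_one, abs_neg, sub_neg_eq_add] at h
  have e : Real.log (1 + u) - Real.log 1 - 1 * u - (-1 / 2) * u ^ 2 =
      (-u) ^ (0 + 1) / (((0 : ℕ) : ℝ) + 1) + (-u) ^ (1 + 1) / (((1 : ℕ) : ℝ) + 1) + Real.log (1 + u) := by
    rw [Real.log_one]; push_cast; ring
  rw [e]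
  refine h.trans ?_
  rw [div_le_iff₀ (by linarith)]
  have h3 : 0 ≤ |u| ^ 3 := by positivity
  have e3 : |u| ^ (2 + 1) = |u| ^ 3 := by norm_num
  rw [e3]
  nlinarith [mul_nonneg h3 (by linarith : (0 : ℝ) ≤ 1 - 2 * |u|)]

theorem LL_est (j : ℕ) (hj : j ≤ 2) : ∃ K : ℝ, 0 ≤ K ∧ ∀ p : ℕ, p.Prime →
    |LL j p - ((j : ℝ) + 1 / 2) / p| ≤ K / (p * Real.sqrt p) := by
  refine ⟨2000, by norm_num, fun p hp => ?_⟩
  have hp0 : (0 : ℝ) < p := by exact_mod_cast hp.pos
  have hs0 : 0 < Real.sqrt p := Real.sqrt_pos.2 hp0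
  have hss : Real.sqrt p * Real.sqrt p = p := Real.mul_self_sqrt hp0.le
  have : Fact p.Prime := ⟨hp⟩
  by_cases h36 : 36 ≤ p
  · have h := local_gen (p := p) j hj Real.log 1 (-1 / 2) 2 (by norm_num) log_expand h36
    rw [Real.log_one, sub_zero] at h
    have e : ((1 + (j : ℝ)) * 1 + -1 / 2) = (j : ℝ) + 1 / 2 := by ring
    rw [e] at h
    refine h.trans ?_
    apply div_le_div_of_nonneg_right _ (by positivity)
    rw [abs_one, show |(-1 / 2 : ℝ)| = 1 / 2 by rw [abs_div]; norm_num]
    norm_num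
  · push Not at h36
    have hp36 : (p : ℝ) ≤ 36 := by exact_mod_cast h36.le
    have hj' : (j : ℝ) ≤ 2 := by exact_mod_cast hj
    have hj0 : (0 : ℝ) ≤ j := by positivity
    rw [le_div_iff₀ (by positivity)]
    have h1 : |LL j p - ((j : ℝ) + 1 / 2) / p| ≤ 24 / Real.sqrt p + (5 / 2) / p := by
      refine (abs_sub _ _).trans (add_le_add (LL_le j hp) ?_)
      rw [abs_div, abs_of_pos hp0, abs_of_nonneg (by positivity)]
      apply div_le_div_of_nonneg_right _ hp0.le
      linarith
    have hs6 : Real.sqrt p ≤ 6 := by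
      rw [Real.sqrt_le_left (by norm_num)]
      linarith
    calc _ ≤ (24 / Real.sqrt p + (5 / 2) / p) * (p * Real.sqrt p) :=
          mul_le_mul_of_nonneg_right h1 (by positivity)
      _ = 24 * p + 5 / 2 * Real.sqrt p := by field_simp
      _ ≤ 2000 := by linarith

end Pool.Agent.H678R3.BSD
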