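import Pool.Agent.H678R3.BSD.Loc2
import Pool.Agent.Helper256.KM.E1

/-! The moments of the products over the family. -/

set_option autoImplicit false
set_option maxHeartbeats 4000000

open Finset

namespace Pool.Agent.H678R3.BSD

lemma lf_pos (j p : ℕ) (n : Fin 3 → ℤ) : 0 < lf j p n := by
  classical
  unfold lf lfZ
  split_ifs with h
  · have hp : (0 : ℝ) < p := by exact_mod_cast h.1.pos
    positivity
  · norm_num

lemma EE_pos (j : ℕ) (k : ℝ) {p : ℕ} (hp : p.Prime) : 0 < EE j k p := by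
  unfold EE
  have hp0 : (0 : ℝ) < p := by exact_mod_cast hp.pos
  refine div_pos (Finset.sum_pos (fun n _ => Real.rpow_pos_of_pos (lf_pos j p n) k) ?_) (by positivity)
  refine ⟨fun _ => 0, ?_⟩
  rw [mem_box]
  exact fun i => ⟨le_rfl, by exact_mod_cast hp.pos⟩

lemma log_one_add (y : ℝ) (hy : |y| ≤ 1 / 2) : |Real.log (1 + y) - y| ≤ 2 * y ^ 2 := by
  have h1 : |-y| < 1 := by rw [abs_neg]; linarith
  have h := Real.abs_log_sub_add_sum_range_le h1 1
  simp only [Finset.sum_range_one, zero_add, pow_one, Nat.cast_zero, div_one, sub_neg_eq_add,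
    abs_neg] at h
  have e : |Real.log (1 + y) - y| = |-y + Real.log (1 + y)| := by congr 1; ring
  rw [e]
  refine h.trans ?_
  rw [div_le_iff₀ (by linarith)]
  have e2 : |y| ^ (1 + 1) = y ^ 2 := by rw [one_add_one_eq_two, sq_abs]
  rw [e2]
  nlinarith [sq_nonneg y]

theorem log_EE (j : ℕ) (hj : j ≤ 2) (k : ℝ) : ∃ K : ℝ, 0 ≤ K ∧ ∀ p : ℕ, p.Prime →
    |Real.log (EE j k p) - kap j k / p| ≤ K / (p * Real.sqrt p) := by
  obtain ⟨C3, hC3, hb⟩ := bound3 k
  set C : ℝ := 27 * C3 + 27 * (|k| + |k * (k - 1) / 2|) with hC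
  have hC0 : 0 ≤ C := by positivity
  set κ := kap j k with hκ
  set L : ℝ := |κ| + C with hL
  have hL0 : 0 ≤ L := by positivity
  set P1 : ℕ := max 36 (⌈2 * L⌉₊ + 1) with hP1
  set g : ℕ → ℝ := fun p => |Real.log (EE j k p) - κ / p| * (p * Real.sqrt p) with hg
  have hg0 : ∀ p, 0 ≤ g p := fun p => by positivity
  set K0 : ℝ := ∑ p ∈ Finset.range P1, g p with hK0
  have hK00 : 0 ≤ K0 := Finset.sum_nonneg fun p _ => hg0 p
  refine ⟨C + 2 * L ^ 2 + K0, by positivity, fun p hp => ?_⟩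
  have hp0 : (0 : ℝ) < p := by exact_mod_cast hp.pos
  have hs0 : 0 < Real.sqrt p := Real.sqrt_pos.2 hp0
  have hps : 0 < (p : ℝ) * Real.sqrt p := by positivity
  by_cases hlt : p < P1
  · rw [le_div_iff₀ hps]
    have h1 : g p ≤ K0 := Finset.single_le_sum (fun i _ => hg0 i) (Finset.mem_range.2 hlt)
    have h2 : 0 ≤ C + 2 * L ^ 2 := by positivity
    show g p ≤ _
    linarith
  · push Not at hlt
    have h36 : 36 ≤ p := (le_max_left _ _).trans hlt
    have hpL : 2 * L ≤ p := by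
      have h1 : ⌈2 * L⌉₊ + 1 ≤ p := (le_max_right _ _).trans hlt
      have h2 : 2 * L ≤ ⌈2 * L⌉₊ := Nat.le_ceil _
      have h3 : ((⌈2 * L⌉₊ + 1 : ℕ) : ℝ) ≤ p := by exact_mod_cast h1
      push_cast at h3
      linarith
    have : Fact p.Prime := ⟨hp⟩
    have hloc := local_one (p := p) j hj k C3 hC3 hb h36
    rw [← hC] at hloc
    set y := EE j k p - 1 with hy
    have hs1 : 1 ≤ Real.sqrt p := by
      rw [Real.one_le_sqrt]
      have : (36 : ℝ) ≤ p := by exact_mod_cast h36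
      linarith
    have hsp : Real.sqrt p ≤ p := by
      nlinarith [Real.mul_self_sqrt hp0.le]
    have hy1 : |y| ≤ L / p := by
      have e : y = (EE j k p - 1 - κ / p) + κ / p := by rw [hy]; ring
      rw [e]
      have h1 : C / (p * Real.sqrt p) ≤ C / p := by
        apply div_le_div_of_nonneg_left hC0 hp0
        nlinarith
      calc _ ≤ |EE j k p - 1 - κ / p| + |κ / p| := abs_add_le _ _
        _ ≤ C / p + |κ| / p := by
          refine add_le_add (hloc.trans h1) (le_of_eq ?_)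
          rw [abs_div, abs_of_pos hp0]
        _ = L / p := by rw [hL]; ring
    have hy2 : |y| ≤ 1 / 2 := by
      refine hy1.trans ?_
      rw [div_le_div_iff₀ hp0 (by norm_num)]
      linarith
    have hy3 := log_one_add y hy2
    have e1 : 1 + y = EE j k p := by rw [hy]; ring
    rw [e1] at hy3
    have hy4 : y ^ 2 ≤ L ^ 2 / (p * Real.sqrt p) := by
      have h1 : y ^ 2 ≤ (L / p) ^ 2 := by
        rw [← sq_abs y]
        exact pow_le_pow_left₀ (abs_nonneg _) hy1 2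
      refine h1.trans ?_
      rw [div_pow]
      apply div_le_div_of_nonneg_left (by positivity) hps
      nlinarith
    have e2 : Real.log (EE j k p) - κ / p = (Real.log (EE j k p) - y) + (EE j k p - 1 - κ / p) := by
      rw [hy]; ring
    rw [e2]
    calc _ ≤ |Real.log (EE j k p) - y| + |EE j k p - 1 - κ / p| := abs_add_le _ _
      _ ≤ 2 * (L ^ 2 / (p * Real.sqrt p)) + C / (p * Real.sqrt p) := add_le_add
          (hy3.trans (by linarith)) hloc
      _ = (C + 2 * L ^ 2) / (p * Real.sqrt p) := by ring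
      _ ≤ _ := by
          apply div_le_div_of_nonneg_right _ hps.le
          linarith

lemma sum_three_halves : ∃ B : ℝ, 0 ≤ B ∧ ∀ S : Finset ℕ, ∑ p ∈ S, 1 / ((p : ℝ) * Real.sqrt p) ≤ B := by
  have e : ∀ n : ℕ, 1 / ((n : ℝ) * Real.sqrt n) = 1 / (n : ℝ) ^ (3 / 2 : ℝ) := by
    intro n
    congr 1
    rw [Real.sqrt_eq_rpow, show (3 / 2 : ℝ) = 1 + 1 / 2 by norm_num,
      Real.rpow_add' (by positivity) (by norm_num), Real.rpow_one]
  have hs : Summable (fun n : ℕ => 1 / ((n : ℝ) * Real.sqrt n)) := by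
    simp_rw [e]
    exact Real.summable_one_div_nat_rpow.2 (by norm_num)
  exact ⟨∑' n : ℕ, 1 / ((n : ℝ) * Real.sqrt n), tsum_nonneg fun n => by positivity,
    fun S => hs.sum_le_tsum S fun n _ => by positivity⟩

theorem prod_EE (j : ℕ) (hj : j ≤ 2) (k : ℝ) : ∃ K : ℝ, ∀ x : ℕ, 2 ≤ x →
    |∑ p ∈ (Finset.Icc 1 x).filter Nat.Prime, Real.log (EE j k p) -
      kap j k * Real.log (Real.log x)| ≤ K := by
  obtain ⟨K, hK0, hK⟩ := log_EE j hj k
  obtain ⟨B, hB0, hB⟩ := sum_three_halves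
  obtain ⟨C1, hC10, hC1⟩ := Pool.Agent.Helper256.KM.mertens_upper
  obtain ⟨C2, hC20, hC2⟩ := Pool.Agent.Helper256.KM.mertens_lower
  set κ := kap j k with hκ
  refine ⟨K * B + |κ| * (C1 + C2), fun x hx => ?_⟩
  have hx' : (2 : ℝ) ≤ x := by exact_mod_cast hx
  have h1 := hC1 x hx'
  have h2 := hC2 x hx'
  rw [Nat.floor_natCast] at h1 h2
  set S := (Finset.Icc 1 x).filter Nat.Prime with hS
  have e : ∑ p ∈ S, Real.log (EE j k p) - κ * Real.log (Real.log x) =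
      ∑ p ∈ S, (Real.log (EE j k p) - κ / p) + κ * (∑ p ∈ S, (1 : ℝ) / p - Real.log (Real.log x)) := by
    rw [Finset.sum_sub_distrib, mul_sub, Finset.mul_sum]
    have : ∑ p ∈ S, κ / (p : ℝ) = ∑ p ∈ S, κ * (1 / (p : ℝ)) :=
      Finset.sum_congr rfl fun p _ => by ring
    rw [this]
    ring
  rw [e]
  have h3 : |∑ p ∈ S, (Real.log (EE j k p) - κ / p)| ≤ K * B := by
    refine (Finset.abs_sum_le_sum_abs _ _).trans ?_
    calc _ ≤ ∑ p ∈ S, K * (1 / ((p : ℝ) * Real.sqrt p)) := Finset.sum_le_sum fun p hp => by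
          rw [mul_one_div]
          exact hK p (Finset.mem_filter.1 hp).2
      _ = K * ∑ p ∈ S, (1 / ((p : ℝ) * Real.sqrt p)) := by rw [Finset.mul_sum]
      _ ≤ K * B := mul_le_mul_of_nonneg_left (hB S) hK0
  have h4 : |∑ p ∈ S, (1 : ℝ) / p - Real.log (Real.log x)| ≤ C1 + C2 := by
    rw [abs_le]
    constructor <;> linarith
  refine (abs_add_le _ _).trans (add_le_add h3 ?_)
  rw [abs_mul]
  exact mul_le_mul_of_nonneg_left h4 (abs_nonneg _)

lemma primorial_eq (x : ℕ) : primorial x = ∏ p ∈ (Finset.Icc 1 x).filter Nat.Prime, p := by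
  unfold primorial
  refine Finset.prod_congr ?_ fun _ _ => rfl
  ext p
  simp only [Finset.mem_filter, Finset.mem_range, Finset.mem_Icc]
  constructor
  · rintro ⟨h1, h2⟩; exact ⟨⟨h2.one_lt.le, by omega⟩, h2⟩
  · rintro ⟨⟨h1, h2⟩, h3⟩; exact ⟨by omega, h3⟩

lemma FP_pos (j : ℕ) (n : Fin 3 → ℤ) (x : ℕ) : 0 < FP j n x := by
  rw [FP_eq]
  exact Finset.prod_pos fun p _ => lf_pos j p n

/-- the moments -/
theorem moments (j : ℕ) (hj : j ≤ 2) (k : ℝ) : ∃ c C : ℝ, 0 < c ∧ 0 < C ∧ ∀ x : ℕ, 2 ≤ x →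
    ∀ H : ℕ, primorial x ≤ H →
      c * Real.log x ^ kap j k * (H : ℝ) ^ 3 ≤ ∑ n ∈ boxH H, FP j n x ^ k ∧
      ∑ n ∈ boxH H, FP j n x ^ k ≤ C * Real.log x ^ kap j k * (H : ℝ) ^ 3 := by
  obtain ⟨K, hK⟩ := prod_EE j hj k
  refine ⟨Real.exp (-K) / 8, 8 * Real.exp K, by positivity, by positivity, fun x hx H hH => ?_⟩
  have hx' : (2 : ℝ) ≤ x := by exact_mod_cast hx
  have hlog : 0 < Real.log x := Real.log_pos (by linarith)
  set S := (Finset.Icc 1 x).filter Nat.Prime with hS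
  have hSp : ∀ p ∈ S, p.Prime := fun p hp => (Finset.mem_filter.1 hp).2
  have hM : primorial x = ∏ p ∈ S, p := primorial_eq x
  set M : ℕ := ∏ p ∈ S, p with hMdef
  have hM0 : 0 < M := Finset.prod_pos fun p hp => (hSp p hp).pos
  have hM0r : (0 : ℝ) < M := by exact_mod_cast hM0
  rw [hM] at hH
  have hH0r : (0 : ℝ) < H := by exact_mod_cast lt_of_lt_of_le hM0 hH
  have hcrt := crt_prod (fun p n => lf j p n ^ k) S hSp (fun p _ n n' h => by
    show lf j p n ^ k = lf j p n' ^ k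
    rw [lf_per j p n n' h])
  have hFk : ∀ n, FP j n x ^ k = ∏ p ∈ S, lf j p n ^ k := by
    intro n
    rw [FP_eq, ← Real.finsetProd_rpow _ _ fun p _ => (lf_pos j p n).le]
  have hcomp := box_compare (g := fun n => ∏ p ∈ S, lf j p n ^ k) (M := (M : ℤ)) (H := (H : ℤ))
    (by exact_mod_cast hM0) (by exact_mod_cast hH) hcrt.1
    (fun n => Finset.prod_nonneg fun p _ => Real.rpow_nonneg (lf_pos j p n).le k)
  rw [hcrt.2] at hcomp
  simp_rw [hFk]
  have hEprod : ∏ p ∈ S, ∑ n ∈ box (p : ℤ), lf j p n ^ k = (M : ℝ) ^ 3 * ∏ p ∈ S, EE j k p := by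
    rw [hMdef]
    push_cast
    rw [← Finset.prod_pow, ← Finset.prod_mul_distrib]
    refine Finset.prod_congr rfl fun p hp => ?_
    have hp0 : (0 : ℝ) < p := by exact_mod_cast (hSp p hp).pos
    unfold EE
    field_simp
  rw [hEprod] at hcomp
  set E := ∏ p ∈ S, EE j k p with hE
  have hE0 : 0 < E := Finset.prod_pos fun p hp => EE_pos j k (hSp p hp)
  have hlogE : Real.log E = ∑ p ∈ S, Real.log (EE j k p) := by
    rw [hE, Real.log_prod]
    exact fun p hp => (EE_pos j k (hSp p hp)).ne'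
  have hKx := abs_le.1 (hK x hx)
  rw [← hlogE] at hKx
  have e1 : Real.log x ^ kap j k = Real.exp (kap j k * Real.log (Real.log x)) := by
    rw [Real.rpow_def_of_pos hlog, mul_comm]
  have hlo : Real.exp (-K) * Real.log x ^ kap j k ≤ E := by
    rw [e1, ← Real.exp_add, ← Real.exp_log hE0]
    apply Real.exp_le_exp.2
    linarith [hKx.1]
  have hhi : E ≤ Real.exp K * Real.log x ^ kap j k := by
    rw [e1, ← Real.exp_add, ← Real.exp_log hE0]
    apply Real.exp_le_exp.2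
    linarith [hKx.2]
  push_cast at hcomp
  have hH3 : (0 : ℝ) < (H : ℝ) ^ 3 := by positivity
  constructor
  · refine le_trans ?_ hcomp.1
    have e2 : ((H : ℝ) / M / 2) ^ 3 * ((M : ℝ) ^ 3 * E) = E / 8 * (H : ℝ) ^ 3 := by
      field_simp
      ring
    rw [e2]
    apply mul_le_mul_of_nonneg_right _ hH3.le
    linarith
  · refine le_trans hcomp.2 ?_
    have e2 : (2 * ((H : ℝ) / M)) ^ 3 * ((M : ℝ) ^ 3 * E) = 8 * E * (H : ℝ) ^ 3 := by
      field_simp
      ring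
    rw [e2]
    apply mul_le_mul_of_nonneg_right _ hH3.le
    linarith

open Classical in
/-- concentration -/
theorem concentration (j : ℕ) (hj : j ≤ 2) (ε : ℝ) (hε : 0 < ε) : ∃ C : ℝ, ∀ x : ℕ, 2 ≤ x →
    ∀ H : ℕ, primorial x ≤ H →
      (((boxH H).filter fun n => ¬ (Real.log x ^ ((j : ℝ) + 1 / 2 - ε) ≤ FP j n x ∧
        FP j n x ≤ Real.log x ^ ((j : ℝ) + 1 / 2 + ε))).card : ℝ) ≤
        C * Real.log x ^ (-(ε ^ 2 / 2)) * (H : ℝ) ^ 3 := by
  obtain ⟨_, C1, _, hC1, h1⟩ := moments j hj ε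
  obtain ⟨_, C2, _, hC2, h2⟩ := moments j hj (-ε)
  refine ⟨C1 + C2, fun x hx H hH => ?_⟩
  have hx' : (2 : ℝ) ≤ x := by exact_mod_cast hx
  have hlog : 0 < Real.log x := Real.log_pos (by linarith)
  set ℓ := Real.log x with hℓ
  have hu := (h1 x hx H hH).2
  have hl := (h2 x hx H hH).2
  have hpt : ∀ n ∈ boxH H, (if ¬ (ℓ ^ ((j : ℝ) + 1 / 2 - ε) ≤ FP j n x ∧
      FP j n x ≤ ℓ ^ ((j : ℝ) + 1 / 2 + ε)) then (1 : ℝ) else 0) ≤
      ℓ ^ (-(ε * ((j : ℝ) + 1 / 2 + ε))) * FP j n x ^ ε +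
      ℓ ^ (ε * ((j : ℝ) + 1 / 2 - ε)) * FP j n x ^ (-ε) := by
    intro n _
    have hF := FP_pos j n x
    have p1 : 0 < ℓ ^ (-(ε * ((j : ℝ) + 1 / 2 + ε))) * FP j n x ^ ε :=
      mul_pos (Real.rpow_pos_of_pos hlog _) (Real.rpow_pos_of_pos hF _)
    have p2 : 0 < ℓ ^ (ε * ((j : ℝ) + 1 / 2 - ε)) * FP j n x ^ (-ε) :=
      mul_pos (Real.rpow_pos_of_pos hlog _) (Real.rpow_pos_of_pos hF _)
    by_cases h : ¬ (ℓ ^ ((j : ℝ) + 1 / 2 - ε) ≤ FP j n x ∧ FP j n x ≤ ℓ ^ ((j : ℝ) + 1 / 2 + ε))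
    · rw [if_pos h]
      rw [not_and_or, not_le, not_le] at h
      rcases h with h | h
      · have q1 : 1 ≤ ℓ ^ (ε * ((j : ℝ) + 1 / 2 - ε)) * FP j n x ^ (-ε) := by
          have e1 : ℓ ^ (ε * ((j : ℝ) + 1 / 2 - ε)) = (ℓ ^ ((j : ℝ) + 1 / 2 - ε)) ^ ε := by
            rw [← Real.rpow_mul hlog.le, mul_comm]
          rw [e1, Real.rpow_neg hF.le, ← div_eq_mul_inv, one_le_div (Real.rpow_pos_of_pos hF _)]
          exact Real.rpow_le_rpow hF.le h.le hε.le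
        linarith
      · have q1 : 1 ≤ ℓ ^ (-(ε * ((j : ℝ) + 1 / 2 + ε))) * FP j n x ^ ε := by
          have e1 : ℓ ^ (-(ε * ((j : ℝ) + 1 / 2 + ε))) = ((ℓ ^ ((j : ℝ) + 1 / 2 + ε)) ^ ε)⁻¹ := by
            rw [Real.rpow_neg hlog.le, ← Real.rpow_mul hlog.le, mul_comm]
          rw [e1, mul_comm, ← div_eq_mul_inv,
            one_le_div (Real.rpow_pos_of_pos (Real.rpow_pos_of_pos hlog _) _)]
          exact Real.rpow_le_rpow (Real.rpow_pos_of_pos hlog _).le h.le hε.le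
        linarith
    · rw [if_neg h]
      linarith
  rw [Finset.card_filter]
  push_cast
  refine (Finset.sum_le_sum hpt).trans ?_
  rw [Finset.sum_add_distrib, ← Finset.mul_sum, ← Finset.mul_sum]
  have g1 : ℓ ^ (-(ε * ((j : ℝ) + 1 / 2 + ε))) * ∑ n ∈ boxH H, FP j n x ^ ε ≤
      C1 * ℓ ^ (-(ε ^ 2 / 2)) * (H : ℝ) ^ 3 := by
    calc _ ≤ ℓ ^ (-(ε * ((j : ℝ) + 1 / 2 + ε))) * (C1 * ℓ ^ kap j ε * (H : ℝ) ^ 3) :=
          mul_le_mul_of_nonneg_left hu (Real.rpow_pos_of_pos hlog _).le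
      _ = C1 * (ℓ ^ (-(ε * ((j : ℝ) + 1 / 2 + ε))) * ℓ ^ kap j ε) * (H : ℝ) ^ 3 := by ring
      _ = _ := by
        rw [← Real.rpow_add hlog]
        congr 3
        unfold kap
        ring
  have g2 : ℓ ^ (ε * ((j : ℝ) + 1 / 2 - ε)) * ∑ n ∈ boxH H, FP j n x ^ (-ε) ≤
      C2 * ℓ ^ (-(ε ^ 2 / 2)) * (H : ℝ) ^ 3 := by
    calc _ ≤ ℓ ^ (ε * ((j : ℝ) + 1 / 2 - ε)) * (C2 * ℓ ^ kap j (-ε) * (H : ℝ) ^ 3) :=
          mul_le_mul_of_nonneg_left hl (Real.rpow_pos_of_pos hlog _).le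
      _ = C2 * (ℓ ^ (ε * ((j : ℝ) + 1 / 2 - ε)) * ℓ ^ kap j (-ε)) * (H : ℝ) ^ 3 := by ring
      _ = _ := by
        rw [← Real.rpow_add hlog]
        congr 3
        unfold kap
        ring
  calc _ ≤ _ := add_le_add g1 g2
    _ = _ := by ring

end Pool.Agent.H678R3.BSD
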