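import Pool.Agent.H678R3.BSD.NormW

/-! The normal order for all curves ordered by height. -/

set_option autoImplicit false
set_option maxHeartbeats 4000000

open Finset

namespace Pool.Agent.H678R3.BSD.W2

/-- the set `𝓕` of the problem: one pair `(A, B)` for each isomorphism class -/
def InF (A B : ℤ) : Prop :=
  4 * A ^ 3 + 27 * B ^ 2 ≠ 0 ∧ ∀ p : ℕ, p.Prime → ¬ ((p : ℤ) ^ 4 ∣ A ∧ (p : ℤ) ^ 6 ∣ B)

/-- the height -/
def Ht (A B : ℤ) : ℤ := max (4 * |A| ^ 3) (27 * B ^ 2)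

/-- the normal order for the curves ordered by height -/
theorem by_height : ∃ C : ℝ, 0 < C ∧ ∀ δ : ℝ, 0 < δ → ∀ x : ℕ, 16 ≤ x → ∀ X : ℝ, (x : ℝ) ^ 9 ≤ X →
    (({q : ℤ × ℤ | InF q.1 q.2 ∧ (Ht q.1 q.2 : ℝ) ≤ X ∧
      ¬ (Real.log x ^ (1 / 2 - δ) ≤ EP q.1 q.2 x ∧ EP q.1 q.2 x ≤ Real.log x ^ (1 / 2 + δ))}.ncard
        : ℕ) : ℝ) ≤ C / (δ ^ 2 * Real.log (Real.log x)) * X ^ (5 / 6 : ℝ) := by
  classical
  obtain ⟨C, hC0, hC⟩ := normal_order 0 (by norm_num)
  refine ⟨9 * C, by positivity, fun δ hδ x hx X hX => ?_⟩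
  have h16 : (16 : ℝ) ≤ x := by exact_mod_cast hx
  have hx1 : (1 : ℝ) ≤ x := by linarith
  have hx0 : (0 : ℝ) ≤ x := by linarith
  have hlog : 0 < Real.log x := Real.log_pos (by linarith)
  have hll : 0 < Real.log (Real.log x) := by
    have h1 : Real.log 16 ≤ Real.log x := Real.log_le_log (by norm_num) h16
    have h2 : Real.log 16 = 4 * Real.log 2 := by
      rw [show (16 : ℝ) = 2 ^ 4 by norm_num, Real.log_pow]; norm_num
    have h3 := Real.log_two_gt_d9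
    exact Real.log_pos (by linarith)
  have hX1 : 1 ≤ X := (one_le_pow₀ hx1).trans hX
  have hX0 : 0 ≤ X := by linarith
  set u : ℝ := X ^ (1 / 3 : ℝ) with hu
  set v : ℝ := X ^ (1 / 2 : ℝ) with hv
  have hu1 : 1 ≤ u := Real.one_le_rpow hX1 (by norm_num)
  have hv1 : 1 ≤ v := Real.one_le_rpow hX1 (by norm_num)
  have hxu : (x : ℝ) ^ 3 ≤ u := by
    have h1 : ((x : ℝ) ^ 9) ^ (1 / 3 : ℝ) ≤ X ^ (1 / 3 : ℝ) :=
      Real.rpow_le_rpow (by positivity) hX (by norm_num)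
    have h2 : ((x : ℝ) ^ 9) ^ (1 / 3 : ℝ) = (x : ℝ) ^ 3 := by
      rw [← Real.rpow_natCast (x : ℝ) 9, ← Real.rpow_mul hx0, ← Real.rpow_natCast (x : ℝ) 3]
      norm_num
    rw [h2] at h1
    exact h1
  have huv : u ≤ v := Real.rpow_le_rpow_of_exponent_le hX1 (by norm_num)
  set U : ℤ := ⌊u⌋ with hU
  set V : ℤ := ⌊v⌋ with hV
  have hUx : (x : ℤ) ^ 3 ≤ U := by
    rw [hU, Int.le_floor]
    exact_mod_cast hxu
  have hVx : (x : ℤ) ^ 3 ≤ V := by
    rw [hV, Int.le_floor]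
    exact_mod_cast hxu.trans huv
  have hU0 : 0 ≤ U := le_trans (by positivity) hUx
  have hV0 : 0 ≤ V := le_trans (by positivity) hVx
  have hUu : (U : ℝ) ≤ u := Int.floor_le u
  have hVv : (V : ℝ) ≤ v := Int.floor_le v
  have hmain := hC δ hδ x hx ![-U - 1, -V - 1] ![U, V] (by
    intro i
    fin_cases i
    · show (x : ℤ) ^ 3 ≤ U - (-U - 1)
      linarith
    · show (x : ℤ) ^ 3 ≤ V - (-V - 1)
      linarith)
  have hbound : ((((![U, V] : Fin 2 → ℤ) 0 - (![-U - 1, -V - 1] : Fin 2 → ℤ) 0 : ℤ) : ℝ) *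
      (((![U, V] : Fin 2 → ℤ) 1 - (![-U - 1, -V - 1] : Fin 2 → ℤ) 1 : ℤ) : ℝ)) ≤ 9 * X ^ (5 / 6 : ℝ) := by
    have e1 : (((![U, V] : Fin 2 → ℤ) 0 - (![-U - 1, -V - 1] : Fin 2 → ℤ) 0 : ℤ) : ℝ) = 2 * U + 1 := by
      show ((U - (-U - 1) : ℤ) : ℝ) = 2 * U + 1
      push_cast; ring
    have e2 : (((![U, V] : Fin 2 → ℤ) 1 - (![-U - 1, -V - 1] : Fin 2 → ℤ) 1 : ℤ) : ℝ) = 2 * V + 1 := by
      show ((V - (-V - 1) : ℤ) : ℝ) = 2 * V + 1
      push_cast; ring
    rw [e1, e2]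
    have hU0r : (0 : ℝ) ≤ U := by exact_mod_cast hU0
    have hV0r : (0 : ℝ) ≤ V := by exact_mod_cast hV0
    have e3 : u * v = X ^ (5 / 6 : ℝ) := by
      rw [hu, hv, ← Real.rpow_add (by linarith)]
      norm_num
    calc (2 * (U : ℝ) + 1) * (2 * V + 1) ≤ (3 * u) * (3 * v) :=
          mul_le_mul (by linarith) (by linarith) (by linarith) (by linarith)
      _ = 9 * (u * v) := by ring
      _ = _ := by rw [e3]
  have hsub : ({q : ℤ × ℤ | InF q.1 q.2 ∧ (Ht q.1 q.2 : ℝ) ≤ X ∧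
      ¬ (Real.log x ^ (1 / 2 - δ) ≤ EP q.1 q.2 x ∧ EP q.1 q.2 x ≤ Real.log x ^ (1 / 2 + δ))}.ncard) ≤
      (((boxS ![-U - 1, -V - 1] ![U, V]).filter fun n =>
        ¬ (Real.log x ^ (((0 : ℕ) : ℝ) + 1 / 2 - δ) ≤ FP 0 n x ∧
        FP 0 n x ≤ Real.log x ^ (((0 : ℕ) : ℝ) + 1 / 2 + δ))).card) := by
    rw [← Set.ncard_coe_finset]
    refine Set.ncard_le_ncard_of_injOn (fun q => ![q.1, q.2]) ?_ ?_ (Finset.finite_toSet _)
    · rintro ⟨A, B⟩ ⟨_, hht, hex⟩
      rw [Finset.mem_coe, Finset.mem_filter]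
      refine ⟨?_, ?_⟩
      · simp only at hht
        have h1 : ((4 * |A| ^ 3 : ℤ) : ℝ) ≤ X := le_trans (by exact_mod_cast le_max_left _ _) hht
        have h2 : ((27 * B ^ 2 : ℤ) : ℝ) ≤ X := le_trans (by exact_mod_cast le_max_right _ _) hht
        push_cast at h1 h2
        have hA : |(A : ℝ)| ≤ u := by
          have h3 : |(A : ℝ)| ^ 3 ≤ X := by
            have : 0 ≤ |(A : ℝ)| ^ 3 := by positivity
            linarith
          have h4 : (|(A : ℝ)| ^ 3) ^ (1 / 3 : ℝ) ≤ X ^ (1 / 3 : ℝ) :=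
            Real.rpow_le_rpow (by positivity) h3 (by norm_num)
          have h5 : (|(A : ℝ)| ^ 3) ^ (1 / 3 : ℝ) = |(A : ℝ)| := by
            rw [← Real.rpow_natCast (|(A : ℝ)|) 3, ← Real.rpow_mul (abs_nonneg _)]
            norm_num
          rw [h5] at h4
          exact h4
        have hB : |(B : ℝ)| ≤ v := by
          have h3 : |(B : ℝ)| ^ 2 ≤ X := by
            rw [sq_abs]
            nlinarith [sq_nonneg (B : ℝ)]
          have h4 : (|(B : ℝ)| ^ 2) ^ (1 / 2 : ℝ) ≤ X ^ (1 / 2 : ℝ) :=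
            Real.rpow_le_rpow (by positivity) h3 (by norm_num)
          have h5 : (|(B : ℝ)| ^ 2) ^ (1 / 2 : ℝ) = |(B : ℝ)| := by
            rw [← Real.rpow_natCast (|(B : ℝ)|) 2, ← Real.rpow_mul (abs_nonneg _)]
            norm_num
          rw [h5] at h4
          exact h4
        have hAU : |A| ≤ U := by
          rw [hU, Int.le_floor]
          push_cast
          exact hA
        have hBV : |B| ≤ V := by
          rw [hV, Int.le_floor]
          push_cast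
          exact hB
        have hA2 := abs_le.1 hAU
        have hB2 := abs_le.1 hBV
        unfold boxS
        rw [Fintype.mem_piFinset]
        intro i
        fin_cases i
        · show A ∈ Finset.Ioc (-U - 1) U
          rw [Finset.mem_Ioc]
          constructor <;> linarith [hA2.1, hA2.2]
        · show B ∈ Finset.Ioc (-V - 1) V
          rw [Finset.mem_Ioc]
          constructor <;> linarith [hB2.1, hB2.2]
      · have e : FP 0 ![A, B] x = EP A B x := rfl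
        rw [e, Nat.cast_zero, zero_add]
        exact hex
    · rintro ⟨A, B⟩ _ ⟨A', B'⟩ _ h
      have h0 := congrFun h 0
      have h1 := congrFun h 1
      exact Prod.ext h0 h1
  have hcast := (Nat.cast_le (α := ℝ)).2 hsub
  refine hcast.trans (hmain.trans ?_)
  calc _ ≤ C / (δ ^ 2 * Real.log (Real.log x)) * (9 * X ^ (5 / 6 : ℝ)) :=
        mul_le_mul_of_nonneg_left hbound (by positivity)
    _ = _ := by ring

end Pool.Agent.H678R3.BSD.W2
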