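import Pool.Agent.H678R3.BSD.Height

/-! A lower bound for the number of curves of bounded height, and the proportion form. -/

set_option autoImplicit false
set_option maxHeartbeats 4000000

open Finset

namespace Pool.Agent.H678R3.BSD.W2

lemma sum_fourth (U : ℕ) (hU : 1 ≤ U) :
    ∑ n ∈ Finset.Icc 2 U, (1 : ℝ) / (n : ℝ) ^ 4 ≤ (1 / 4) * (1 - 1 / U) := by
  induction U, hU using Nat.le_induction with
  | base => simp
  | succ U hU ih =>
    rw [Finset.sum_Icc_succ_top (by omega)]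
    have hU1 : (1 : ℝ) ≤ U := by exact_mod_cast hU
    have h : (1 : ℝ) / ((U + 1 : ℕ) : ℝ) ^ 4 ≤ (1 / 4) * (1 / U - 1 / ((U + 1 : ℕ) : ℝ)) := by
      push_cast
      have e : (1 / 4 : ℝ) * (1 / U - 1 / ((U : ℝ) + 1)) = 1 / (4 * U * (U + 1)) := by
        field_simp
        ring
      rw [e]
      apply one_div_le_one_div_of_le (by positivity)
      have : ((U : ℝ) + 1) ^ 4 = (U + 1) * (U + 1) ^ 3 := by ring
      rw [this]
      nlinarith [sq_nonneg ((U : ℝ)), mul_nonneg (by linarith : (0 : ℝ) ≤ U) (sq_nonneg (U : ℝ))]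
    linarith

open Classical in
lemma free_count (U : ℕ) : (3 / 4 : ℝ) * U ≤
    (((Finset.Ioc 0 U).filter fun a => ∀ n : ℕ, 2 ≤ n → ¬ n ^ 4 ∣ a).card : ℝ) := by
  rcases Nat.eq_zero_or_pos U with h0 | h0
  · subst h0; simp
  have h1 := Finset.card_filter_add_card_filter_not (s := Finset.Ioc 0 U)
    (fun a => ∀ n : ℕ, 2 ≤ n → ¬ n ^ 4 ∣ a)
  rw [Nat.card_Ioc, Nat.sub_zero] at h1
  have h2 : (((Finset.Ioc 0 U).filter fun a => ¬ ∀ n : ℕ, 2 ≤ n → ¬ n ^ 4 ∣ a).card : ℝ) ≤ U / 4 := by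
    have hsub : ((Finset.Ioc 0 U).filter fun a => ¬ ∀ n : ℕ, 2 ≤ n → ¬ n ^ 4 ∣ a) ⊆
        (Finset.Icc 2 U).biUnion fun n => (Finset.Ioc 0 U).filter fun a => n ^ 4 ∣ a := by
      intro a ha
      rw [Finset.mem_filter] at ha
      obtain ⟨haU, hex⟩ := ha
      push Not at hex
      obtain ⟨n, hn2, hn⟩ := hex
      rw [Finset.mem_biUnion]
      have haU' := Finset.mem_Ioc.1 haU
      refine ⟨n, Finset.mem_Icc.2 ⟨hn2, ?_⟩, Finset.mem_filter.2 ⟨haU, hn⟩⟩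
      have h3 : n ^ 4 ≤ a := Nat.le_of_dvd haU'.1 hn
      have h4 : n ≤ n ^ 4 := Nat.le_self_pow (by norm_num) n
      omega
    have h3 : (((Finset.Ioc 0 U).filter fun a => ¬ ∀ n : ℕ, 2 ≤ n → ¬ n ^ 4 ∣ a).card : ℝ) ≤
        ∑ n ∈ Finset.Icc 2 U, ((U / n ^ 4 : ℕ) : ℝ) := by
      have h4 := (Finset.card_le_card hsub).trans Finset.card_biUnion_le
      have h5 : ∀ n ∈ Finset.Icc 2 U, ((Finset.Ioc 0 U).filter fun a => n ^ 4 ∣ a).card = U / n ^ 4 :=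
        fun n _ => Nat.Ioc_filter_dvd_card_eq_div U (n ^ 4)
      rw [Finset.sum_congr rfl h5] at h4
      exact_mod_cast h4
    refine h3.trans ?_
    have hU1 : (1 : ℝ) ≤ U := by exact_mod_cast h0
    calc ∑ n ∈ Finset.Icc 2 U, ((U / n ^ 4 : ℕ) : ℝ) ≤ ∑ n ∈ Finset.Icc 2 U, (U : ℝ) * (1 / (n : ℝ) ^ 4) := by
          refine Finset.sum_le_sum fun n _ => ?_
          have := @Nat.cast_div_le ℝ _ _ _ U (n ^ 4)
          refine this.trans (le_of_eq ?_)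
          push_cast
          ring
      _ = U * ∑ n ∈ Finset.Icc 2 U, (1 : ℝ) / (n : ℝ) ^ 4 := by rw [Finset.mul_sum]
      _ ≤ U * ((1 / 4) * (1 - 1 / U)) := mul_le_mul_of_nonneg_left (sum_fourth U h0) (by positivity)
      _ = (U - 1) / 4 := by field_simp
      _ ≤ U / 4 := by linarith
  have h5 : (((Finset.Ioc 0 U).filter fun a => ∀ n : ℕ, 2 ≤ n → ¬ n ^ 4 ∣ a).card : ℝ) +
      (((Finset.Ioc 0 U).filter fun a => ¬ ∀ n : ℕ, 2 ≤ n → ¬ n ^ 4 ∣ a).card : ℝ) = U := by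
    exact_mod_cast h1
  linarith

/-- the curves of height at most `X` -/
def FX (X : ℝ) : Set (ℤ × ℤ) := {q | InF q.1 q.2 ∧ (Ht q.1 q.2 : ℝ) ≤ X}

lemma FX_finite (X : ℝ) (hX0 : 0 ≤ X) : (FX X).Finite := by
  refine ((Set.finite_Icc (-⌊X⌋) ⌊X⌋).prod (Set.finite_Icc (-⌊X⌋) ⌊X⌋)).subset ?_
  rintro ⟨A, B⟩ ⟨_, hht⟩
  simp only at hht
  have hfl : Ht A B ≤ ⌊X⌋ := Int.le_floor.2 hht
  have h1 : 4 * |A| ^ 3 ≤ ⌊X⌋ := le_trans (le_max_left _ _) hfl
  have h2 : 27 * B ^ 2 ≤ ⌊X⌋ := le_trans (le_max_right _ _) hfl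
  have hA : |A| ≤ |A| ^ 3 := by
    rcases eq_or_ne A 0 with h | h
    · subst h; simp
    · have : 1 ≤ |A| := Int.one_le_abs h
      nlinarith [sq_nonneg |A|, mul_nonneg (abs_nonneg A) (sq_nonneg (|A| - 1))]
  have hB : |B| ≤ B ^ 2 := by
    rcases eq_or_ne B 0 with h | h
    · subst h; simp
    · have : 1 ≤ |B| := Int.one_le_abs h
      rw [← sq_abs]
      nlinarith
  have hA0 : 0 ≤ |A| ^ 3 := by positivity
  have hB0 : 0 ≤ B ^ 2 := sq_nonneg B
  have hA1 : |A| ≤ ⌊X⌋ := by linarith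
  have hB1 : |B| ≤ ⌊X⌋ := by linarith
  exact ⟨⟨(abs_le.1 hA1).1, (abs_le.1 hA1).2⟩, ⟨(abs_le.1 hB1).1, (abs_le.1 hB1).2⟩⟩

/-- lower bound for the number of curves -/
theorem FX_lower (X : ℝ) (hX : 8 ≤ X) : X ^ (5 / 6 : ℝ) / 32 ≤ ((FX X).ncard : ℝ) := by
  classical
  have hX0 : 0 ≤ X := by linarith
  have hX1 : 1 ≤ X := by linarith
  set u : ℝ := X ^ (1 / 3 : ℝ) with hu
  set v : ℝ := X ^ (1 / 2 : ℝ) with hv
  have hu0 : 0 ≤ u := Real.rpow_nonneg hX0 _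
  have hv0 : 0 ≤ v := Real.rpow_nonneg hX0 _
  have hu3 : u ^ 3 = X := by
    rw [hu, ← Real.rpow_natCast, ← Real.rpow_mul hX0]
    norm_num
  have hv2 : v ^ 2 = X := by
    rw [hv, ← Real.rpow_natCast, ← Real.rpow_mul hX0]
    norm_num
  have hu2 : 2 ≤ u := by
    by_contra h
    push Not at h
    have : u ^ 3 < 2 ^ 3 := pow_lt_pow_left₀ h hu0 (by norm_num)
    rw [hu3] at this
    linarith
  set U : ℕ := ⌊u / 2⌋₊ with hU
  set V : ℕ := ⌊v / 6⌋₊ with hV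
  have hUle : (U : ℝ) ≤ u / 2 := Nat.floor_le (by positivity)
  have hVle : (V : ℝ) ≤ v / 6 := Nat.floor_le (by positivity)
  have hUlt : u / 2 < U + 1 := Nat.lt_floor_add_one _
  have hVlt : v / 6 < V + 1 := Nat.lt_floor_add_one _
  have hU1 : (1 : ℝ) ≤ U := by
    have : 1 ≤ U := Nat.le_floor (by push_cast; linarith)
    exact_mod_cast this
  have hUge : u / 4 ≤ U := by linarith
  set T := ((Finset.Ioc 0 U).filter fun a => ∀ n : ℕ, 2 ≤ n → ¬ n ^ 4 ∣ a) ×ˢ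
    (Finset.Icc (-(V : ℤ)) V) with hT
  have hTcard : (T.card : ℝ) = (((Finset.Ioc 0 U).filter fun a => ∀ n : ℕ, 2 ≤ n →
      ¬ n ^ 4 ∣ a).card : ℝ) * (2 * V + 1) := by
    rw [hT, Finset.card_product, Int.card_Icc]
    have : ((V : ℤ) + 1 - -(V : ℤ)).toNat = 2 * V + 1 := by omega
    rw [this]
    push_cast
    ring
  have hle : T.card ≤ (FX X).ncard := by
    rw [← Set.ncard_coe_finset]
    refine Set.ncard_le_ncard_of_injOn (fun q => ((q.1 : ℤ), q.2)) ?_ ?_ (FX_finite X hX0)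
    · rintro ⟨a, b⟩ hab
      rw [Finset.mem_coe, hT, Finset.mem_product, Finset.mem_filter, Finset.mem_Ioc, Finset.mem_Icc] at hab
      obtain ⟨⟨⟨ha0, haU⟩, hfree⟩, hb1, hb2⟩ := hab
      simp only at ha0 haU hfree hb1 hb2
      refine ⟨⟨?_, ?_⟩, ?_⟩
      · have h1 : (0 : ℤ) < (a : ℤ) := by exact_mod_cast ha0
        have h2 : 0 < (a : ℤ) ^ 3 := by positivity
        show 4 * (a : ℤ) ^ 3 + 27 * b ^ 2 ≠ 0
        nlinarith [sq_nonneg b]
      · intro p hp hdiv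
        apply hfree p hp.two_le
        have h1 : ((p ^ 4 : ℕ) : ℤ) ∣ (a : ℤ) := by
          push_cast
          exact hdiv.1
        exact Int.natCast_dvd_natCast.1 h1
      · have haU' : (a : ℝ) ≤ U := by exact_mod_cast haU
        have ha0' : (0 : ℝ) ≤ a := by positivity
        have hb1' : -(V : ℝ) ≤ b := by exact_mod_cast hb1
        have hb2' : (b : ℝ) ≤ V := by exact_mod_cast hb2
        show ((Ht (a : ℤ) b : ℤ) : ℝ) ≤ X
        unfold Ht
        push_cast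
        apply max_le
        · rw [abs_of_nonneg ha0']
          have h3 : (a : ℝ) ^ 3 ≤ (u / 2) ^ 3 := pow_le_pow_left₀ ha0' (by linarith) 3
          have h4 : (u / 2) ^ 3 = X / 8 := by rw [div_pow, hu3]; norm_num
          linarith
        · have h3 : (b : ℝ) ^ 2 ≤ (v / 6) ^ 2 := by
            rw [← sq_abs (b : ℝ)]
            apply pow_le_pow_left₀ (abs_nonneg _)
            rw [abs_le]
            constructor <;> linarith
          have h4 : (v / 6) ^ 2 = X / 36 := by rw [div_pow, hv2]; norm_num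
          linarith
    · rintro ⟨a, b⟩ _ ⟨a', b'⟩ _ h
      have h0 : ((a : ℤ)) = (a' : ℤ) := congrArg Prod.fst h
      have h1 : b = b' := congrArg Prod.snd h
      have h2 : a = a' := by exact_mod_cast h0
      rw [h1, h2]
  have hle' : (T.card : ℝ) ≤ ((FX X).ncard : ℝ) := by exact_mod_cast hle
  refine le_trans ?_ hle'
  rw [hTcard]
  have h6 := free_count U
  have e3 : u * v = X ^ (5 / 6 : ℝ) := by
    rw [hu, hv, ← Real.rpow_add (by linarith)]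
    norm_num
  rw [← e3]
  have hV0 : (0 : ℝ) ≤ V := by positivity
  calc u * v / 32 = (3 / 4 * (u / 4)) * (v / 6) := by ring
    _ ≤ (3 / 4 * (U : ℝ)) * (2 * V + 1) :=
        mul_le_mul (by linarith) (by linarith) (by positivity) (by positivity)
    _ ≤ _ := mul_le_mul_of_nonneg_right h6 (by positivity)

/-- the normal order: the proportion of exceptional curves -/
theorem by_height_proportion : ∃ C : ℝ, 0 < C ∧ ∀ δ : ℝ, 0 < δ → ∀ x : ℕ, 16 ≤ x → ∀ X : ℝ,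
    (x : ℝ) ^ 9 ≤ X →
    (({q ∈ FX X | ¬ (Real.log x ^ (1 / 2 - δ) ≤ EP q.1 q.2 x ∧
      EP q.1 q.2 x ≤ Real.log x ^ (1 / 2 + δ))}.ncard : ℕ) : ℝ) ≤
      C / (δ ^ 2 * Real.log (Real.log x)) * ((FX X).ncard : ℝ) := by
  obtain ⟨C, hC0, hC⟩ := by_height
  refine ⟨32 * C, by positivity, fun δ hδ x hx X hX => ?_⟩
  have h16 : (16 : ℝ) ≤ x := by exact_mod_cast hx
  have hlog : 0 < Real.log x := Real.log_pos (by linarith)
  have hll : 0 < Real.log (Real.log x) := by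
    have h1 : Real.log 16 ≤ Real.log x := Real.log_le_log (by norm_num) h16
    have h2 : Real.log 16 = 4 * Real.log 2 := by
      rw [show (16 : ℝ) = 2 ^ 4 by norm_num, Real.log_pow]; norm_num
    have h3 := Real.log_two_gt_d9
    exact Real.log_pos (by linarith)
  have hX8 : 8 ≤ X := by
    have h1 : (x : ℝ) ≤ (x : ℝ) ^ 9 := le_self_pow₀ (by linarith) (by norm_num)
    linarith
  have h1 := hC δ hδ x hx X hX
  have e : {q ∈ FX X | ¬ (Real.log x ^ (1 / 2 - δ) ≤ EP q.1 q.2 x ∧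
      EP q.1 q.2 x ≤ Real.log x ^ (1 / 2 + δ))} = {q : ℤ × ℤ | InF q.1 q.2 ∧ (Ht q.1 q.2 : ℝ) ≤ X ∧
      ¬ (Real.log x ^ (1 / 2 - δ) ≤ EP q.1 q.2 x ∧ EP q.1 q.2 x ≤ Real.log x ^ (1 / 2 + δ))} := by
    ext q
    simp only [FX, Set.mem_setOf_eq, and_assoc]
  rw [e]
  refine h1.trans ?_
  have h2 := FX_lower X hX8
  calc C / (δ ^ 2 * Real.log (Real.log x)) * X ^ (5 / 6 : ℝ)
      = 32 * C / (δ ^ 2 * Real.log (Real.log x)) * (X ^ (5 / 6 : ℝ) / 32) := by ring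
    _ ≤ _ := mul_le_mul_of_nonneg_left h2 (by positivity)

end Pool.Agent.H678R3.BSD.W2
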