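import Mathlib

/-! Second-order expansion of `(1 + u) ^ k`. -/

set_option autoImplicit false

open Finset

namespace Pool.Agent.H678R3.BSD

lemma step {g g' : ℝ → ℝ} {C : ℝ} {n : ℕ} (hC : 0 ≤ C)
    (hd : ∀ u, |u| ≤ 1 / 2 → HasDerivAt g (g' u) u) (hb : ∀ u, |u| ≤ 1 / 2 → |g' u| ≤ C * |u| ^ n)
    (h0 : g 0 = 0) (u : ℝ) (hu : |u| ≤ 1 / 2) : |g u| ≤ C * |u| ^ (n + 1) := by
  have key := Convex.norm_image_sub_le_of_norm_hasDerivWithin_le (f := g) (f' := g')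
    (s := Set.Icc (-|u|) |u|) (C := C * |u| ^ n) (x := 0) (y := u)
    (fun t ht => (hd t ((abs_le.2 ht).trans hu)).hasDerivWithinAt)
    (fun t ht => (hb t ((abs_le.2 ht).trans hu)).trans
      (mul_le_mul_of_nonneg_left (pow_le_pow_left₀ (abs_nonneg _) (abs_le.2 ht) n) hC))
    (convex_Icc _ _) ⟨by simp, by simp⟩ ⟨neg_abs_le u, le_abs_self u⟩
  rw [h0, sub_zero, sub_zero, Real.norm_eq_abs, Real.norm_eq_abs] at key
  rw [pow_succ, ← mul_assoc]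
  exact key

lemma one_add_pos {u : ℝ} (hu : |u| ≤ 1 / 2) : 0 < 1 + u := by
  have := neg_abs_le u
  linarith

lemma deriv_pow (k : ℝ) {u : ℝ} (hu : |u| ≤ 1 / 2) :
    HasDerivAt (fun u : ℝ => (1 + u) ^ k) (k * (1 + u) ^ (k - 1)) u := by
  have h1 : HasDerivAt (fun u : ℝ => 1 + u) 1 u := (hasDerivAt_id u).const_add 1
  have := h1.rpow_const (p := k) (Or.inl (one_add_pos hu).ne')
  convert this using 1
  ring

lemma bound0 (k : ℝ) : ∃ C : ℝ, 0 ≤ C ∧ ∀ u : ℝ, |u| ≤ 1 / 2 → |(1 + u) ^ k| ≤ C := by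
  have hcont : ContinuousOn (fun u : ℝ => (1 + u) ^ k) (Set.Icc (-(1 / 2)) (1 / 2)) := fun u hu =>
    (deriv_pow k (abs_le.2 hu)).continuousAt.continuousWithinAt
  obtain ⟨C, hC⟩ := isCompact_Icc.exists_bound_of_continuousOn hcont
  refine ⟨|C|, abs_nonneg _, fun u hu => ?_⟩
  exact (hC u (abs_le.1 hu)).trans (le_abs_self C)

lemma bound1 (k : ℝ) : ∃ C : ℝ, 0 ≤ C ∧ ∀ u : ℝ, |u| ≤ 1 / 2 → |(1 + u) ^ k - 1| ≤ C * |u| := by
  obtain ⟨C, hC0, hC⟩ := bound0 (k - 1)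
  refine ⟨|k| * C, by positivity, fun u hu => ?_⟩
  have := step (g := fun u => (1 + u) ^ k - 1) (g' := fun u => k * (1 + u) ^ (k - 1)) (n := 0)
    (C := |k| * C) (by positivity) (fun u hu => (deriv_pow k hu).sub_const 1)
    (fun u hu => by
      rw [abs_mul, pow_zero, mul_one]
      exact mul_le_mul_of_nonneg_left (hC u hu) (abs_nonneg _)) (by simp) u hu
  simpa using this

lemma bound2 (k : ℝ) : ∃ C : ℝ, 0 ≤ C ∧ ∀ u : ℝ, |u| ≤ 1 / 2 →
    |(1 + u) ^ k - 1 - k * u| ≤ C * |u| ^ 2 := by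
  obtain ⟨C, hC0, hC⟩ := bound1 (k - 1)
  refine ⟨|k| * C, by positivity, fun u hu => ?_⟩
  exact step (g := fun u => (1 + u) ^ k - 1 - k * u) (g' := fun u => k * (1 + u) ^ (k - 1) - k * 1)
    (n := 1) (C := |k| * C) (by positivity)
    (fun u hu => ((deriv_pow k hu).sub_const 1).sub ((hasDerivAt_id u).const_mul k))
    (fun u hu => by
      rw [← mul_sub, abs_mul, pow_one, mul_assoc]
      exact mul_le_mul_of_nonneg_left (hC u hu) (abs_nonneg _)) (by simp) u hu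

lemma bound3 (k : ℝ) : ∃ C : ℝ, 0 ≤ C ∧ ∀ u : ℝ, |u| ≤ 1 / 2 →
    |(1 + u) ^ k - 1 - k * u - k * (k - 1) / 2 * u ^ 2| ≤ C * |u| ^ 3 := by
  obtain ⟨C, hC0, hC⟩ := bound2 (k - 1)
  refine ⟨|k| * C, by positivity, fun u hu => ?_⟩
  exact step (g := fun u => (1 + u) ^ k - 1 - k * u - k * (k - 1) / 2 * u ^ 2)
    (g' := fun u => k * (1 + u) ^ (k - 1) - k * 1 - k * (k - 1) / 2 * ((2 : ℕ) * u ^ (2 - 1)))
    (n := 2) (C := |k| * C) (by positivity)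
    (fun u hu => (((deriv_pow k hu).sub_const 1).sub ((hasDerivAt_id u).const_mul k)).sub
      ((hasDerivAt_pow 2 u).const_mul _))
    (fun u hu => by
      have e : k * (1 + u) ^ (k - 1) - k * 1 - k * (k - 1) / 2 * ((2 : ℕ) * u ^ (2 - 1)) =
          k * ((1 + u) ^ (k - 1) - 1 - (k - 1) * u) := by push_cast; ring
      rw [e, abs_mul, mul_assoc]
      exact mul_le_mul_of_nonneg_left (hC u hu) (abs_nonneg _)) (by simp) u hu

end Pool.Agent.H678R3.BSD
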