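import Pool.Agent.H678R3.BSD.Defs
import Pool.Agent.H678R3.BSD.PowExp
import Pool.Agent.H341R2.WeilSharp

/-! The local moments. -/

set_option autoImplicit false

open Finset

namespace Pool.Agent.H678R3.BSD

section

variable {p : ℕ} [hp : Fact p.Prime]

/-- sums over the residues -/
lemma sum_box_eq (g : (Fin 3 → ZMod p) → ℝ) :
    ∑ n ∈ box (p : ℤ), g (fun i => (n i : ZMod p)) =
      ∑ v : ZMod p, ∑ w : ZMod p, ∑ a : ZMod p, g ![a, v, w] := by
  have hpos : (0 : ℤ) < p := by exact_mod_cast hp.out.pos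
  have h1 : ∑ n ∈ box (p : ℤ), g (fun i => (n i : ZMod p)) = ∑ m : Fin 3 → ZMod p, g m := by
    refine Finset.sum_bij' (fun n _ => fun i => (n i : ZMod p))
      (fun m _ => fun i => ((m i).val : ℤ)) ?_ ?_ ?_ ?_ ?_
    · intro n _; exact Finset.mem_univ _
    · intro m _
      rw [mem_box]
      exact fun i => ⟨by positivity, by exact_mod_cast ZMod.val_lt (m i)⟩
    · intro n hn
      rw [mem_box] at hn
      funext i
      show (((n i : ZMod p)).val : ℤ) = n i
      rw [ZMod.val_intCast, Int.emod_eq_of_lt (hn i).1 (hn i).2]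
    · intro m _
      funext i
      simp
    · intro n _; rfl
  rw [h1]
  let e : (Fin 3 → ZMod p) ≃ ZMod p × ZMod p × ZMod p :=
    { toFun := fun m => (m 1, m 2, m 0)
      invFun := fun q => ![q.2.2, q.1, q.2.1]
      left_inv := fun m => by
        funext i
        fin_cases i <;> rfl
      right_inv := fun q => rfl }
  rw [← Equiv.sum_comp e.symm, Fintype.sum_prod_type]
  refine Finset.sum_congr rfl fun v _ => ?_
  rw [Fintype.sum_prod_type]
  rfl

/-- the number of points is given by the character sum -/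
lemma card_eq (hp2 : p ≠ 2) (a c d : ZMod p) :
    (Nat.card {q : ZMod p × ZMod p // q.2 ^ 2 = q.1 ^ 3 + a * q.1 ^ 2 + (d - 1 - a - c) * q.1 + c} : ℝ)
      = p + TT a c d := by
  have hF : ringChar (ZMod p) ≠ 2 := by rwa [ZMod.ringChar_zmod_n]
  have heval : ∀ x : ZMod p, x ^ 3 + a * x ^ 2 + (d - 1 - a - c) * x + c =
      a * (x ^ 2 - x) + Rx c d x := by intro x; unfold Rx; ring
  have h1 : Nat.card {q : ZMod p × ZMod p // q.2 ^ 2 = q.1 ^ 3 + a * q.1 ^ 2 + (d - 1 - a - c) * q.1 + c}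
      = ∑ x : ZMod p, Nat.card {y : ZMod p // y ^ 2 = a * (x ^ 2 - x) + Rx c d x} := by
    have e : {q : ZMod p × ZMod p // q.2 ^ 2 = q.1 ^ 3 + a * q.1 ^ 2 + (d - 1 - a - c) * q.1 + c} ≃
        Σ x : ZMod p, {y : ZMod p // y ^ 2 = a * (x ^ 2 - x) + Rx c d x} :=
      { toFun := fun q => ⟨q.1.1, q.1.2, q.2.trans (heval _)⟩
        invFun := fun q => ⟨(q.1, q.2.1), q.2.2.trans (heval _).symm⟩
        left_inv := fun q => rfl
        right_inv := fun q => rfl }
    rw [Nat.card_congr e, Nat.card_sigma]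
  have h2 : ∀ x : ZMod p, (Nat.card {y : ZMod p // y ^ 2 = a * (x ^ 2 - x) + Rx c d x} : ℤ) =
      quadraticChar (ZMod p) (a * (x ^ 2 - x) + Rx c d x) + 1 := by
    intro x
    rw [← quadraticChar_card_sqrts hF, Set.toFinset_card, ← Nat.card_eq_fintype_card]
    rfl
  have h3 : (Nat.card {q : ZMod p × ZMod p // q.2 ^ 2 = q.1 ^ 3 + a * q.1 ^ 2 + (d - 1 - a - c) * q.1 + c} : ℤ)
      = p + ∑ x : ZMod p, quadraticChar (ZMod p) (a * (x ^ 2 - x) + Rx c d x) := by
    rw [h1]
    push_cast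
    rw [Finset.sum_congr rfl fun x _ => h2 x, Finset.sum_add_distrib]
    simp [add_comm]
  unfold TT ch
  exact_mod_cast h3

open Polynomial in
/-- the Hasse bound -/
lemma hasse (hp2 : p ≠ 2) (a c d : ZMod p) : |TT a c d| ≤ 2 * Real.sqrt p := by
  have hF : ringChar (ZMod p) ≠ 2 := by rwa [ZMod.ringChar_zmod_n]
  set f : (ZMod p)[X] := X ^ 3 + C a * X ^ 2 + C (d - 1 - a - c) * X + C c with hf
  have hdeg : f.natDegree = 3 := by
    rw [hf]
    compute_degree!
  have hns : ∀ (c : ZMod p) (h : (ZMod p)[X]), f ≠ C c * h ^ 2 := by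
    intro c h heq
    have h1 : f.natDegree = (C c * h ^ 2).natDegree := by rw [heq]
    rcases eq_or_ne c 0 with h0 | h0
    · rw [h0, C_0, zero_mul, natDegree_zero, hdeg] at h1
      omega
    · rw [natDegree_C_mul h0, natDegree_pow, hdeg] at h1
      omega
  have hw := Pool.Agent.H341R2.Sharp.weil_sharp hF f (by omega) hns
  rw [hdeg, ZMod.card] at hw
  have heval : ∀ x : ZMod p, f.eval x = a * (x ^ 2 - x) + Rx c d x := by
    intro x
    rw [hf]
    simp [Rx]
    ring
  simp_rw [heval] at hw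
  unfold TT ch
  refine hw.trans (le_of_eq ?_)
  norm_num

open Polynomial in
/-- few values of `a` give a singular cubic -/
lemma bad_le (c d : ZMod p) :
    ∑ a : ZMod p, (if disc a (d - 1 - a - c) c = 0 then (1 : ℝ) else 0) ≤ 4 := by
  classical
  set β := d - 1 - c with hβ
  set Q : (ZMod p)[X] := X ^ 4 + C (-2 * β + 4 - 4 * c) * X ^ 3 + C (β ^ 2 - 12 * β - 18 * c) * X ^ 2
    + C (12 * β ^ 2 + 18 * β * c) * X + C (-4 * β ^ 3 - 27 * c ^ 2) with hQ
  have hdeg : Q.natDegree = 4 := by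
    rw [hQ]
    compute_degree!
  have hQ0 : Q ≠ 0 := by
    intro h
    rw [h, natDegree_zero] at hdeg
    omega
  rw [← Finset.sum_filter, Finset.sum_const, nsmul_eq_mul, mul_one]
  have hsub : (Finset.univ.filter fun a : ZMod p => disc a (d - 1 - a - c) c = 0) ⊆ Q.roots.toFinset := by
    intro a ha
    rw [Finset.mem_filter] at ha
    rw [Multiset.mem_toFinset, mem_roots hQ0, IsRoot.def]
    have e : Q.eval a = disc a (d - 1 - a - c) c := by
      rw [hQ]
      simp only [eval_add, eval_mul, eval_pow, eval_X, eval_C]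
      unfold disc
      rw [hβ]
      ring
    rw [e, ha.2]
  have h1 := Finset.card_le_card hsub
  have h2 := Multiset.toFinset_card_le Q.roots
  have h3 := Q.card_roots'
  rw [hdeg] at h3
  exact_mod_cast h1.trans (h2.trans h3)

end

end Pool.Agent.H678R3.BSD
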