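import Pool.Agent.H678R3.BSD.Loc

/-! The expansion of the local moments. -/

set_option autoImplicit false
set_option maxHeartbeats 4000000

open Finset

namespace Pool.Agent.H678R3.BSD

/-- the local average -/
noncomputable def EE (j : ℕ) (k : ℝ) (p : ℕ) : ℝ := (∑ n ∈ box (p : ℤ), lf j p n ^ k) / (p : ℝ) ^ 3

/-- the exponent -/
noncomputable def kap (j : ℕ) (k : ℝ) : ℝ := k * (k + 1) / 2 + j * k


lemma arith {q s c0 α β C3 D κ jj T2 SA SB : ℝ} (hq36 : 36 ≤ q) (hss : s * s = q) (hs6 : 6 ≤ s)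
    (hD : D = |α| + |β|) (hκ : κ = (1 + jj) * α + β)
    (hj0 : 0 ≤ jj) (hj' : jj ≤ 2)
    (hSAB : |SA - SB| ≤ q ^ 3 * (C3 * (3 / s) ^ 3) + q ^ 2 * 4 * (D * (3 / s)))
    (hSB : SB = q ^ 3 * (c0 + α / q + β / q ^ 2) +
      (α / q + 2 * β / q ^ 2) * (jj * (q - 1) * q ^ 2) + β / q ^ 2 * T2)
    (hsecond : |T2 - q ^ 4| ≤ 10 * q ^ 3) :
    |SA / q ^ 3 - c0 - κ / q| ≤ (27 * C3 + 27 * D) / (q * s) := by
  have hq0 : 0 < q := by linarith
  have hs0 : 0 < s := by linarith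
  have hD0 : 0 ≤ D := by rw [hD]; positivity
  have hSB2 : |SB - c0 * q ^ 3 - κ * q ^ 2| ≤ 15 * D * q := by
    have e1 : SB - c0 * q ^ 3 - κ * q ^ 2 =
        -(α * (jj * q)) + β * (q + 2 * (jj * (q - 1)) + (T2 - q ^ 4) / q ^ 2) := by
      rw [hSB, hκ]
      field_simp
      ring
    rw [e1]
    have e2 : |(T2 - q ^ 4) / q ^ 2| ≤ 10 * q := by
      rw [abs_div, abs_of_pos (by positivity : (0 : ℝ) < q ^ 2), div_le_iff₀ (by positivity)]
      calc _ ≤ 10 * q ^ 3 := hsecond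
        _ = _ := by ring
    have e3 : |q + 2 * (jj * (q - 1)) + (T2 - q ^ 4) / q ^ 2| ≤ 15 * q := by
      have a0 : 0 ≤ jj * (q - 1) := mul_nonneg hj0 (by linarith)
      have a2 : jj * (q - 1) ≤ 2 * (q - 1) := mul_le_mul_of_nonneg_right hj' (by linarith)
      have a1 : |q + 2 * (jj * (q - 1))| ≤ 5 * q := by
        rw [abs_of_nonneg (by linarith)]
        linarith
      exact (abs_add_le _ _).trans (by linarith)
    have e4 : |-(α * (jj * q))| ≤ |α| * (15 * q) := by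
      rw [abs_neg, abs_mul]
      refine mul_le_mul_of_nonneg_left ?_ (abs_nonneg _)
      rw [abs_of_nonneg (by positivity)]
      nlinarith
    have e5 : |β * (q + 2 * (jj * (q - 1)) + (T2 - q ^ 4) / q ^ 2)| ≤
        |β| * (15 * q) := by
      rw [abs_mul]
      exact mul_le_mul_of_nonneg_left e3 (abs_nonneg _)
    refine (abs_add_le _ _).trans ((add_le_add e4 e5).trans (le_of_eq ?_))
    rw [hD]
    ring
  have hfin : |SA - c0 * q ^ 3 - κ * q ^ 2| ≤ (27 * C3 + 27 * D) * (q * s) := by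
    have e1 : SA - c0 * q ^ 3 - κ * q ^ 2 = (SA - SB) + (SB - c0 * q ^ 3 - κ * q ^ 2) := by ring
    rw [e1]
    have e2 : q ^ 3 * (C3 * (3 / s) ^ 3) + q ^ 2 * 4 * (D * (3 / s)) = (27 * C3 + 12 * D) * (q * s) := by
      rw [← hss]
      field_simp
      ring
    have e3 : 15 * D * q ≤ 15 * D * (q * s) := by
      apply mul_le_mul_of_nonneg_left _ (by positivity)
      nlinarith
    calc |SA - SB + (SB - c0 * q ^ 3 - κ * q ^ 2)| ≤ |SA - SB| + |SB - c0 * q ^ 3 - κ * q ^ 2| :=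
          abs_add_le _ _
      _ ≤ (27 * C3 + 12 * D) * (q * s) + 15 * D * (q * s) := add_le_add (hSAB.trans (le_of_eq e2))
          (hSB2.trans e3)
      _ = _ := by ring
  have e1 : SA / q ^ 3 - c0 - κ / q = (SA - c0 * q ^ 3 - κ * q ^ 2) / q ^ 3 := by
    field_simp
  rw [e1, abs_div, abs_of_pos (by positivity : (0 : ℝ) < q ^ 3), div_le_div_iff₀ (by positivity)
    (by positivity)]
  calc _ ≤ (27 * C3 + 27 * D) * (q * s) * (q * s) := mul_le_mul_of_nonneg_right hfin (by positivity)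
    _ = (27 * C3 + 27 * D) * q ^ 3 := by
      have : q * s * (q * s) = q ^ 3 := by
        calc q * s * (q * s) = q * q * (s * s) := by ring
          _ = q ^ 3 := by rw [hss]; ring
      rw [mul_assoc, this]

section

variable {p : ℕ} [hp : Fact p.Prime]

lemma lfZ_good (hp2 : p ≠ 2) (j : ℕ) (a v w : ZMod p)
    (h : disc a (V1 j w - 1 - a - V0 j v) (V0 j v) ≠ 0) :
    lfZ j p ![a, v, w] = 1 + (1 + TT a (V0 j v) (V1 j w)) / p := by
  have h2 : (2 : ZMod p) ≠ 0 := by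
    have hc : ringChar (ZMod p) ≠ 2 := by rwa [ZMod.ringChar_zmod_n]
    exact Ring.two_ne_zero hc
  have hpos : (0 : ℝ) < p := by exact_mod_cast hp.out.pos
  have e : lfZ j p ![a, v, w] = ((Nat.card {q : ZMod p × ZMod p // q.2 ^ 2 =
      q.1 ^ 3 + a * q.1 ^ 2 + (V1 j w - 1 - a - V0 j v) * q.1 + V0 j v} : ℝ) + 1) / p := by
    unfold lfZ
    exact if_pos ⟨hp.out, mul_ne_zero h2 h⟩
  rw [e, card_eq hp2]
  field_simp
  ring

lemma lfZ_bad (j : ℕ) (a v w : ZMod p) (h : disc a (V1 j w - 1 - a - V0 j v) (V0 j v) = 0) :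
    lfZ j p ![a, v, w] = 1 := by
  unfold lfZ
  refine if_neg ?_
  rintro ⟨_, h1⟩
  apply h1
  have : disc (![a, v, w] 0) (V1 j (![a, v, w] 2) - 1 - ![a, v, w] 0 - V0 j (![a, v, w] 1))
    (V0 j (![a, v, w] 1)) = 0 := h
  rw [this, mul_zero]

lemma local_gen (j : ℕ) (hj : j ≤ 2) (φ : ℝ → ℝ) (α β C3 : ℝ) (hC3 : 0 ≤ C3)
    (hb : ∀ u : ℝ, |u| ≤ 1 / 2 → |φ (1 + u) - φ 1 - α * u - β * u ^ 2| ≤ C3 * |u| ^ 3)
    (h36 : 36 ≤ p) :
    |(∑ n ∈ box (p : ℤ), φ (lf j p n)) / (p : ℝ) ^ 3 - φ 1 - ((1 + j) * α + β) / p| ≤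
      (27 * C3 + 27 * (|α| + |β|)) / (p * Real.sqrt p) := by
  have hp2 : p ≠ 2 := by omega
  have hF : ringChar (ZMod p) ≠ 2 := by rwa [ZMod.ringChar_zmod_n]
  set q : ℝ := (p : ℝ) with hq
  have hq36 : (36 : ℝ) ≤ q := by rw [hq]; exact_mod_cast h36
  set s : ℝ := Real.sqrt q with hs
  have hss : s * s = q := Real.mul_self_sqrt (by linarith)
  have hs6 : 6 ≤ s := by
    rw [hs]
    apply Real.le_sqrt_of_sq_le
    linarith
  have hcard : (Fintype.card (ZMod p) : ℝ) = q := by rw [ZMod.card]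
  set D : ℝ := |α| + |β| with hD
  have hD0 : 0 ≤ D := by positivity
  set T : ZMod p → ZMod p → ZMod p → ℝ := fun v w a => TT a (V0 j v) (V1 j w) with hT
  have hTs : ∀ v w a, |T v w a| ≤ 2 * s := fun v w a => hasse hp2 _ _ _
  set A : ZMod p → ZMod p → ZMod p → ℝ := fun v w a => φ (lfZ j p ![a, v, w]) with hA
  set B : ZMod p → ZMod p → ZMod p → ℝ := fun v w a =>
    φ 1 + α * ((1 + T v w a) / q) + β * ((1 + T v w a) / q) ^ 2 with hB
  have hu : ∀ v w a, |(1 + T v w a) / q| ≤ 3 / s := by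
    intro v w a
    rw [abs_div, abs_of_pos (by linarith : (0 : ℝ) < q), div_le_div_iff₀ (by linarith) (by linarith)]
    have : |1 + T v w a| ≤ 1 + 2 * s := (abs_add_le _ _).trans (by rw [abs_one]; linarith [hTs v w a])
    nlinarith
  have h3s : 3 / s ≤ 1 / 2 := by
    rw [div_le_div_iff₀ (by linarith) (by norm_num)]; linarith
  have hAB : ∀ v w a, |A v w a - B v w a| ≤ C3 * (3 / s) ^ 3 +
      (if disc a (V1 j w - 1 - a - V0 j v) (V0 j v) = 0 then 1 else 0) * (D * (3 / s)) := by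
    intro v w a
    by_cases h : disc a (V1 j w - 1 - a - V0 j v) (V0 j v) = 0
    · rw [if_pos h, one_mul]
      have e1 : A v w a = φ 1 := by
        show φ (lfZ j p ![a, v, w]) = φ 1
        rw [lfZ_bad j a v w h]
      rw [e1]
      set u := (1 + T v w a) / q with hu'
      have hu1 : |u| ≤ 3 / s := hu v w a
      have e2 : φ 1 - B v w a = -(α * u) - β * u ^ 2 := by
        show φ 1 - (φ 1 + α * u + β * u ^ 2) = _
        ring
      rw [e2]
      have e3 : |-(α * u) - β * u ^ 2| ≤ |α| * |u| + |β| * |u| ^ 2 := by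
        refine (abs_sub _ _).trans ?_
        rw [abs_neg, abs_mul, abs_mul, abs_pow]
      have e4 : |u| ^ 2 ≤ |u| := by
        rw [sq]
        have : |u| ≤ 1 := hu1.trans (h3s.trans (by norm_num))
        nlinarith [abs_nonneg u]
      have e5 : |α| * |u| + |β| * |u| ^ 2 ≤ D * |u| := by
        rw [hD, add_mul]
        exact add_le_add le_rfl (mul_le_mul_of_nonneg_left e4 (abs_nonneg _))
      have e6 : D * |u| ≤ D * (3 / s) := mul_le_mul_of_nonneg_left hu1 hD0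
      have e7 : 0 ≤ C3 * (3 / s) ^ 3 := by
        have : 0 < s := by linarith
        positivity
      linarith
    · rw [if_neg h, zero_mul, add_zero]
      have e1 : A v w a = φ (1 + (1 + T v w a) / q) := by
        show φ (lfZ j p ![a, v, w]) = _
        rw [lfZ_good hp2 j a v w h]
      rw [e1]
      set u := (1 + T v w a) / q with hu'
      have hu1 : |u| ≤ 3 / s := hu v w a
      have e2 : φ (1 + u) - B v w a = φ (1 + u) - φ 1 - α * u - β * u ^ 2 := by
        show φ (1 + u) - (φ 1 + α * u + β * u ^ 2) = _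
        ring
      rw [e2]
      exact (hb u (hu1.trans h3s)).trans (mul_le_mul_of_nonneg_left
        (pow_le_pow_left₀ (abs_nonneg _) hu1 3) hC3)
  -- sums
  have hSAB : |∑ v, ∑ w, ∑ a, A v w a - ∑ v, ∑ w, ∑ a, B v w a| ≤
      q ^ 3 * (C3 * (3 / s) ^ 3) + q ^ 2 * 4 * (D * (3 / s)) := by
    have e1 : ∑ v, ∑ w, ∑ a, A v w a - ∑ v, ∑ w, ∑ a, B v w a = ∑ v, ∑ w, ∑ a, (A v w a - B v w a) := by
      simp_rw [Finset.sum_sub_distrib]
    rw [e1]
    have e2 : ∀ v w, |∑ a, (A v w a - B v w a)| ≤ q * (C3 * (3 / s) ^ 3) + 4 * (D * (3 / s)) := by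
      intro v w
      refine (Finset.abs_sum_le_sum_abs _ _).trans ((Finset.sum_le_sum fun a _ => hAB v w a).trans ?_)
      rw [Finset.sum_add_distrib, Finset.sum_const, Finset.card_univ, nsmul_eq_mul, hcard,
        ← Finset.sum_mul]
      have hs0 : 0 < s := by linarith
      exact add_le_add le_rfl (mul_le_mul_of_nonneg_right (bad_le _ _) (by positivity))
    have e3 : ∀ v, |∑ w, ∑ a, (A v w a - B v w a)| ≤ q * (q * (C3 * (3 / s) ^ 3) + 4 * (D * (3 / s))) := by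
      intro v
      refine (Finset.abs_sum_le_sum_abs _ _).trans ((Finset.sum_le_sum fun w _ => e2 v w).trans
        (le_of_eq ?_))
      rw [Finset.sum_const, Finset.card_univ, nsmul_eq_mul, hcard]
    refine (Finset.abs_sum_le_sum_abs _ _).trans ((Finset.sum_le_sum fun v _ => e3 v).trans
      (le_of_eq ?_))
    rw [Finset.sum_const, Finset.card_univ, nsmul_eq_mul, hcard]
    ring
  have hfirst : ∑ v, ∑ w, ∑ a, T v w a = j * (q - 1) * q ^ 2 := by
    have := first_moment hF j hj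
    rw [hcard] at this
    exact this
  have hsecond : |∑ v, ∑ w, ∑ a, T v w a ^ 2 - q ^ 4| ≤ 10 * q ^ 3 := by
    have := second_moment hF j
    rw [hcard] at this
    exact this
  set T2 := ∑ v, ∑ w, ∑ a, T v w a ^ 2 with hT2
  have hq0 : 0 < q := by linarith
  have hSB : ∑ v, ∑ w, ∑ a, B v w a = q ^ 3 * (φ 1 + α / q + β / q ^ 2) +
      (α / q + 2 * β / q ^ 2) * (j * (q - 1) * q ^ 2) + β / q ^ 2 * T2 := by
    have e1 : ∀ v w a, B v w a = (φ 1 + α / q + β / q ^ 2) +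
        (α / q + 2 * β / q ^ 2) * T v w a + β / q ^ 2 * T v w a ^ 2 := by
      intro v w a
      show φ 1 + α * ((1 + T v w a) / q) + β * ((1 + T v w a) / q) ^ 2 = _
      field_simp
      ring
    simp_rw [e1, Finset.sum_add_distrib, ← Finset.mul_sum]
    rw [hfirst, ← hT2]
    simp only [Finset.sum_const, Finset.card_univ, nsmul_eq_mul, hcard]
    ring
  have hEE : (∑ n ∈ box (p : ℤ), φ (lf j p n)) = ∑ v, ∑ w, ∑ a, A v w a := by
    unfold lf
    rw [sum_box_eq (fun m => φ (lfZ j p m))]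
  rw [hEE]
  exact arith hq36 hss hs6 hD rfl (by positivity) (by exact_mod_cast hj) hSAB hSB hsecond

lemma local_one (j : ℕ) (hj : j ≤ 2) (k C3 : ℝ) (hC3 : 0 ≤ C3)
    (hb : ∀ u : ℝ, |u| ≤ 1 / 2 → |(1 + u) ^ k - 1 - k * u - k * (k - 1) / 2 * u ^ 2| ≤ C3 * |u| ^ 3)
    (h36 : 36 ≤ p) :
    |EE j k p - 1 - kap j k / p| ≤ (27 * C3 + 27 * (|k| + |k * (k - 1) / 2|)) / (p * Real.sqrt p) := by
  have h := local_gen (p := p) j hj (fun y => y ^ k) k (k * (k - 1) / 2) C3 hC3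
    (fun u hu => by
      show |(1 + u) ^ k - (1 : ℝ) ^ k - k * u - k * (k - 1) / 2 * u ^ 2| ≤ _
      rw [Real.one_rpow]
      exact hb u hu) h36
  simp only [Real.one_rpow] at h
  have e : kap j k = (1 + j) * k + k * (k - 1) / 2 := by unfold kap; ring
  rw [e]
  exact h

end

end Pool.Agent.H678R3.BSD
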