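import Pool.Agent.H678R3.BSD.CharW
import Pool.Agent.H678R3.BSD.FLoc2

/-! Local estimates for the short Weierstrass families. -/

set_option autoImplicit false
set_option maxHeartbeats 4000000

open Finset

namespace Pool.Agent.H678R3.BSD.W2

open Pool.Agent.H678R3.BSD.FF (cardF_pos)

open Classical in
/-- the local factor of `y² = x³ + A x + c`, `A = m 0`, `c = V0 j (m 1)` -/
noncomputable def lfS {R : Type*} [CommRing R] (j : ℕ) (m : Fin 2 → R) : ℝ :=
  if 2 * (-4 * m 0 ^ 3 - 27 * V0 j (m 1) ^ 2) ≠ 0 then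
    ((Nat.card {q : R × R // q.2 ^ 2 = q.1 ^ 3 + m 0 * q.1 + V0 j (m 1)} : ℝ) + 1) / Nat.card R
  else 1

section

variable {F : Type*} [Field F] [Fintype F] [DecidableEq F]

/-- sums over pairs -/
lemma sum_pairs (g : (Fin 2 → F) → ℝ) :
    ∑ m : Fin 2 → F, g m = ∑ t : F, ∑ a : F, g ![a, t] := by
  let e : (Fin 2 → F) ≃ F × F :=
    { toFun := fun m => (m 1, m 0)
      invFun := fun q => ![q.2, q.1]
      left_inv := fun m => by
        funext i
        fin_cases i <;> rfl
      right_inv := fun q => rfl }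
  rw [← Equiv.sum_comp e.symm, Fintype.sum_prod_type]
  rfl

/-- the number of points is given by the character sum -/
lemma card_eq (hF : ringChar F ≠ 2) (a c : F) :
    (Nat.card {q : F × F // q.2 ^ 2 = q.1 ^ 3 + a * q.1 + c} : ℝ)
      = Nat.card F + TW a c := by
  have heval : ∀ x : F, x ^ 3 + a * x + c =
      a * x + (x ^ 3 + c) := by intro x; ring
  have h1 : Nat.card {q : F × F // q.2 ^ 2 = q.1 ^ 3 + a * q.1 + c}
      = ∑ x : F, Nat.card {y : F // y ^ 2 = a * x + (x ^ 3 + c)} := by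
    have e : {q : F × F // q.2 ^ 2 = q.1 ^ 3 + a * q.1 + c} ≃
        Σ x : F, {y : F // y ^ 2 = a * x + (x ^ 3 + c)} :=
      { toFun := fun q => ⟨q.1.1, q.1.2, q.2.trans (heval _)⟩
        invFun := fun q => ⟨(q.1, q.2.1), q.2.2.trans (heval _).symm⟩
        left_inv := fun q => rfl
        right_inv := fun q => rfl }
    rw [Nat.card_congr e, Nat.card_sigma]
  have h2 : ∀ x : F, (Nat.card {y : F // y ^ 2 = a * x + (x ^ 3 + c)} : ℤ) =
      quadraticChar (F) (a * x + (x ^ 3 + c)) + 1 := by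
    intro x
    rw [← quadraticChar_card_sqrts hF, Set.toFinset_card, ← Nat.card_eq_fintype_card]
    rfl
  have h3 : (Nat.card {q : F × F // q.2 ^ 2 = q.1 ^ 3 + a * q.1 + c} : ℤ)
      = Nat.card F + ∑ x : F, quadraticChar (F) (a * x + (x ^ 3 + c)) := by
    rw [h1]
    push_cast
    rw [Finset.sum_congr rfl fun x _ => h2 x, Finset.sum_add_distrib]
    simp [add_comm]
  unfold TW ch
  exact_mod_cast h3

open Polynomial in
/-- the Hasse bound -/
lemma hasse (hF : ringChar F ≠ 2) (a c : F) : |TW a c| ≤ 2 * Real.sqrt (Nat.card F) := by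
  set f : F[X] := X ^ 3 + C a * X + C c with hf
  have hdeg : f.natDegree = 3 := by
    rw [hf]
    compute_degree!
  have hns : ∀ (c : F) (h : F[X]), f ≠ C c * h ^ 2 := by
    intro c h heq
    have h1 : f.natDegree = (C c * h ^ 2).natDegree := by rw [heq]
    rcases eq_or_ne c 0 with h0 | h0
    · rw [h0, C_0, zero_mul, natDegree_zero, hdeg] at h1
      omega
    · rw [natDegree_C_mul h0, natDegree_pow, hdeg] at h1
      omega
  have hw := Pool.Agent.H341R2.Sharp.weil_sharp hF f (by omega) hns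
  rw [hdeg, ← Nat.card_eq_fintype_card] at hw
  have heval : ∀ x : F, f.eval x = a * x + (x ^ 3 + c) := by
    intro x
    rw [hf]
    simp
    ring
  simp_rw [heval] at hw
  unfold TW ch
  refine hw.trans (le_of_eq ?_)
  norm_num

open Polynomial in
/-- few values of `a` give a singular cubic -/
lemma bad_le (hF : ringChar F ≠ 2) (c : F) :
    ∑ a : F, (if -4 * a ^ 3 - 27 * c ^ 2 = 0 then (1 : ℝ) else 0) ≤ 3 := by
  classical
  have h2 : (2 : F) ≠ 0 := Ring.two_ne_zero hF
  have h4 : (-4 : F) ≠ 0 := by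
    rw [show (-4 : F) = -(2 * 2) by norm_num]
    exact neg_ne_zero.2 (mul_ne_zero h2 h2)
  set Q : F[X] := C (-4) * X ^ 3 + C (-27 * c ^ 2) with hQ
  have hdeg : Q.natDegree ≤ 3 := by
    rw [hQ]
    compute_degree
  have hQ0 : Q ≠ 0 := by
    intro h
    have h1 : Q.coeff 3 = -4 := by
      rw [hQ, coeff_add, coeff_C_mul, coeff_X_pow, if_pos rfl, coeff_C, if_neg (by norm_num)]
      ring
    rw [h, coeff_zero] at h1
    exact h4 h1.symm
  rw [← Finset.sum_filter, Finset.sum_const, nsmul_eq_mul, mul_one]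
  have hsub : (Finset.univ.filter fun a : F => -4 * a ^ 3 - 27 * c ^ 2 = 0) ⊆ Q.roots.toFinset := by
    intro a ha
    rw [Finset.mem_filter] at ha
    rw [Multiset.mem_toFinset, mem_roots hQ0, IsRoot.def]
    have e : Q.eval a = -4 * a ^ 3 - 27 * c ^ 2 := by
      rw [hQ]
      simp only [eval_add, eval_mul, eval_pow, eval_X, eval_C]
      ring
    rw [e, ha.2]
  have h1 := Finset.card_le_card hsub
  have h2 := Multiset.toFinset_card_le Q.roots
  have h3 := Q.card_roots'
  exact_mod_cast h1.trans (h2.trans (h3.trans hdeg))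

lemma lfS_good (hF : ringChar F ≠ 2) (j : ℕ) (a t : F)
    (h : -4 * a ^ 3 - 27 * V0 j t ^ 2 ≠ 0) :
    lfS j ![a, t] = 1 + (1 + TW a (V0 j t)) / Nat.card F := by
  have h2 : (2 : F) ≠ 0 := Ring.two_ne_zero hF
  have hpos : (0 : ℝ) < Nat.card F := cardF_pos
  have e : lfS j ![a, t] = ((Nat.card {q : F × F // q.2 ^ 2 =
      q.1 ^ 3 + a * q.1 + V0 j t} : ℝ) + 1) / Nat.card F := by
    unfold lfS
    exact if_pos (mul_ne_zero h2 h)
  rw [e, card_eq hF]
  field_simp
  ring

lemma lfS_bad (j : ℕ) (a t : F) (h : -4 * a ^ 3 - 27 * V0 j t ^ 2 = 0) :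
    lfS j ![a, t] = 1 := by
  unfold lfS
  refine if_neg ?_
  intro h1
  apply h1
  have : -4 * (![a, t] 0) ^ 3 - 27 * V0 j (![a, t] 1) ^ 2 = 0 := h
  rw [this, mul_zero]

lemma local_gen (j : ℕ) (hj : j ≤ 1) (φ : ℝ → ℝ) (α β C3 : ℝ) (hC3 : 0 ≤ C3)
    (hb : ∀ u : ℝ, |u| ≤ 1 / 2 → |φ (1 + u) - φ 1 - α * u - β * u ^ 2| ≤ C3 * |u| ^ 3)
    (h36 : 36 ≤ Nat.card F) (hF : ringChar F ≠ 2) :
    |(∑ m : Fin 2 → F, φ (lfS j m)) / (Nat.card F : ℝ) ^ 2 - φ 1 - ((1 + j) * α + β) / Nat.card F| ≤
      (27 * C3 + 27 * (|α| + |β|)) / (Nat.card F * Real.sqrt (Nat.card F)) := by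
  set q : ℝ := (Nat.card F : ℝ) with hq
  have hq36 : (36 : ℝ) ≤ q := by rw [hq]; exact_mod_cast h36
  set s : ℝ := Real.sqrt q with hs
  have hss : s * s = q := Real.mul_self_sqrt (by linarith)
  have hs6 : 6 ≤ s := by
    rw [hs]
    apply Real.le_sqrt_of_sq_le
    linarith
  have hcard : (Fintype.card F : ℝ) = q := by rw [hq, Nat.card_eq_fintype_card]
  set D : ℝ := |α| + |β| with hD
  have hD0 : 0 ≤ D := by positivity
  set T : F → F → ℝ := fun t a => TW a (V0 j t) with hT
  have hTs : ∀ t a, |T t a| ≤ 2 * s := fun t a => hasse hF _ _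
  set A : F → F → ℝ := fun t a => φ (lfS j ![a, t]) with hA
  set B : F → F → ℝ := fun t a =>
    φ 1 + α * ((1 + T t a) / q) + β * ((1 + T t a) / q) ^ 2 with hB
  have hu : ∀ t a, |(1 + T t a) / q| ≤ 3 / s := by
    intro t a
    rw [abs_div, abs_of_pos (by linarith : (0 : ℝ) < q), div_le_div_iff₀ (by linarith) (by linarith)]
    have : |1 + T t a| ≤ 1 + 2 * s := (abs_add_le _ _).trans (by rw [abs_one]; linarith [hTs t a])
    nlinarith
  have h3s : 3 / s ≤ 1 / 2 := by
    rw [div_le_div_iff₀ (by linarith) (by norm_num)]; linarith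
  have hAB : ∀ t a, |A t a - B t a| ≤ C3 * (3 / s) ^ 3 +
      (if -4 * a ^ 3 - 27 * V0 j t ^ 2 = 0 then 1 else 0) * (D * (3 / s)) := by
    intro t a
    by_cases h : -4 * a ^ 3 - 27 * V0 j t ^ 2 = 0
    · rw [if_pos h, one_mul]
      have e1 : A t a = φ 1 := by
        show φ (lfS j ![a, t]) = φ 1
        rw [lfS_bad j a t h]
      rw [e1]
      set u := (1 + T t a) / q with hu'
      have hu1 : |u| ≤ 3 / s := hu t a
      have e2 : φ 1 - B t a = -(α * u) - β * u ^ 2 := by
        show φ 1 - (φ 1 + α * u + β * u ^ 2) = _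
        ring
      rw [e2]
      have e3 : |-(α * u) - β * u ^ 2| ≤ |α| * |u| + |β| * |u| ^ 2 := by
        refine (abs_sub _ _).trans ?_
        rw [abs_neg, abs_mul, abs_mul, abs_pow]
      have e4 : |u| ^ 2 ≤ |u| := by
        rw [sq]
        have : |u| ≤ 1 := hu1.trans (h3s.trans (by norm_num))
        nlinarith [abs_nonneg u]
      have e5 : |α| * |u| + |β| * |u| ^ 2 ≤ D * |u| := by
        rw [hD, add_mul]
        exact add_le_add le_rfl (mul_le_mul_of_nonneg_left e4 (abs_nonneg _))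
      have e6 : D * |u| ≤ D * (3 / s) := mul_le_mul_of_nonneg_left hu1 hD0
      have e7 : 0 ≤ C3 * (3 / s) ^ 3 := by
        have : 0 < s := by linarith
        positivity
      linarith
    · rw [if_neg h, zero_mul, add_zero]
      have e1 : A t a = φ (1 + (1 + T t a) / q) := by
        show φ (lfS j ![a, t]) = _
        rw [lfS_good hF j a t h]
      rw [e1]
      set u := (1 + T t a) / q with hu'
      have hu1 : |u| ≤ 3 / s := hu t a
      have e2 : φ (1 + u) - B t a = φ (1 + u) - φ 1 - α * u - β * u ^ 2 := by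
        show φ (1 + u) - (φ 1 + α * u + β * u ^ 2) = _
        ring
      rw [e2]
      exact (hb u (hu1.trans h3s)).trans (mul_le_mul_of_nonneg_left
        (pow_le_pow_left₀ (abs_nonneg _) hu1 3) hC3)
  -- sums
  have hs0 : 0 < s := by linarith
  have hq0 : 0 < q := by linarith
  have hSAB : |∑ t, ∑ a, A t a - ∑ t, ∑ a, B t a| ≤
      q ^ 2 * (C3 * (3 / s) ^ 3) + q * 3 * (D * (3 / s)) := by
    have e1 : ∑ t, ∑ a, A t a - ∑ t, ∑ a, B t a = ∑ t, ∑ a, (A t a - B t a) := by
      simp_rw [Finset.sum_sub_distrib]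
    rw [e1]
    have e2 : ∀ t, |∑ a, (A t a - B t a)| ≤ q * (C3 * (3 / s) ^ 3) + 3 * (D * (3 / s)) := by
      intro t
      refine (Finset.abs_sum_le_sum_abs _ _).trans ((Finset.sum_le_sum fun a _ => hAB t a).trans ?_)
      rw [Finset.sum_add_distrib, Finset.sum_const, Finset.card_univ, nsmul_eq_mul, hcard,
        ← Finset.sum_mul]
      exact add_le_add le_rfl (mul_le_mul_of_nonneg_right (bad_le hF _) (by positivity))
    refine (Finset.abs_sum_le_sum_abs _ _).trans ((Finset.sum_le_sum fun t _ => e2 t).trans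
      (le_of_eq ?_))
    rw [Finset.sum_const, Finset.card_univ, nsmul_eq_mul, hcard]
    ring
  have hfirst : ∑ t, ∑ a, T t a = j * (q - 1) * q := by
    have := first_moment hF j hj
    rw [hcard] at this
    exact this
  have hsecond : |∑ t, ∑ a, T t a ^ 2 - q ^ 3| ≤ 5 * q ^ 2 := by
    have := second_moment hF j
    rw [hcard] at this
    exact this
  set T2 := ∑ t, ∑ a, T t a ^ 2 with hT2
  have hSB : ∑ t, ∑ a, B t a = q ^ 2 * (φ 1 + α / q + β / q ^ 2) +
      (α / q + 2 * β / q ^ 2) * (j * (q - 1) * q) + β / q ^ 2 * T2 := by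
    have e1 : ∀ t a, B t a = (φ 1 + α / q + β / q ^ 2) +
        (α / q + 2 * β / q ^ 2) * T t a + β / q ^ 2 * T t a ^ 2 := by
      intro t a
      show φ 1 + α * ((1 + T t a) / q) + β * ((1 + T t a) / q) ^ 2 = _
      field_simp
      ring
    simp_rw [e1, Finset.sum_add_distrib, ← Finset.mul_sum]
    rw [hfirst, ← hT2]
    simp only [Finset.sum_const, Finset.card_univ, nsmul_eq_mul, hcard]
    ring
  have hEE : (∑ m : Fin 2 → F, φ (lfS j m)) = ∑ t, ∑ a, A t a :=
    sum_pairs (fun m => φ (lfS j m))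
  rw [hEE]
  generalize (∑ t, ∑ a, A t a) = SA at hSAB ⊢
  generalize (∑ t, ∑ a, B t a) = SB at hSAB hSB
  have hres := arith (q := q) (s := s) (c0 := φ 1) (α := α) (β := β) (C3 := C3) (D := D)
    (κ := (1 + j) * α + β) (jj := j) (T2 := q * T2) (SA := q * SA) (SB := q * SB) hq36 hss hs6 hD rfl
    (by positivity) (by exact_mod_cast hj.trans (by norm_num)) (by
      rw [← mul_sub, abs_mul, abs_of_pos hq0]
      have h1 : q * |SA - SB| ≤ q * (q ^ 2 * (C3 * (3 / s) ^ 3) + q * 3 * (D * (3 / s))) :=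
        mul_le_mul_of_nonneg_left hSAB hq0.le
      have h2 : 0 ≤ q ^ 2 * (D * (3 / s)) := by positivity
      nlinarith) (by rw [hSB]; ring) (by
      have h1 : q * T2 - q ^ 4 = q * (T2 - q ^ 3) := by ring
      rw [h1, abs_mul, abs_of_pos hq0]
      have h2 : q * |T2 - q ^ 3| ≤ q * (5 * q ^ 2) := mul_le_mul_of_nonneg_left hsecond hq0.le
      have h3 : 0 ≤ q ^ 3 := by positivity
      nlinarith)
  have e9 : SA / q ^ 2 = q * SA / q ^ 3 := by field_simp
  rw [e9]
  exact hres

lemma lfS_pos (j : ℕ) (m : Fin 2 → F) : 0 < lfS j m := by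
  classical
  unfold lfS
  have := cardF_pos (F := F)
  split_ifs with h
  · positivity
  · norm_num

/-- the logarithm of the local factor is small -/
lemma log_lfS_le (hF : ringChar F ≠ 2) (j : ℕ) (m : Fin 2 → F) :
    |Real.log (lfS j m)| ≤ 24 / Real.sqrt (Nat.card F) := by
  classical
  set p : ℝ := (Nat.card F : ℝ) with hp
  have hp0 : 0 < p := cardF_pos
  have hs0 : 0 < Real.sqrt p := Real.sqrt_pos.2 hp0
  by_cases h36r : 36 ≤ p
  · have hss : Real.sqrt p * Real.sqrt p = p := Real.mul_self_sqrt hp0.le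
    have hs6 : 6 ≤ Real.sqrt p := by
      apply Real.le_sqrt_of_sq_le
      linarith
    have e0 : lfS j m = lfS j ![m 0, m 1] := by
      congr 1
      funext i
      fin_cases i <;> rfl
    by_cases h : -4 * m 0 ^ 3 - 27 * V0 j (m 1) ^ 2 = 0
    · rw [e0, lfS_bad j _ _ h, Real.log_one, abs_zero]
      positivity
    · rw [e0, lfS_good hF j _ _ h, ← hp]
      set u := (1 + TW (m 0) (V0 j (m 1))) / p with hu
      have hT := hasse hF (m 0) (V0 j (m 1))
      rw [← hp] at hT
      have hu1 : |u| ≤ 3 / Real.sqrt p := by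
        rw [hu, abs_div, abs_of_pos hp0, div_le_div_iff₀ hp0 hs0]
        have : |1 + TW (m 0) (V0 j (m 1))| ≤ 1 + 2 * Real.sqrt p :=
          (abs_add_le _ _).trans (by rw [abs_one]; linarith)
        nlinarith
      have h3s : 3 / Real.sqrt p ≤ 1 / 2 := by
        rw [div_le_div_iff₀ hs0 (by norm_num)]; linarith
      have hu2 := hu1.trans h3s
      have h1 := log_one_add u hu2
      have h2 : |Real.log (1 + u)| ≤ 2 * |u| := by
        have e1 : Real.log (1 + u) = (Real.log (1 + u) - u) + u := by ring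
        rw [e1]
        refine (abs_add_le _ _).trans ?_
        have e2 : 2 * u ^ 2 ≤ |u| := by
          rw [← sq_abs]
          nlinarith [abs_nonneg u]
        linarith
      calc _ ≤ 2 * |u| := h2
        _ ≤ 2 * (3 / Real.sqrt p) := by linarith
        _ = 6 / Real.sqrt p := by ring
        _ ≤ 24 / Real.sqrt p := by
          apply div_le_div_of_nonneg_right _ hs0.le
          norm_num
  · push Not at h36r
    have hs6 : Real.sqrt p ≤ 6 := by
      rw [Real.sqrt_le_left (by norm_num)]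
      linarith
    have h4 : |Real.log (lfS j m)| ≤ 4 := by
      have hlo : (1 : ℝ) / 36 ≤ lfS j m := by
        unfold lfS
        split_ifs with h
        · rw [← hp, div_le_div_iff₀ (by norm_num) hp0]
          have h0 : (0 : ℝ) ≤ (Nat.card {q : F × F // q.2 ^ 2 =
            q.1 ^ 3 + m 0 * q.1 + V0 j (m 1)} : ℝ) := by
            positivity
          linarith
        · norm_num
      have hhi : lfS j m ≤ 37 := by
        unfold lfS
        split_ifs with h
        · rw [← hp, div_le_iff₀ hp0]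
          have hc : Nat.card {q : F × F // q.2 ^ 2 =
            q.1 ^ 3 + m 0 * q.1 + V0 j (m 1)} ≤
              Nat.card F * Nat.card F := by
            refine (Nat.card_le_card_of_injective Subtype.val Subtype.val_injective).trans ?_
            rw [Nat.card_prod]
          have hc' : (Nat.card {q : F × F // q.2 ^ 2 =
            q.1 ^ 3 + m 0 * q.1 + V0 j (m 1)} : ℝ) ≤
              p * p := by rw [hp]; exact_mod_cast hc
          have h1p : (1 : ℝ) ≤ p := by
            rw [hp]
            exact_mod_cast (Nat.card_pos : 0 < Nat.card F)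
          nlinarith
        · norm_num
      have hl0 := lfS_pos j m
      have he : (37 : ℝ) ≤ Real.exp 4 := by
        have h1 : (2.7 : ℝ) ≤ Real.exp 1 := by
          have := Real.exp_one_gt_d9
          linarith
        have h2 : Real.exp 4 = Real.exp 1 ^ 4 := by rw [← Real.exp_nat_mul]; norm_num
        rw [h2]
        calc (37 : ℝ) ≤ 2.7 ^ 4 := by norm_num
          _ ≤ _ := pow_le_pow_left₀ (by norm_num) h1 4
      rw [abs_le]
      constructor
      · rw [Real.le_log_iff_exp_le hl0, Real.exp_neg]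
        refine le_trans ?_ hlo
        rw [one_div]
        exact inv_anti₀ (by norm_num) (by linarith)
      · rw [Real.log_le_iff_le_exp hl0]
        linarith
    refine h4.trans ?_
    rw [le_div_iff₀ hs0]
    linarith

/-- the mean of the logarithm of the local factor -/
noncomputable def LR (F : Type*) [Field F] [Fintype F] (j : ℕ) : ℝ :=
  (∑ m : Fin 2 → F, Real.log (lfS j m)) / (Nat.card F : ℝ) ^ 2

lemma card_pairs : ((Finset.univ : Finset (Fin 2 → F)).card : ℝ) = (Nat.card F : ℝ) ^ 2 := by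
  rw [Finset.card_univ, Fintype.card_fun, Fintype.card_fin, Nat.card_eq_fintype_card]
  push_cast
  rfl

lemma LR_le (hF : ringChar F ≠ 2) (j : ℕ) : |LR F j| ≤ 24 / Real.sqrt (Nat.card F) := by
  have hp0 : (0 : ℝ) < Nat.card F := cardF_pos
  unfold LR
  rw [abs_div, abs_of_pos (by positivity : (0 : ℝ) < (Nat.card F : ℝ) ^ 2), div_le_iff₀ (by positivity)]
  refine (Finset.abs_sum_le_sum_abs _ _).trans ((Finset.sum_le_sum fun n _ => log_lfS_le hF j n).trans
    (le_of_eq ?_))
  rw [Finset.sum_const, nsmul_eq_mul, card_pairs, mul_comm]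

theorem LR_est (hF : ringChar F ≠ 2) (j : ℕ) (hj : j ≤ 1) :
    |LR F j - ((j : ℝ) + 1 / 2) / Nat.card F| ≤ 2000 / (Nat.card F * Real.sqrt (Nat.card F)) := by
  have hp0 : (0 : ℝ) < Nat.card F := cardF_pos
  have hs0 : 0 < Real.sqrt (Nat.card F) := Real.sqrt_pos.2 hp0
  by_cases h36 : 36 ≤ Nat.card F
  · have h := local_gen j hj Real.log 1 (-1 / 2) 2 (by norm_num) log_expand h36 hF
    rw [Real.log_one, sub_zero] at h
    have e : ((1 + (j : ℝ)) * 1 + -1 / 2) = (j : ℝ) + 1 / 2 := by ring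
    rw [e] at h
    refine h.trans ?_
    apply div_le_div_of_nonneg_right _ (by positivity)
    rw [abs_one, show |(-1 / 2 : ℝ)| = 1 / 2 by rw [abs_div]; norm_num]
    norm_num
  · push Not at h36
    have hp36 : (Nat.card F : ℝ) ≤ 36 := by exact_mod_cast h36.le
    have hj' : (j : ℝ) ≤ 2 := by
      have : (j : ℝ) ≤ 1 := by exact_mod_cast hj
      linarith
    have hj0 : (0 : ℝ) ≤ j := by positivity
    rw [le_div_iff₀ (by positivity)]
    have h1 : |LR F j - ((j : ℝ) + 1 / 2) / Nat.card F| ≤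
        24 / Real.sqrt (Nat.card F) + (5 / 2) / Nat.card F := by
      refine (abs_sub _ _).trans (add_le_add (LR_le hF j) ?_)
      rw [abs_div, abs_of_pos hp0, abs_of_nonneg (by positivity)]
      apply div_le_div_of_nonneg_right _ hp0.le
      linarith
    have hs6 : Real.sqrt (Nat.card F) ≤ 6 := by
      rw [Real.sqrt_le_left (by norm_num)]
      linarith
    have hss : Real.sqrt (Nat.card F) * Real.sqrt (Nat.card F) = (Nat.card F : ℝ) :=
      Real.mul_self_sqrt hp0.le
    calc _ ≤ (24 / Real.sqrt (Nat.card F) + (5 / 2) / Nat.card F) *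
          (Nat.card F * Real.sqrt (Nat.card F)) := mul_le_mul_of_nonneg_right h1 (by positivity)
      _ = 24 * Nat.card F + 5 / 2 * Real.sqrt (Nat.card F) := by field_simp
      _ ≤ 2000 := by linarith

/-- the centred logarithm of the local factor -/
noncomputable def YR (j : ℕ) (m : Fin 2 → F) : ℝ := Real.log (lfS j m) - LR F j

lemma YR_le (hF : ringChar F ≠ 2) (j : ℕ) (m : Fin 2 → F) :
    |YR j m| ≤ 48 / Real.sqrt (Nat.card F) := by
  unfold YR
  refine (abs_sub _ _).trans ((add_le_add (log_lfS_le hF j m) (LR_le hF j)).trans (le_of_eq ?_))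
  ring

lemma YR_zero (j : ℕ) : ∑ m : Fin 2 → F, YR j m = 0 := by
  have hp0 : (0 : ℝ) < Nat.card F := cardF_pos
  unfold YR
  rw [Finset.sum_sub_distrib, Finset.sum_const, nsmul_eq_mul, card_pairs]
  unfold LR
  field_simp
  ring

end

end Pool.Agent.H678R3.BSD.W2
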