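import Pool.Agent.H678R3.BSD.Norm

/-! The normal order of the products, for `x ≤ H ^ (1/3)`. -/

set_option autoImplicit false
set_option maxHeartbeats 4000000

open Finset

namespace Pool.Agent.H678R3.BSD

theorem mertens_sum (f : ℕ → ℝ) (κ : ℝ) (h : ∃ K : ℝ, 0 ≤ K ∧ ∀ p : ℕ, p.Prime →
    |f p - κ / p| ≤ K / (p * Real.sqrt p)) : ∃ K : ℝ, ∀ x : ℕ, 2 ≤ x →
    |∑ p ∈ (Finset.Icc 1 x).filter Nat.Prime, f p - κ * Real.log (Real.log x)| ≤ K := by
  obtain ⟨K, hK0, hK⟩ := h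
  obtain ⟨B, hB0, hB⟩ := sum_three_halves
  obtain ⟨C1, hC10, hC1⟩ := Pool.Agent.Helper256.KM.mertens_upper
  obtain ⟨C2, hC20, hC2⟩ := Pool.Agent.Helper256.KM.mertens_lower
  refine ⟨K * B + |κ| * (C1 + C2), fun x hx => ?_⟩
  have hx' : (2 : ℝ) ≤ x := by exact_mod_cast hx
  have h1 := hC1 x hx'
  have h2 := hC2 x hx'
  rw [Nat.floor_natCast] at h1 h2
  set S := (Finset.Icc 1 x).filter Nat.Prime with hS
  have e : ∑ p ∈ S, f p - κ * Real.log (Real.log x) =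
      ∑ p ∈ S, (f p - κ / p) + κ * (∑ p ∈ S, (1 : ℝ) / p - Real.log (Real.log x)) := by
    rw [Finset.sum_sub_distrib, mul_sub, Finset.mul_sum]
    have : ∑ p ∈ S, κ / (p : ℝ) = ∑ p ∈ S, κ * (1 / (p : ℝ)) :=
      Finset.sum_congr rfl fun p _ => by ring
    rw [this]
    ring
  rw [e]
  have h3 : |∑ p ∈ S, (f p - κ / p)| ≤ K * B := by
    refine (Finset.abs_sum_le_sum_abs _ _).trans ?_
    calc _ ≤ ∑ p ∈ S, K * (1 / ((p : ℝ) * Real.sqrt p)) := Finset.sum_le_sum fun p hp => by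
          rw [mul_one_div]
          exact hK p (Finset.mem_filter.1 hp).2
      _ = K * ∑ p ∈ S, (1 / ((p : ℝ) * Real.sqrt p)) := by rw [Finset.mul_sum]
      _ ≤ K * B := mul_le_mul_of_nonneg_left (hB S) hK0
  have h4 : |∑ p ∈ S, (1 : ℝ) / p - Real.log (Real.log x)| ≤ C1 + C2 := by
    rw [abs_le]
    constructor <;> linarith
  refine (abs_add_le _ _).trans (add_le_add h3 ?_)
  rw [abs_mul]
  exact mul_le_mul_of_nonneg_left h4 (abs_nonneg _)

/-- the centred logarithm of the local factor -/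
noncomputable def YY (j p : ℕ) (n : Fin 3 → ℤ) : ℝ := Real.log (lf j p n) - LL j p

lemma YY_per (j p : ℕ) : Per (YY j p) p := by
  intro n n' h
  unfold YY
  rw [lf_per j p n n' h]

lemma YY_le (j : ℕ) {p : ℕ} (hp : p.Prime) (n : Fin 3 → ℤ) : |YY j p n| ≤ 48 / Real.sqrt p := by
  unfold YY
  refine (abs_sub _ _).trans ((add_le_add (log_lf_le j hp n) (LL_le j hp)).trans (le_of_eq ?_))
  ring

lemma YY_zero (j : ℕ) {p : ℕ} (hp : p.Prime) : ∑ n ∈ box (p : ℤ), YY j p n = 0 := by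
  have hp0 : (0 : ℝ) < p := by exact_mod_cast hp.pos
  unfold YY
  rw [Finset.sum_sub_distrib, Finset.sum_const, nsmul_eq_mul, card_box]
  unfold LL
  field_simp
  ring

lemma card_boxH (H : ℕ) : ((boxH (H : ℤ)).card : ℝ) = (H : ℝ) ^ 3 := by
  unfold boxH
  rw [Fintype.card_piFinset, Finset.prod_const, Finset.card_univ, Fintype.card_fin, Int.card_Icc]
  simp

lemma pair_le (j : ℕ) {p q H : ℕ} (hp : p.Prime) (hq : q.Prime) (hH : p * q ≤ H) :
    ∑ n ∈ boxH (H : ℤ), YY j p n * YY j q n ≤ (if p = q then 48 ^ 2 * (1 / (p : ℝ)) * (H : ℝ) ^ 3 else 0)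
      + 7 * 48 ^ 2 * (H : ℝ) ^ 2 * (Real.sqrt p * Real.sqrt q) := by
  have hp0 : (0 : ℝ) < p := by exact_mod_cast hp.pos
  have hq0 : (0 : ℝ) < q := by exact_mod_cast hq.pos
  have hsp : 0 < Real.sqrt p := Real.sqrt_pos.2 hp0
  have hsq : 0 < Real.sqrt q := Real.sqrt_pos.2 hq0
  have hssp : Real.sqrt p * Real.sqrt p = p := Real.mul_self_sqrt hp0.le
  have hssq : Real.sqrt q * Real.sqrt q = q := Real.mul_self_sqrt hq0.le
  by_cases hpq : p = q
  · subst hpq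
    rw [if_pos rfl]
    have h1 : ∑ n ∈ boxH (H : ℤ), YY j p n * YY j p n ≤ ∑ n ∈ boxH (H : ℤ), 48 ^ 2 * (1 / (p : ℝ)) := by
      refine Finset.sum_le_sum fun n _ => ?_
      have h2 := YY_le j hp n
      calc YY j p n * YY j p n = |YY j p n| * |YY j p n| := (abs_mul_abs_self _).symm
        _ ≤ (48 / Real.sqrt p) * (48 / Real.sqrt p) :=
          mul_le_mul h2 h2 (abs_nonneg _) (by positivity)
        _ = 48 ^ 2 * (1 / (Real.sqrt p * Real.sqrt p)) := by field_simp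
        _ = _ := by rw [hssp]
    refine h1.trans ?_
    rw [Finset.sum_const, nsmul_eq_mul, card_boxH]
    have : 0 ≤ 7 * 48 ^ 2 * (H : ℝ) ^ 2 * (Real.sqrt p * Real.sqrt p) := by positivity
    linarith
  · rw [if_neg hpq, zero_add]
    have hcop : IsCoprime (p : ℤ) (q : ℤ) := Nat.isCoprime_iff_coprime.2 ((Nat.coprime_primes hp hq).2 hpq)
    have h0 : ∑ n ∈ box ((p : ℤ) * q), YY j p n * YY j q n = 0 := by
      rw [crt_two (by exact_mod_cast hp.pos) (by exact_mod_cast hq.pos) hcop (YY_per j p) (YY_per j q),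
        YY_zero j hp, zero_mul]
    have hper : Per (fun n => YY j p n * YY j q n) ((p : ℤ) * q) := by
      intro n n' h
      show YY j p n * YY j q n = YY j p n' * YY j q n'
      rw [YY_per j p n n' fun i => (h i).of_dvd (Dvd.intro _ rfl),
        YY_per j q n n' fun i => (h i).of_dvd (Dvd.intro_left _ rfl)]
    have hb := box_zero (g := fun n => YY j p n * YY j q n) (M := (p : ℤ) * q) (H := (H : ℤ))
      (G := 48 ^ 2 / (Real.sqrt p * Real.sqrt q)) (by exact_mod_cast Nat.mul_pos hp.pos hq.pos)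
      (by exact_mod_cast hH) hper (fun n => by
        rw [abs_mul]
        calc _ ≤ (48 / Real.sqrt p) * (48 / Real.sqrt q) :=
              mul_le_mul (YY_le j hp n) (YY_le j hq n) (abs_nonneg _) (by positivity)
          _ = _ := by field_simp) h0
    refine (le_abs_self _).trans (hb.trans (le_of_eq ?_))
    push_cast
    have e1 : (p : ℝ) * q = (Real.sqrt p * Real.sqrt q) * (Real.sqrt p * Real.sqrt q) := by
      calc (p : ℝ) * q = (Real.sqrt p * Real.sqrt p) * (Real.sqrt q * Real.sqrt q) := by rw [hssp, hssq]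
        _ = _ := by ring
    rw [e1]
    field_simp

/-- the variance -/
theorem variance (j : ℕ) {x H : ℕ} (hx : 1 ≤ x) (hH : x ^ 3 ≤ H) :
    ∑ n ∈ boxH (H : ℤ), (∑ p ∈ (Finset.Icc 1 x).filter Nat.Prime, YY j p n) ^ 2 ≤
      48 ^ 2 * (H : ℝ) ^ 3 * (∑ p ∈ (Finset.Icc 1 x).filter Nat.Prime, 1 / (p : ℝ) + 7) := by
  set S := (Finset.Icc 1 x).filter Nat.Prime with hS
  have hSp : ∀ p ∈ S, p.Prime := fun p hp => (Finset.mem_filter.1 hp).2
  have hSx : ∀ p ∈ S, p ≤ x := fun p hp => (Finset.mem_Icc.1 (Finset.mem_filter.1 hp).1).2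
  have hx0 : (0 : ℝ) < x := by exact_mod_cast hx
  have hHr : (x : ℝ) ^ 3 ≤ H := by exact_mod_cast hH
  have e1 : ∑ n ∈ boxH (H : ℤ), (∑ p ∈ S, YY j p n) ^ 2 =
      ∑ p ∈ S, ∑ q ∈ S, ∑ n ∈ boxH (H : ℤ), YY j p n * YY j q n := by
    simp_rw [sq, Finset.sum_mul_sum]
    rw [Finset.sum_comm]
    exact Finset.sum_congr rfl fun p _ => Finset.sum_comm
  rw [e1]
  have e2 : ∀ p ∈ S, ∀ q ∈ S, ∑ n ∈ boxH (H : ℤ), YY j p n * YY j q n ≤
      (if p = q then 48 ^ 2 * (1 / (p : ℝ)) * (H : ℝ) ^ 3 else 0)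
      + 7 * 48 ^ 2 * (H : ℝ) ^ 2 * (Real.sqrt p * Real.sqrt q) := by
    intro p hp q hq
    refine pair_le j (hSp p hp) (hSp q hq) ?_
    calc p * q ≤ x * x := Nat.mul_le_mul (hSx p hp) (hSx q hq)
      _ ≤ x ^ 3 := by nlinarith [Nat.mul_le_mul_left (x * x) hx]
      _ ≤ H := hH
  refine (Finset.sum_le_sum fun p hp => Finset.sum_le_sum fun q hq => e2 p hp q hq).trans ?_
  simp_rw [Finset.sum_add_distrib]
  have e3 : ∑ p ∈ S, ∑ q ∈ S, (if p = q then 48 ^ 2 * (1 / (p : ℝ)) * (H : ℝ) ^ 3 else 0) =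
      48 ^ 2 * (H : ℝ) ^ 3 * ∑ p ∈ S, 1 / (p : ℝ) := by
    rw [Finset.mul_sum]
    refine Finset.sum_congr rfl fun p hp => ?_
    rw [Finset.sum_ite_eq, if_pos hp]
    ring
  have e4 : ∑ p ∈ S, ∑ q ∈ S, 7 * 48 ^ 2 * (H : ℝ) ^ 2 * (Real.sqrt p * Real.sqrt q) =
      7 * 48 ^ 2 * (H : ℝ) ^ 2 * (∑ p ∈ S, Real.sqrt p) ^ 2 := by
    rw [sq (∑ p ∈ S, Real.sqrt p), Finset.sum_mul_sum, Finset.mul_sum]
    refine Finset.sum_congr rfl fun p _ => ?_
    rw [Finset.mul_sum]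
  have e5 : ∑ p ∈ S, Real.sqrt p ≤ x * Real.sqrt x := by
    calc _ ≤ ∑ p ∈ S, Real.sqrt x := Finset.sum_le_sum fun p hp =>
          Real.sqrt_le_sqrt (by exact_mod_cast hSx p hp)
      _ = (S.card : ℝ) * Real.sqrt x := by rw [Finset.sum_const, nsmul_eq_mul]
      _ ≤ x * Real.sqrt x := by
        apply mul_le_mul_of_nonneg_right _ (Real.sqrt_nonneg _)
        have h1 : S.card ≤ (Finset.Icc 1 x).card := Finset.card_filter_le _ _
        rw [Nat.card_Icc] at h1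
        exact_mod_cast (by omega : S.card ≤ x)
  have e6 : (∑ p ∈ S, Real.sqrt p) ^ 2 ≤ H := by
    have h0 : 0 ≤ ∑ p ∈ S, Real.sqrt p := Finset.sum_nonneg fun p _ => Real.sqrt_nonneg _
    calc _ ≤ (x * Real.sqrt x) ^ 2 := pow_le_pow_left₀ h0 e5 2
      _ = (x : ℝ) ^ 2 * (Real.sqrt x * Real.sqrt x) := by ring
      _ = (x : ℝ) ^ 3 := by rw [Real.mul_self_sqrt hx0.le]; ring
      _ ≤ H := hHr
  rw [e3, e4]
  have e7 : 7 * 48 ^ 2 * (H : ℝ) ^ 2 * (∑ p ∈ S, Real.sqrt p) ^ 2 ≤ 7 * 48 ^ 2 * (H : ℝ) ^ 2 * H :=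
    mul_le_mul_of_nonneg_left e6 (by positivity)
  calc _ ≤ 48 ^ 2 * (H : ℝ) ^ 3 * ∑ p ∈ S, 1 / (p : ℝ) + 7 * 48 ^ 2 * (H : ℝ) ^ 2 * H :=
        add_le_add le_rfl e7
    _ = _ := by ring

/-- the mean square -/
theorem mean_square (j : ℕ) (hj : j ≤ 2) : ∃ C : ℝ, 0 < C ∧ ∀ x : ℕ, 16 ≤ x → ∀ H : ℕ, x ^ 3 ≤ H →
    ∑ n ∈ boxH (H : ℤ), (Real.log (FP j n x) - ((j : ℝ) + 1 / 2) * Real.log (Real.log x)) ^ 2 ≤
      C * Real.log (Real.log x) * (H : ℝ) ^ 3 := by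
  obtain ⟨K, hK⟩ := mertens_sum (LL j) ((j : ℝ) + 1 / 2) (LL_est j hj)
  obtain ⟨C1, hC10, hC1⟩ := Pool.Agent.Helper256.KM.mertens_upper
  refine ⟨2 * 48 ^ 2 * (1 + C1 + 7) + 2 * K ^ 2, by positivity, fun x hx H hH => ?_⟩
  have hx' : (2 : ℝ) ≤ x := by
    have : (16 : ℝ) ≤ x := by exact_mod_cast hx
    linarith
  have hll : 1 ≤ Real.log (Real.log x) := by
    have h16 : (16 : ℝ) ≤ x := by exact_mod_cast hx
    have h1 : Real.log 16 ≤ Real.log x := Real.log_le_log (by norm_num) h16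
    have h2 : Real.log 16 = 4 * Real.log 2 := by
      rw [show (16 : ℝ) = 2 ^ 4 by norm_num, Real.log_pow]; norm_num
    have h3 := Real.log_two_gt_d9
    have h4 := Real.exp_one_lt_d9
    rw [Real.le_log_iff_exp_le (by linarith)]
    linarith
  have h1 := hC1 x hx'
  rw [Nat.floor_natCast] at h1
  have hKx := hK x (by omega)
  set S := (Finset.Icc 1 x).filter Nat.Prime with hS
  set ll := Real.log (Real.log x) with hlldef
  have hvar := variance j (x := x) (H := H) (by omega) hH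
  rw [← hS] at hvar
  have hpt : ∀ n ∈ boxH (H : ℤ), (Real.log (FP j n x) - ((j : ℝ) + 1 / 2) * ll) ^ 2 ≤
      2 * (∑ p ∈ S, YY j p n) ^ 2 + 2 * K ^ 2 := by
    intro n _
    have e1 : Real.log (FP j n x) = ∑ p ∈ S, Real.log (lf j p n) := by
      rw [FP_eq, Real.log_prod]
      exact fun p _ => (lf_pos j p n).ne'
    have e2 : Real.log (FP j n x) - ((j : ℝ) + 1 / 2) * ll =
        ∑ p ∈ S, YY j p n + (∑ p ∈ S, LL j p - ((j : ℝ) + 1 / 2) * ll) := by
      rw [e1]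
      unfold YY
      rw [Finset.sum_sub_distrib]
      ring
    rw [e2]
    set A := ∑ p ∈ S, YY j p n
    set B := ∑ p ∈ S, LL j p - ((j : ℝ) + 1 / 2) * ll
    have hB : B ^ 2 ≤ K ^ 2 := by
      rw [← sq_abs]
      exact pow_le_pow_left₀ (abs_nonneg _) hKx 2
    nlinarith [sq_nonneg (A - B)]
  refine (Finset.sum_le_sum hpt).trans ?_
  rw [Finset.sum_add_distrib, ← Finset.mul_sum, Finset.sum_const, nsmul_eq_mul, card_boxH]
  have hH0 : (0 : ℝ) ≤ (H : ℝ) ^ 3 := by positivity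
  have hsum : ∑ p ∈ S, 1 / (p : ℝ) + 7 ≤ (1 + C1 + 7) * ll := by
    have : C1 + 7 ≤ (C1 + 7) * ll := by nlinarith
    linarith
  calc _ ≤ 2 * (48 ^ 2 * (H : ℝ) ^ 3 * ((1 + C1 + 7) * ll)) + (H : ℝ) ^ 3 * (2 * K ^ 2 * ll) := by
        refine add_le_add ?_ ?_
        · refine mul_le_mul_of_nonneg_left (hvar.trans ?_) (by norm_num)
          exact mul_le_mul_of_nonneg_left hsum (by positivity)
        · apply mul_le_mul_of_nonneg_left _ hH0
          nlinarith [sq_nonneg K]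
    _ = _ := by ring

open Classical in
/-- the normal order -/
theorem normal_order (j : ℕ) (hj : j ≤ 2) : ∃ C : ℝ, ∀ δ : ℝ, 0 < δ → ∀ x : ℕ, 16 ≤ x →
    ∀ H : ℕ, x ^ 3 ≤ H →
      (((boxH (H : ℤ)).filter fun n => ¬ (Real.log x ^ ((j : ℝ) + 1 / 2 - δ) ≤ FP j n x ∧
        FP j n x ≤ Real.log x ^ ((j : ℝ) + 1 / 2 + δ))).card : ℝ) ≤
        C / (δ ^ 2 * Real.log (Real.log x)) * (H : ℝ) ^ 3 := by
  obtain ⟨C, hC0, hC⟩ := mean_square j hj
  refine ⟨C, fun δ hδ x hx H hH => ?_⟩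
  have hms := hC x hx H hH
  have h16 : (16 : ℝ) ≤ x := by exact_mod_cast hx
  have hlog : 0 < Real.log x := Real.log_pos (by linarith)
  have hll : 0 < Real.log (Real.log x) := by
    have h1 : Real.log 16 ≤ Real.log x := Real.log_le_log (by norm_num) h16
    have h2 : Real.log 16 = 4 * Real.log 2 := by
      rw [show (16 : ℝ) = 2 ^ 4 by norm_num, Real.log_pow]; norm_num
    have h3 := Real.log_two_gt_d9
    exact Real.log_pos (by linarith)
  set ll := Real.log (Real.log x) with hlldef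
  have hpt : ∀ n ∈ boxH (H : ℤ), (if ¬ (Real.log x ^ ((j : ℝ) + 1 / 2 - δ) ≤ FP j n x ∧
      FP j n x ≤ Real.log x ^ ((j : ℝ) + 1 / 2 + δ)) then (1 : ℝ) else 0) ≤
      (Real.log (FP j n x) - ((j : ℝ) + 1 / 2) * ll) ^ 2 / (δ * ll) ^ 2 := by
    intro n _
    have hF := FP_pos j n x
    by_cases h : ¬ (Real.log x ^ ((j : ℝ) + 1 / 2 - δ) ≤ FP j n x ∧
      FP j n x ≤ Real.log x ^ ((j : ℝ) + 1 / 2 + δ))
    · rw [if_pos h, one_le_div (by positivity)]
      rw [not_and_or, not_le, not_le] at h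
      rcases h with h | h
      · have h1 := Real.log_lt_log hF h
        rw [Real.log_rpow hlog, ← hlldef] at h1
        have h2 : δ * ll ≤ -(Real.log (FP j n x) - ((j : ℝ) + 1 / 2) * ll) := by nlinarith
        rw [← neg_sq (Real.log (FP j n x) - ((j : ℝ) + 1 / 2) * ll)]
        exact pow_le_pow_left₀ (by positivity) h2 2
      · have h1 := Real.log_lt_log (Real.rpow_pos_of_pos hlog _) h
        rw [Real.log_rpow hlog, ← hlldef] at h1
        have h2 : δ * ll ≤ Real.log (FP j n x) - ((j : ℝ) + 1 / 2) * ll := by nlinarith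
        exact pow_le_pow_left₀ (by positivity) h2 2
    · rw [if_neg h]
      positivity
  rw [Finset.card_filter]
  push_cast
  refine (Finset.sum_le_sum hpt).trans ?_
  rw [← Finset.sum_div, div_le_iff₀ (by positivity)]
  refine hms.trans (le_of_eq ?_)
  field_simp

end Pool.Agent.H678R3.BSD
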