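import Pool.Agent.H678R3.BSD.LocW
import Pool.Agent.H678R3.BSD.CrtW
import Pool.Agent.H678R3.BSD.Norm2

/-! The normal order for short Weierstrass families, in rectangles. -/

set_option autoImplicit false
set_option maxHeartbeats 4000000

open Finset

namespace Pool.Agent.H678R3.BSD.W2

/-- the primes not dividing twice the discriminant of `x³ + A x + B` -/
def Good (A B : ℤ) (p : ℕ) : Prop := p.Prime ∧ ¬ ((p : ℤ) ∣ 2 * (-4 * A ^ 3 - 27 * B ^ 2))

/-- the number of affine points of `y² = x³ + A x + B` modulo `p` -/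
noncomputable def Np (A B : ℤ) (p : ℕ) : ℕ :=
  Nat.card {q : ZMod p × ZMod p // q.2 ^ 2 = q.1 ^ 3 + (A : ZMod p) * q.1 + (B : ZMod p)}

open Classical in
/-- the product of `#E(F_p) / p` over the good primes `p ≤ x` -/
noncomputable def EP (A B : ℤ) (x : ℕ) : ℝ :=
  ∏ p ∈ (Finset.Icc 1 x).filter (Good A B), ((Np A B p : ℝ) + 1) / p

/-- the product for the member of the family: `A = n 0`, `B = n 1` (`j = 0`) or `(n 1)²` (`j = 1`) -/
noncomputable def FP (j : ℕ) (n : Fin 2 → ℤ) (x : ℕ) : ℝ := EP (n 0) (V0 j (n 1)) x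

open Classical in
noncomputable def lf (j p : ℕ) (n : Fin 2 → ℤ) : ℝ :=
  if p.Prime then lfS j (fun i => (n i : ZMod p)) else 1

lemma lf_per (j p : ℕ) : Per (lf j p) p := by
  intro n n' h
  unfold lf
  have : (fun i => (n i : ZMod p)) = fun i => (n' i : ZMod p) :=
    funext fun i => (ZMod.intCast_eq_intCast_iff _ _ _).2 (h i)
  rw [this]

lemma FP_eq (j : ℕ) (n : Fin 2 → ℤ) (x : ℕ) :
    FP j n x = ∏ p ∈ (Finset.Icc 1 x).filter Nat.Prime, lf j p n := by
  classical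
  unfold FP EP
  rw [Finset.prod_filter, Finset.prod_filter]
  refine Finset.prod_congr rfl fun p _ => ?_
  unfold lf lfS Good Np
  by_cases hp : p.Prime
  · rw [if_pos hp, if_pos hp]
    have e : (¬ ((p : ℤ) ∣ 2 * (-4 * n 0 ^ 3 - 27 * V0 j (n 1) ^ 2))) ↔
        (2 * (-4 * ((n 0 : ℤ) : ZMod p) ^ 3 - 27 * V0 j ((n 1 : ℤ) : ZMod p) ^ 2) ≠ 0) := by
      rw [← ZMod.intCast_zmod_eq_zero_iff_dvd, Ne, not_iff_not]
      push_cast
      rw [V0_cast]
    have e2 : (p.Prime ∧ ¬ ((p : ℤ) ∣ 2 * (-4 * n 0 ^ 3 - 27 * V0 j (n 1) ^ 2))) ↔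
        (2 * (-4 * ((n 0 : ℤ) : ZMod p) ^ 3 - 27 * V0 j ((n 1 : ℤ) : ZMod p) ^ 2) ≠ 0) := by
      rw [← e]
      exact ⟨fun h => h.2, fun h => ⟨hp, h⟩⟩
    simp only [e2]
    rw [V0_cast, Nat.card_zmod]
  · rw [if_neg hp, if_neg (fun h => hp h.1)]

lemma char_ne {p : ℕ} (hp : p.Prime) (hp2 : p ≠ 2) : ringChar (ZMod p) ≠ 2 := by
  rwa [ZMod.ringChar_zmod_n]

lemma lf_two (j : ℕ) (n : Fin 2 → ℤ) : lf j 2 n = 1 := by
  classical
  unfold lf lfS
  rw [if_pos Nat.prime_two]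
  refine if_neg ?_
  rw [not_not]
  have : (2 : ZMod 2) = 0 := rfl
  rw [this, zero_mul]

lemma lf_pos (j p : ℕ) (n : Fin 2 → ℤ) : 0 < lf j p n := by
  classical
  by_cases hp : p.Prime
  · have : Fact p.Prime := ⟨hp⟩
    unfold lf
    rw [if_pos hp]
    exact lfS_pos j _
  · unfold lf
    rw [if_neg hp]
    norm_num

/-- sums over the residues -/
lemma sum_box_eq {p : ℕ} [hp : Fact p.Prime] (g : (Fin 2 → ZMod p) → ℝ) :
    ∑ n ∈ box (p : ℤ), g (fun i => (n i : ZMod p)) = ∑ m : Fin 2 → ZMod p, g m := by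
  have hpos : (0 : ℤ) < p := by exact_mod_cast hp.out.pos
  refine Finset.sum_bij' (fun n _ => fun i => (n i : ZMod p))
    (fun m _ => fun i => ((m i).val : ℤ)) ?_ ?_ ?_ ?_ ?_
  · intro n _; exact Finset.mem_univ _
  · intro m _
    rw [mem_box]
    exact fun i => ⟨by positivity, by exact_mod_cast ZMod.val_lt (m i)⟩
  · intro n hn
    rw [mem_box] at hn
    funext i
    show (((n i : ZMod p)).val : ℤ) = n i
    rw [ZMod.val_intCast, Int.emod_eq_of_lt (hn i).1 (hn i).2]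
  · intro m _
    funext i
    simp
  · intro n _; rfl

lemma data (j : ℕ) (hj : j ≤ 1) (p : ℕ) : ∃ L : ℝ, p.Prime →
    |L - ((j : ℝ) + 1 / 2) / p| ≤ 2000 / (p * Real.sqrt p) ∧
    (∀ n : Fin 2 → ℤ, |Real.log (lf j p n) - L| ≤ 48 / Real.sqrt p) ∧
    (∑ n ∈ box (p : ℤ), (Real.log (lf j p n) - L)) = 0 := by
  classical
  by_cases hp : p.Prime
  · have : Fact p.Prime := ⟨hp⟩
    by_cases hp2 : p = 2
    · subst hp2
      refine ⟨0, fun _ => ⟨?_, ?_, ?_⟩⟩
      · have hj' : (j : ℝ) ≤ 1 := by exact_mod_cast hj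
        have hj0 : (0 : ℝ) ≤ j := by positivity
        have hs : Real.sqrt 2 ≤ 2 := by
          rw [Real.sqrt_le_left (by norm_num)]; norm_num
        have hs0 : 0 < Real.sqrt 2 := by positivity
        push_cast
        rw [zero_sub, abs_neg, abs_of_nonneg (by positivity), div_le_div_iff₀ (by norm_num) (by positivity)]
        nlinarith
      · intro n
        rw [lf_two, Real.log_one, sub_zero, abs_zero]
        positivity
      · refine Finset.sum_eq_zero fun n _ => ?_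
        rw [lf_two, Real.log_one, sub_zero]
    · have hF := char_ne hp hp2
      have hlf : ∀ n : Fin 2 → ℤ, lf j p n = lfS j (fun i => (n i : ZMod p)) := fun n => by
        unfold lf; rw [if_pos hp]
      refine ⟨LR (ZMod p) j, fun _ => ⟨?_, ?_, ?_⟩⟩
      · have h1 := LR_est hF j hj
        rw [Nat.card_zmod] at h1
        exact h1
      · intro n
        have h1 := YR_le hF j (fun i => (n i : ZMod p))
        rw [Nat.card_zmod] at h1
        rw [hlf]
        exact h1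
      · simp_rw [hlf]
        rw [sum_box_eq (fun m => Real.log (lfS j m) - LR (ZMod p) j)]
        exact YR_zero j
  · exact ⟨0, fun h => absurd h hp⟩

lemma card_boxS {lo hi : Fin 2 → ℤ} (h : ∀ i, lo i ≤ hi i) :
    ((boxS lo hi).card : ℝ) = ((hi 0 - lo 0 : ℤ) : ℝ) * ((hi 1 - lo 1 : ℤ) : ℝ) := by
  unfold boxS
  rw [Fintype.card_piFinset, Fin.prod_univ_two, Int.card_Ioc, Int.card_Ioc]
  have e : ∀ i, (((hi i - lo i).toNat : ℕ) : ℝ) = ((hi i - lo i : ℤ) : ℝ) := by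
    intro i
    have := Int.toNat_of_nonneg (sub_nonneg.2 (h i))
    exact_mod_cast this
  push_cast
  rw [e 0, e 1]
  push_cast
  rfl

/-- the mean square -/
theorem mean_square (j : ℕ) (hj : j ≤ 1) : ∃ C : ℝ, 0 < C ∧ ∀ x : ℕ, 16 ≤ x → ∀ lo hi : Fin 2 → ℤ,
    (∀ i, (x : ℤ) ^ 3 ≤ hi i - lo i) →
    ∑ n ∈ boxS lo hi, (Real.log (FP j n x) - ((j : ℝ) + 1 / 2) * Real.log (Real.log x)) ^ 2 ≤
      C * Real.log (Real.log x) * (((hi 0 - lo 0 : ℤ) : ℝ) * ((hi 1 - lo 1 : ℤ) : ℝ)) := by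
  classical
  choose L hL using data j hj
  obtain ⟨K, hK⟩ := mertens_sum L ((j : ℝ) + 1 / 2) ⟨2000, by norm_num, fun p hp => (hL p hp).1⟩
  obtain ⟨C1, hC10, hC1⟩ := Pool.Agent.Helper256.KM.mertens_upper
  refine ⟨2 * 48 ^ 2 * (1 + C1 + 3) + 2 * K ^ 2, by positivity, fun x hx lo hi hH => ?_⟩
  have hx1 : 1 ≤ x := by omega
  have h16 : (16 : ℝ) ≤ x := by exact_mod_cast hx
  have hx' : (2 : ℝ) ≤ x := by linarith
  have hx0 : (0 : ℝ) < x := by linarith
  have hll : 1 ≤ Real.log (Real.log x) := by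
    have h1 : Real.log 16 ≤ Real.log x := Real.log_le_log (by norm_num) h16
    have h2 : Real.log 16 = 4 * Real.log 2 := by
      rw [show (16 : ℝ) = 2 ^ 4 by norm_num, Real.log_pow]; norm_num
    have h3 := Real.log_two_gt_d9
    have h4 := Real.exp_one_lt_d9
    rw [Real.le_log_iff_exp_le (by linarith)]
    linarith
  have h1 := hC1 x hx'
  rw [Nat.floor_natCast] at h1
  have hKx := hK x (by omega)
  set S := (Finset.Icc 1 x).filter Nat.Prime with hS
  have hSp : ∀ p ∈ S, p.Prime := fun p hp => (Finset.mem_filter.1 hp).2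
  have hSx : ∀ p ∈ S, p ≤ x := fun p hp => (Finset.mem_Icc.1 (Finset.mem_filter.1 hp).1).2
  set ll := Real.log (Real.log x) with hlldef
  set l0 : ℝ := ((hi 0 - lo 0 : ℤ) : ℝ) with hl0def
  set l1 : ℝ := ((hi 1 - lo 1 : ℤ) : ℝ) with hl1def
  have hx3 : (1 : ℤ) ≤ (x : ℤ) ^ 3 := by
    have : (1 : ℤ) ≤ x := by exact_mod_cast hx1
    exact one_le_pow₀ this
  have hle : ∀ i, lo i ≤ hi i := fun i => by
    have := hH i
    linarith
  have hcard := card_boxS hle
  have hKi : ∀ i, (x : ℝ) ^ 3 ≤ ((hi i - lo i : ℤ) : ℝ) := fun i => by exact_mod_cast hH i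
  have hl0 : 0 < l0 := lt_of_lt_of_le (by positivity) (hKi 0)
  have hl1 : 0 < l1 := lt_of_lt_of_le (by positivity) (hKi 1)
  set Y : ℕ → (Fin 2 → ℤ) → ℝ := fun p n => Real.log (lf j p n) - L p with hY
  have hYper : ∀ p, Per (Y p) p := fun p n n' h => by
    show Real.log (lf j p n) - L p = Real.log (lf j p n') - L p
    rw [lf_per j p n n' h]
  -- pairs
  have hpair : ∀ p ∈ S, ∀ q ∈ S, ∑ n ∈ boxS lo hi, Y p n * Y q n ≤
      (if p = q then 48 ^ 2 * (1 / (p : ℝ)) * (l0 * l1) else 0)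
      + 3 * 48 ^ 2 * (l0 * l1) / (x : ℝ) ^ 3 * (Real.sqrt p * Real.sqrt q) := by
    intro p hp q hq
    have hp0 : (0 : ℝ) < p := by exact_mod_cast (hSp p hp).pos
    have hq0 : (0 : ℝ) < q := by exact_mod_cast (hSp q hq).pos
    have hsp : 0 < Real.sqrt p := Real.sqrt_pos.2 hp0
    have hsq : 0 < Real.sqrt q := Real.sqrt_pos.2 hq0
    have hssp : Real.sqrt p * Real.sqrt p = p := Real.mul_self_sqrt hp0.le
    have hssq : Real.sqrt q * Real.sqrt q = q := Real.mul_self_sqrt hq0.le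
    have hYp : ∀ n, |Y p n| ≤ 48 / Real.sqrt p := (hL p (hSp p hp)).2.1
    have hYq : ∀ n, |Y q n| ≤ 48 / Real.sqrt q := (hL q (hSp q hq)).2.1
    by_cases hpq : p = q
    · subst hpq
      rw [if_pos rfl]
      have h1 : ∑ n ∈ boxS lo hi, Y p n * Y p n ≤ ∑ n ∈ boxS lo hi, 48 ^ 2 * (1 / (p : ℝ)) := by
        refine Finset.sum_le_sum fun n _ => ?_
        calc Y p n * Y p n = |Y p n| * |Y p n| := (abs_mul_abs_self _).symm
          _ ≤ (48 / Real.sqrt p) * (48 / Real.sqrt p) :=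
            mul_le_mul (hYp n) (hYp n) (abs_nonneg _) (by positivity)
          _ = 48 ^ 2 * (1 / (Real.sqrt p * Real.sqrt p)) := by field_simp
          _ = _ := by rw [hssp]
      refine h1.trans ?_
      rw [Finset.sum_const, nsmul_eq_mul, hcard]
      have : 0 ≤ 3 * 48 ^ 2 * (l0 * l1) / (x : ℝ) ^ 3 * (Real.sqrt p * Real.sqrt p) := by positivity
      linarith
    · rw [if_neg hpq, zero_add]
      have hcop : IsCoprime (p : ℤ) (q : ℤ) :=
        Nat.isCoprime_iff_coprime.2 ((Nat.coprime_primes (hSp p hp) (hSp q hq)).2 hpq)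
      have h0 : ∑ n ∈ box ((p : ℤ) * q), Y p n * Y q n = 0 := by
        rw [crt_two (by exact_mod_cast (hSp p hp).pos) (by exact_mod_cast (hSp q hq).pos) hcop
          (hYper p) (hYper q), (hL p (hSp p hp)).2.2, zero_mul]
      have hper : Per (fun n => Y p n * Y q n) ((p : ℤ) * q) := by
        intro n n' h
        show Y p n * Y q n = Y p n' * Y q n'
        rw [hYper p n n' fun i => (h i).of_dvd (Dvd.intro _ rfl),
          hYper q n n' fun i => (h i).of_dvd (Dvd.intro_left _ rfl)]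
      have hpqx : (p : ℤ) * q ≤ (x : ℤ) ^ 3 := by
        have h1 : p * q ≤ x ^ 3 := by
          calc p * q ≤ x * x := Nat.mul_le_mul (hSx p hp) (hSx q hq)
            _ ≤ x ^ 3 := by nlinarith [Nat.mul_le_mul_left (x * x) hx1]
        exact_mod_cast h1
      have hb := box_zero (g := fun n => Y p n * Y q n) (M := (p : ℤ) * q) (lo := lo) (hi := hi)
        (G := 48 ^ 2 / (Real.sqrt p * Real.sqrt q)) (K := (x : ℝ) ^ 3)
        (by exact_mod_cast Nat.mul_pos (hSp p hp).pos (hSp q hq).pos)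
        (fun i => hpqx.trans (hH i)) hKi (by positivity) hper (fun n => by
          rw [abs_mul]
          calc _ ≤ (48 / Real.sqrt p) * (48 / Real.sqrt q) :=
                mul_le_mul (hYp n) (hYq n) (abs_nonneg _) (by positivity)
            _ = _ := by field_simp) h0
      rw [mul_comm, ← le_div_iff₀ (by positivity)] at hb
      refine (le_abs_self _).trans (hb.trans (le_of_eq ?_))
      push_cast
      have e1 : (p : ℝ) * q = (Real.sqrt p * Real.sqrt q) * (Real.sqrt p * Real.sqrt q) := by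
        calc (p : ℝ) * q = (Real.sqrt p * Real.sqrt p) * (Real.sqrt q * Real.sqrt q) := by rw [hssp, hssq]
          _ = _ := by ring
      rw [e1, hl0def, hl1def]
      push_cast
      field_simp
  -- the variance
  have hvar : ∑ n ∈ boxS lo hi, (∑ p ∈ S, Y p n) ^ 2 ≤
      48 ^ 2 * (l0 * l1) * (∑ p ∈ S, 1 / (p : ℝ) + 3) := by
    have e1 : ∑ n ∈ boxS lo hi, (∑ p ∈ S, Y p n) ^ 2 =
        ∑ p ∈ S, ∑ q ∈ S, ∑ n ∈ boxS lo hi, Y p n * Y q n := by
      simp_rw [sq, Finset.sum_mul_sum]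
      rw [Finset.sum_comm]
      exact Finset.sum_congr rfl fun p _ => Finset.sum_comm
    rw [e1]
    refine (Finset.sum_le_sum fun p hp => Finset.sum_le_sum fun q hq => hpair p hp q hq).trans ?_
    simp_rw [Finset.sum_add_distrib]
    have e3 : ∑ p ∈ S, ∑ q ∈ S, (if p = q then 48 ^ 2 * (1 / (p : ℝ)) * (l0 * l1) else 0) =
        48 ^ 2 * (l0 * l1) * ∑ p ∈ S, 1 / (p : ℝ) := by
      rw [Finset.mul_sum]
      refine Finset.sum_congr rfl fun p hp => ?_
      rw [Finset.sum_ite_eq, if_pos hp]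
      ring
    have e4 : ∑ p ∈ S, ∑ q ∈ S, 3 * 48 ^ 2 * (l0 * l1) / (x : ℝ) ^ 3 * (Real.sqrt p * Real.sqrt q) =
        3 * 48 ^ 2 * (l0 * l1) / (x : ℝ) ^ 3 * (∑ p ∈ S, Real.sqrt p) ^ 2 := by
      rw [sq (∑ p ∈ S, Real.sqrt p), Finset.sum_mul_sum, Finset.mul_sum]
      refine Finset.sum_congr rfl fun p _ => ?_
      rw [Finset.mul_sum]
    have e5 : ∑ p ∈ S, Real.sqrt p ≤ x * Real.sqrt x := by
      calc _ ≤ ∑ p ∈ S, Real.sqrt x := Finset.sum_le_sum fun p hp =>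
            Real.sqrt_le_sqrt (by exact_mod_cast hSx p hp)
        _ = (S.card : ℝ) * Real.sqrt x := by rw [Finset.sum_const, nsmul_eq_mul]
        _ ≤ x * Real.sqrt x := by
          apply mul_le_mul_of_nonneg_right _ (Real.sqrt_nonneg _)
          have h1 : S.card ≤ (Finset.Icc 1 x).card := Finset.card_filter_le _ _
          rw [Nat.card_Icc] at h1
          exact_mod_cast (by omega : S.card ≤ x)
    have e6 : (∑ p ∈ S, Real.sqrt p) ^ 2 ≤ (x : ℝ) ^ 3 := by
      have h0 : 0 ≤ ∑ p ∈ S, Real.sqrt p := Finset.sum_nonneg fun p _ => Real.sqrt_nonneg _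
      calc _ ≤ (x * Real.sqrt x) ^ 2 := pow_le_pow_left₀ h0 e5 2
        _ = (x : ℝ) ^ 2 * (Real.sqrt x * Real.sqrt x) := by ring
        _ = (x : ℝ) ^ 3 := by rw [Real.mul_self_sqrt hx0.le]; ring
    rw [e3, e4]
    have e7 : 3 * 48 ^ 2 * (l0 * l1) / (x : ℝ) ^ 3 * (∑ p ∈ S, Real.sqrt p) ^ 2 ≤
        3 * 48 ^ 2 * (l0 * l1) / (x : ℝ) ^ 3 * (x : ℝ) ^ 3 :=
      mul_le_mul_of_nonneg_left e6 (by positivity)
    have e8 : 3 * 48 ^ 2 * (l0 * l1) / (x : ℝ) ^ 3 * (x : ℝ) ^ 3 = 3 * 48 ^ 2 * (l0 * l1) := by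
      field_simp
    rw [e8] at e7
    calc _ ≤ 48 ^ 2 * (l0 * l1) * ∑ p ∈ S, 1 / (p : ℝ) + 3 * 48 ^ 2 * (l0 * l1) :=
          add_le_add le_rfl e7
      _ = _ := by ring
  have hpt : ∀ n ∈ boxS lo hi, (Real.log (FP j n x) - ((j : ℝ) + 1 / 2) * ll) ^ 2 ≤
      2 * (∑ p ∈ S, Y p n) ^ 2 + 2 * K ^ 2 := by
    intro n _
    have e1 : Real.log (FP j n x) = ∑ p ∈ S, Real.log (lf j p n) := by
      rw [FP_eq, Real.log_prod]
      exact fun p _ => (lf_pos j p n).ne'
    have e2 : Real.log (FP j n x) - ((j : ℝ) + 1 / 2) * ll =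
        ∑ p ∈ S, Y p n + (∑ p ∈ S, L p - ((j : ℝ) + 1 / 2) * ll) := by
      rw [e1, hY]
      simp only
      rw [Finset.sum_sub_distrib]
      ring
    rw [e2]
    set A := ∑ p ∈ S, Y p n
    set B := ∑ p ∈ S, L p - ((j : ℝ) + 1 / 2) * ll
    have hB : B ^ 2 ≤ K ^ 2 := by
      rw [← sq_abs]
      exact pow_le_pow_left₀ (abs_nonneg _) hKx 2
    nlinarith [sq_nonneg (A - B)]
  refine (Finset.sum_le_sum hpt).trans ?_
  rw [Finset.sum_add_distrib, ← Finset.mul_sum, Finset.sum_const, nsmul_eq_mul, hcard]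
  have hH0 : (0 : ℝ) ≤ l0 * l1 := by positivity
  have hsum : ∑ p ∈ S, 1 / (p : ℝ) + 3 ≤ (1 + C1 + 3) * ll := by
    have : C1 + 3 ≤ (C1 + 3) * ll := by nlinarith
    linarith
  calc _ ≤ 2 * (48 ^ 2 * (l0 * l1) * ((1 + C1 + 3) * ll)) + (l0 * l1) * (2 * K ^ 2 * ll) := by
        refine add_le_add ?_ ?_
        · refine mul_le_mul_of_nonneg_left (hvar.trans ?_) (by norm_num)
          exact mul_le_mul_of_nonneg_left hsum (by positivity)
        · apply mul_le_mul_of_nonneg_left _ hH0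
          nlinarith [sq_nonneg K]
    _ = _ := by ring

lemma FP_pos (j : ℕ) (n : Fin 2 → ℤ) (x : ℕ) : 0 < FP j n x := by
  rw [FP_eq]
  exact Finset.prod_pos fun p _ => lf_pos j p n

open Classical in
/-- the normal order -/
theorem normal_order (j : ℕ) (hj : j ≤ 1) : ∃ C : ℝ, 0 < C ∧ ∀ δ : ℝ, 0 < δ → ∀ x : ℕ, 16 ≤ x →
    ∀ lo hi : Fin 2 → ℤ, (∀ i, (x : ℤ) ^ 3 ≤ hi i - lo i) →
      (((boxS lo hi).filter fun n => ¬ (Real.log x ^ ((j : ℝ) + 1 / 2 - δ) ≤ FP j n x ∧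
        FP j n x ≤ Real.log x ^ ((j : ℝ) + 1 / 2 + δ))).card : ℝ) ≤
        C / (δ ^ 2 * Real.log (Real.log x)) *
          (((hi 0 - lo 0 : ℤ) : ℝ) * ((hi 1 - lo 1 : ℤ) : ℝ)) := by
  obtain ⟨C, hC0, hC⟩ := mean_square j hj
  refine ⟨C, hC0, fun δ hδ x hx lo hi hH => ?_⟩
  have hms := hC x hx lo hi hH
  have h16 : (16 : ℝ) ≤ x := by exact_mod_cast hx
  have hlog : 0 < Real.log x := Real.log_pos (by linarith)
  have hll : 0 < Real.log (Real.log x) := by
    have h1 : Real.log 16 ≤ Real.log x := Real.log_le_log (by norm_num) h16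
    have h2 : Real.log 16 = 4 * Real.log 2 := by
      rw [show (16 : ℝ) = 2 ^ 4 by norm_num, Real.log_pow]; norm_num
    have h3 := Real.log_two_gt_d9
    exact Real.log_pos (by linarith)
  set ll := Real.log (Real.log x) with hlldef
  have hpt : ∀ n ∈ boxS lo hi, (if ¬ (Real.log x ^ ((j : ℝ) + 1 / 2 - δ) ≤ FP j n x ∧
      FP j n x ≤ Real.log x ^ ((j : ℝ) + 1 / 2 + δ)) then (1 : ℝ) else 0) ≤
      (Real.log (FP j n x) - ((j : ℝ) + 1 / 2) * ll) ^ 2 / (δ * ll) ^ 2 := by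
    intro n _
    have hF := FP_pos j n x
    by_cases h : ¬ (Real.log x ^ ((j : ℝ) + 1 / 2 - δ) ≤ FP j n x ∧
      FP j n x ≤ Real.log x ^ ((j : ℝ) + 1 / 2 + δ))
    · rw [if_pos h, one_le_div (by positivity)]
      rw [not_and_or, not_le, not_le] at h
      rcases h with h | h
      · have h1 := Real.log_lt_log hF h
        rw [Real.log_rpow hlog, ← hlldef] at h1
        have h2 : δ * ll ≤ -(Real.log (FP j n x) - ((j : ℝ) + 1 / 2) * ll) := by nlinarith
        rw [← neg_sq (Real.log (FP j n x) - ((j : ℝ) + 1 / 2) * ll)]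
        exact pow_le_pow_left₀ (by positivity) h2 2
      · have h1 := Real.log_lt_log (Real.rpow_pos_of_pos hlog _) h
        rw [Real.log_rpow hlog, ← hlldef] at h1
        have h2 : δ * ll ≤ Real.log (FP j n x) - ((j : ℝ) + 1 / 2) * ll := by nlinarith
        exact pow_le_pow_left₀ (by positivity) h2 2
    · rw [if_neg h]
      positivity
  rw [Finset.card_filter]
  push_cast
  refine (Finset.sum_le_sum hpt).trans ?_
  rw [← Finset.sum_div, div_le_iff₀ (by positivity)]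
  push_cast at hms
  refine hms.trans (le_of_eq ?_)
  field_simp

end Pool.Agent.H678R3.BSD.W2
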