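import Pool.Agent.H678R3.BSD.Doob

/-! Concentration simultaneously for all `y` in `[x₀, X]`. -/

set_option autoImplicit false
set_option maxHeartbeats 4000000

open Finset

namespace Pool.Agent.H678R3.BSD

lemma WW_eq (j : ℕ) (k : ℝ) (y : ℕ) (n : Fin 3 → ℤ) :
    WW j k y n = FP j n y ^ k / ∏ p ∈ PS y, EE j k p := by
  unfold WW ww
  rw [Finset.prod_div_distrib, FP_eq, ← Real.finsetProd_rpow _ _ fun p _ => (lf_pos j p n).le]
  rfl

open Classical in
lemma count_le (j : ℕ) (k : ℝ) (x₀ X H : ℕ) (hH : primorial X ≤ H) (L : ℝ) (hL : 0 < L) :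
    (((boxH (H : ℤ)).filter fun n => ∃ y ∈ Finset.Icc x₀ X, L ≤ WW j k y n).card : ℝ) ≤
      8 * (H : ℝ) ^ 3 / L := by
  have hM : primorial X = ∏ p ∈ PS X, p := primorial_eq X
  set M : ℕ := ∏ p ∈ PS X, p with hMdef
  have hM0 : 0 < M := Finset.prod_pos fun p hp => (PS_prime hp).pos
  have hM0r : (0 : ℝ) < M := by exact_mod_cast hM0
  rw [hM] at hH
  set g : (Fin 3 → ℤ) → ℝ := fun n => if ∃ y ∈ Finset.Icc x₀ X, L ≤ WW j k y n then 1 else 0 with hg
  have hper : Per g (M : ℤ) := by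
    intro n n' h
    have e : (∃ y ∈ Finset.Icc x₀ X, L ≤ WW j k y n) ↔ ∃ y ∈ Finset.Icc x₀ X, L ≤ WW j k y n' := by
      refine exists_congr fun y => and_congr_right fun hy => ?_
      rw [WW_per j k y n n' fun i => (h i).of_dvd (by
        exact_mod_cast PM_dvd (Finset.mem_Icc.1 hy).2)]
    show (if _ then (1 : ℝ) else 0) = if _ then 1 else 0
    simp only [e]
  have hcomp := (box_compare (g := g) (M := (M : ℤ)) (H := (H : ℤ)) (by exact_mod_cast hM0)
    (by exact_mod_cast hH) hper (fun n => by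
      show 0 ≤ if _ then (1 : ℝ) else 0
      split_ifs <;> norm_num)).2
  have hd := doob j k x₀ X L hL
  rw [← hMdef] at hd
  rw [Finset.card_filter]
  push_cast
  have hx : (0 : ℝ) ≤ (2 * ((H : ℝ) / M)) ^ 3 := by positivity
  push_cast at hcomp
  refine hcomp.trans ((mul_le_mul_of_nonneg_left hd hx).trans (le_of_eq ?_))
  field_simp
  ring

lemma prod_le (j : ℕ) (hj : j ≤ 2) (k : ℝ) : ∃ K : ℝ, ∀ y : ℕ, 2 ≤ y →
    ∏ p ∈ PS y, EE j k p ≤ Real.exp K * Real.log y ^ kap j k := by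
  obtain ⟨K, hK⟩ := prod_EE j hj k
  refine ⟨K, fun y hy => ?_⟩
  have hy' : (2 : ℝ) ≤ y := by exact_mod_cast hy
  have hlog : 0 < Real.log y := Real.log_pos (by linarith)
  have hE0 : 0 < ∏ p ∈ PS y, EE j k p := Finset.prod_pos fun p hp => EE_pos j k (PS_prime hp)
  have hlogE : Real.log (∏ p ∈ PS y, EE j k p) = ∑ p ∈ PS y, Real.log (EE j k p) := by
    rw [Real.log_prod]
    exact fun p hp => (EE_pos j k (PS_prime hp)).ne'
  have hKx := (abs_le.1 (hK y hy)).2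
  have e0 : ∑ p ∈ (Finset.Icc 1 y).filter Nat.Prime, Real.log (EE j k p) =
      Real.log (∏ p ∈ PS y, EE j k p) := hlogE.symm
  rw [e0] at hKx
  have e1 : Real.log y ^ kap j k = Real.exp (kap j k * Real.log (Real.log y)) := by
    rw [Real.rpow_def_of_pos hlog, mul_comm]
  rw [e1, ← Real.exp_add, ← Real.exp_log hE0]
  apply Real.exp_le_exp.2
  linarith

open Classical in
/-- concentration, simultaneously for all `y` in `[x₀, X]` -/
theorem uniform (j : ℕ) (hj : j ≤ 2) (ε : ℝ) (hε : 0 < ε) : ∃ C : ℝ, 0 < C ∧ ∀ x₀ X : ℕ, 2 ≤ x₀ →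
    ∀ H : ℕ, primorial X ≤ H →
      (((boxH (H : ℤ)).filter fun n => ∃ y ∈ Finset.Icc x₀ X,
        ¬ (Real.log y ^ ((j : ℝ) + 1 / 2 - ε) ≤ FP j n y ∧
          FP j n y ≤ Real.log y ^ ((j : ℝ) + 1 / 2 + ε))).card : ℝ) ≤
        C * Real.log x₀ ^ (-(ε ^ 2 / 2)) * (H : ℝ) ^ 3 := by
  obtain ⟨K1, hK1⟩ := prod_le j hj ε
  obtain ⟨K2, hK2⟩ := prod_le j hj (-ε)
  refine ⟨8 * Real.exp K1 + 8 * Real.exp K2, by positivity, fun x₀ X hx₀ H hH => ?_⟩
  have hx' : (2 : ℝ) ≤ x₀ := by exact_mod_cast hx₀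
  have hl0 : 0 < Real.log x₀ := Real.log_pos (by linarith)
  set L1 : ℝ := Real.exp (-K1) * Real.log x₀ ^ (ε ^ 2 / 2) with hL1
  set L2 : ℝ := Real.exp (-K2) * Real.log x₀ ^ (ε ^ 2 / 2) with hL2
  have hL1p : 0 < L1 := mul_pos (Real.exp_pos _) (Real.rpow_pos_of_pos hl0 _)
  have hL2p : 0 < L2 := mul_pos (Real.exp_pos _) (Real.rpow_pos_of_pos hl0 _)
  have c1 := count_le j ε x₀ X H hH L1 hL1p
  have c2 := count_le j (-ε) x₀ X H hH L2 hL2p
  have hsub : ((boxH (H : ℤ)).filter fun n => ∃ y ∈ Finset.Icc x₀ X,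
        ¬ (Real.log y ^ ((j : ℝ) + 1 / 2 - ε) ≤ FP j n y ∧
          FP j n y ≤ Real.log y ^ ((j : ℝ) + 1 / 2 + ε))) ⊆
      ((boxH (H : ℤ)).filter fun n => ∃ y ∈ Finset.Icc x₀ X, L1 ≤ WW j ε y n) ∪
      ((boxH (H : ℤ)).filter fun n => ∃ y ∈ Finset.Icc x₀ X, L2 ≤ WW j (-ε) y n) := by
    intro n hn
    rw [Finset.mem_filter] at hn
    obtain ⟨hnb, y, hy, hbad⟩ := hn
    have hyx : x₀ ≤ y := (Finset.mem_Icc.1 hy).1
    have hyx' : (x₀ : ℝ) ≤ y := by exact_mod_cast hyx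
    have hly : 0 < Real.log y := Real.log_pos (by linarith)
    have hll : Real.log x₀ ≤ Real.log y := Real.log_le_log (by linarith) hyx'
    have hF := FP_pos j n y
    have hpow : Real.log x₀ ^ (ε ^ 2 / 2) ≤ Real.log y ^ (ε ^ 2 / 2) :=
      Real.rpow_le_rpow hl0.le hll (by positivity)
    rw [Finset.mem_union, Finset.mem_filter, Finset.mem_filter]
    rw [not_and_or, not_le, not_le] at hbad
    rcases hbad with h | h
    · right
      refine ⟨hnb, y, hy, ?_⟩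
      rw [WW_eq, le_div_iff₀ (Finset.prod_pos fun p hp => EE_pos j (-ε) (PS_prime hp))]
      have h1 : Real.log y ^ (-(ε * ((j : ℝ) + 1 / 2 - ε))) ≤ FP j n y ^ (-ε) := by
        have e1 : Real.log y ^ (-(ε * ((j : ℝ) + 1 / 2 - ε))) =
            ((Real.log y ^ ((j : ℝ) + 1 / 2 - ε)) ^ ε)⁻¹ := by
          rw [Real.rpow_neg hly.le, ← Real.rpow_mul hly.le, mul_comm]
        rw [e1, Real.rpow_neg hF.le]
        exact inv_anti₀ (Real.rpow_pos_of_pos hF _) (Real.rpow_le_rpow hF.le h.le hε.le)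
      refine le_trans ?_ h1
      calc L2 * ∏ p ∈ PS y, EE j (-ε) p ≤
            (Real.exp (-K2) * Real.log y ^ (ε ^ 2 / 2)) * (Real.exp K2 * Real.log y ^ kap j (-ε)) :=
            mul_le_mul (mul_le_mul_of_nonneg_left hpow (Real.exp_pos _).le) (hK2 y (by omega))
              (Finset.prod_pos fun p hp => EE_pos j (-ε) (PS_prime hp)).le (by positivity)
        _ = (Real.exp (-K2) * Real.exp K2) * (Real.log y ^ (ε ^ 2 / 2) * Real.log y ^ kap j (-ε)) := by
            ring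
        _ = Real.log y ^ (-(ε * ((j : ℝ) + 1 / 2 - ε))) := by
            rw [← Real.exp_add, neg_add_cancel, Real.exp_zero, one_mul, ← Real.rpow_add hly]
            congr 1
            unfold kap
            ring
    · left
      refine ⟨hnb, y, hy, ?_⟩
      rw [WW_eq, le_div_iff₀ (Finset.prod_pos fun p hp => EE_pos j ε (PS_prime hp))]
      have h1 : Real.log y ^ (ε * ((j : ℝ) + 1 / 2 + ε)) ≤ FP j n y ^ ε := by
        have e1 : Real.log y ^ (ε * ((j : ℝ) + 1 / 2 + ε)) =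
            (Real.log y ^ ((j : ℝ) + 1 / 2 + ε)) ^ ε := by
          rw [← Real.rpow_mul hly.le, mul_comm]
        rw [e1]
        exact Real.rpow_le_rpow (Real.rpow_pos_of_pos hly _).le h.le hε.le
      refine le_trans ?_ h1
      calc L1 * ∏ p ∈ PS y, EE j ε p ≤
            (Real.exp (-K1) * Real.log y ^ (ε ^ 2 / 2)) * (Real.exp K1 * Real.log y ^ kap j ε) :=
            mul_le_mul (mul_le_mul_of_nonneg_left hpow (Real.exp_pos _).le) (hK1 y (by omega))
              (Finset.prod_pos fun p hp => EE_pos j ε (PS_prime hp)).le (by positivity)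
        _ = (Real.exp (-K1) * Real.exp K1) * (Real.log y ^ (ε ^ 2 / 2) * Real.log y ^ kap j ε) := by
            ring
        _ = Real.log y ^ (ε * ((j : ℝ) + 1 / 2 + ε)) := by
            rw [← Real.exp_add, neg_add_cancel, Real.exp_zero, one_mul, ← Real.rpow_add hly]
            congr 1
            unfold kap
            ring
  have h1 := (Finset.card_le_card hsub).trans (Finset.card_union_le _ _)
  have h2 : (((boxH (H : ℤ)).filter fun n => ∃ y ∈ Finset.Icc x₀ X,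
        ¬ (Real.log y ^ ((j : ℝ) + 1 / 2 - ε) ≤ FP j n y ∧
          FP j n y ≤ Real.log y ^ ((j : ℝ) + 1 / 2 + ε))).card : ℝ) ≤
      (((boxH (H : ℤ)).filter fun n => ∃ y ∈ Finset.Icc x₀ X, L1 ≤ WW j ε y n).card : ℝ) +
      (((boxH (H : ℤ)).filter fun n => ∃ y ∈ Finset.Icc x₀ X, L2 ≤ WW j (-ε) y n).card : ℝ) := by
    exact_mod_cast h1
  refine h2.trans ((add_le_add c1 c2).trans (le_of_eq ?_))
  rw [hL1, hL2, Real.rpow_neg hl0.le, Real.exp_neg, Real.exp_neg]
  have := Real.rpow_pos_of_pos hl0 (ε ^ 2 / 2)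
  field_simp

end Pool.Agent.H678R3.BSD
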