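import Pool.Agent.H678R3.BSD.Height2
import Pool.Agent.H678R3.BSD.Unif

/-! Short Weierstrass families: concentration simultaneously for all `y`. -/

set_option autoImplicit false
set_option maxHeartbeats 4000000

open Finset

namespace Pool.Agent.H678R3.BSD.W2

/-- the local average -/
noncomputable def EE (j : ℕ) (k : ℝ) (p : ℕ) : ℝ := (∑ n ∈ box (p : ℤ), lf j p n ^ k) / (p : ℝ) ^ 2

lemma EE_pos (j : ℕ) (k : ℝ) {p : ℕ} (hp : p.Prime) : 0 < EE j k p := by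
  unfold EE
  have hp0 : (0 : ℝ) < p := by exact_mod_cast hp.pos
  refine div_pos (Finset.sum_pos (fun n _ => Real.rpow_pos_of_pos (lf_pos j p n) k) ?_) (by positivity)
  refine ⟨fun _ => 0, ?_⟩
  rw [mem_box]
  exact fun i => ⟨le_rfl, by exact_mod_cast hp.pos⟩

lemma local_one {p : ℕ} [hp : Fact p.Prime] (j : ℕ) (hj : j ≤ 1) (k C3 : ℝ) (hC3 : 0 ≤ C3)
    (hb : ∀ u : ℝ, |u| ≤ 1 / 2 → |(1 + u) ^ k - 1 - k * u - k * (k - 1) / 2 * u ^ 2| ≤ C3 * |u| ^ 3)
    (h36 : 36 ≤ p) :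
    |EE j k p - 1 - kap j k / p| ≤ (27 * C3 + 27 * (|k| + |k * (k - 1) / 2|)) / (p * Real.sqrt p) := by
  have hF : ringChar (ZMod p) ≠ 2 := char_ne hp.out (by omega)
  have h := local_gen (F := ZMod p) j hj (fun y => y ^ k) k (k * (k - 1) / 2) C3 hC3
    (fun u hu => by
      show |(1 + u) ^ k - (1 : ℝ) ^ k - k * u - k * (k - 1) / 2 * u ^ 2| ≤ _
      rw [Real.one_rpow]
      exact hb u hu) (by rw [Nat.card_zmod]; exact h36) hF
  simp only [Real.one_rpow, Nat.card_zmod] at h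
  have e : kap j k = (1 + j) * k + k * (k - 1) / 2 := by unfold kap; ring
  have e2 : EE j k p = (∑ m : Fin 2 → ZMod p, lfS j m ^ k) / (p : ℝ) ^ 2 := by
    unfold EE
    congr 1
    rw [← sum_box_eq (fun m => lfS j m ^ k)]
    refine Finset.sum_congr rfl fun n _ => ?_
    unfold lf
    rw [if_pos hp.out]
  rw [e, e2]
  exact h

theorem log_EE (j : ℕ) (hj : j ≤ 1) (k : ℝ) : ∃ K : ℝ, 0 ≤ K ∧ ∀ p : ℕ, p.Prime →
    |Real.log (EE j k p) - kap j k / p| ≤ K / (p * Real.sqrt p) := by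
  obtain ⟨C3, hC3, hb⟩ := bound3 k
  set C : ℝ := 27 * C3 + 27 * (|k| + |k * (k - 1) / 2|) with hC
  have hC0 : 0 ≤ C := by positivity
  set κ := kap j k with hκ
  set L : ℝ := |κ| + C with hL
  have hL0 : 0 ≤ L := by positivity
  set P1 : ℕ := max 36 (⌈2 * L⌉₊ + 1) with hP1
  set g : ℕ → ℝ := fun p => |Real.log (EE j k p) - κ / p| * (p * Real.sqrt p) with hg
  have hg0 : ∀ p, 0 ≤ g p := fun p => by positivity
  set K0 : ℝ := ∑ p ∈ Finset.range P1, g p with hK0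
  have hK00 : 0 ≤ K0 := Finset.sum_nonneg fun p _ => hg0 p
  refine ⟨C + 2 * L ^ 2 + K0, by positivity, fun p hp => ?_⟩
  have hp0 : (0 : ℝ) < p := by exact_mod_cast hp.pos
  have hs0 : 0 < Real.sqrt p := Real.sqrt_pos.2 hp0
  have hps : 0 < (p : ℝ) * Real.sqrt p := by positivity
  by_cases hlt : p < P1
  · rw [le_div_iff₀ hps]
    have h1 : g p ≤ K0 := Finset.single_le_sum (fun i _ => hg0 i) (Finset.mem_range.2 hlt)
    have h2 : 0 ≤ C + 2 * L ^ 2 := by positivity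
    show g p ≤ _
    linarith
  · push Not at hlt
    have h36 : 36 ≤ p := (le_max_left _ _).trans hlt
    have hpL : 2 * L ≤ p := by
      have h1 : ⌈2 * L⌉₊ + 1 ≤ p := (le_max_right _ _).trans hlt
      have h2 : 2 * L ≤ ⌈2 * L⌉₊ := Nat.le_ceil _
      have h3 : ((⌈2 * L⌉₊ + 1 : ℕ) : ℝ) ≤ p := by exact_mod_cast h1
      push_cast at h3
      linarith
    have : Fact p.Prime := ⟨hp⟩
    have hloc := local_one (p := p) j hj k C3 hC3 hb h36
    rw [← hC] at hloc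
    set y := EE j k p - 1 with hy
    have hs1 : 1 ≤ Real.sqrt p := by
      rw [Real.one_le_sqrt]
      have : (36 : ℝ) ≤ p := by exact_mod_cast h36
      linarith
    have hsp : Real.sqrt p ≤ p := by
      nlinarith [Real.mul_self_sqrt hp0.le]
    have hy1 : |y| ≤ L / p := by
      have e : y = (EE j k p - 1 - κ / p) + κ / p := by rw [hy]; ring
      rw [e]
      have h1 : C / (p * Real.sqrt p) ≤ C / p := by
        apply div_le_div_of_nonneg_left hC0 hp0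
        nlinarith
      calc _ ≤ |EE j k p - 1 - κ / p| + |κ / p| := abs_add_le _ _
        _ ≤ C / p + |κ| / p := by
          refine add_le_add (hloc.trans h1) (le_of_eq ?_)
          rw [abs_div, abs_of_pos hp0]
        _ = L / p := by rw [hL]; ring
    have hy2 : |y| ≤ 1 / 2 := by
      refine hy1.trans ?_
      rw [div_le_div_iff₀ hp0 (by norm_num)]
      linarith
    have hy3 := log_one_add y hy2
    have e1 : 1 + y = EE j k p := by rw [hy]; ring
    rw [e1] at hy3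
    have hy4 : y ^ 2 ≤ L ^ 2 / (p * Real.sqrt p) := by
      have h1 : y ^ 2 ≤ (L / p) ^ 2 := by
        rw [← sq_abs y]
        exact pow_le_pow_left₀ (abs_nonneg _) hy1 2
      refine h1.trans ?_
      rw [div_pow]
      apply div_le_div_of_nonneg_left (by positivity) hps
      nlinarith
    have e2 : Real.log (EE j k p) - κ / p = (Real.log (EE j k p) - y) + (EE j k p - 1 - κ / p) := by
      rw [hy]; ring
    rw [e2]
    calc _ ≤ |Real.log (EE j k p) - y| + |EE j k p - 1 - κ / p| := abs_add_le _ _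
      _ ≤ 2 * (L ^ 2 / (p * Real.sqrt p)) + C / (p * Real.sqrt p) := add_le_add
          (hy3.trans (by linarith)) hloc
      _ = (C + 2 * L ^ 2) / (p * Real.sqrt p) := by ring
      _ ≤ _ := by
          apply div_le_div_of_nonneg_right _ hps.le
          linarith

theorem prod_EE (j : ℕ) (hj : j ≤ 1) (k : ℝ) : ∃ K : ℝ, ∀ x : ℕ, 2 ≤ x →
    |∑ p ∈ (Finset.Icc 1 x).filter Nat.Prime, Real.log (EE j k p) -
      kap j k * Real.log (Real.log x)| ≤ K := by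
  obtain ⟨K, hK0, hK⟩ := log_EE j hj k
  obtain ⟨B, hB0, hB⟩ := sum_three_halves
  obtain ⟨C1, hC10, hC1⟩ := Pool.Agent.Helper256.KM.mertens_upper
  obtain ⟨C2, hC20, hC2⟩ := Pool.Agent.Helper256.KM.mertens_lower
  set κ := kap j k with hκ
  refine ⟨K * B + |κ| * (C1 + C2), fun x hx => ?_⟩
  have hx' : (2 : ℝ) ≤ x := by exact_mod_cast hx
  have h1 := hC1 x hx'
  have h2 := hC2 x hx'
  rw [Nat.floor_natCast] at h1 h2
  set S := (Finset.Icc 1 x).filter Nat.Prime with hS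
  have e : ∑ p ∈ S, Real.log (EE j k p) - κ * Real.log (Real.log x) =
      ∑ p ∈ S, (Real.log (EE j k p) - κ / p) + κ * (∑ p ∈ S, (1 : ℝ) / p - Real.log (Real.log x)) := by
    rw [Finset.sum_sub_distrib, mul_sub, Finset.mul_sum]
    have : ∑ p ∈ S, κ / (p : ℝ) = ∑ p ∈ S, κ * (1 / (p : ℝ)) :=
      Finset.sum_congr rfl fun p _ => by ring
    rw [this]
    ring
  rw [e]
  have h3 : |∑ p ∈ S, (Real.log (EE j k p) - κ / p)| ≤ K * B := by
    refine (Finset.abs_sum_le_sum_abs _ _).trans ?_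
    calc _ ≤ ∑ p ∈ S, K * (1 / ((p : ℝ) * Real.sqrt p)) := Finset.sum_le_sum fun p hp => by
          rw [mul_one_div]
          exact hK p (Finset.mem_filter.1 hp).2
      _ = K * ∑ p ∈ S, (1 / ((p : ℝ) * Real.sqrt p)) := by rw [Finset.mul_sum]
      _ ≤ K * B := mul_le_mul_of_nonneg_left (hB S) hK0
  have h4 : |∑ p ∈ S, (1 : ℝ) / p - Real.log (Real.log x)| ≤ C1 + C2 := by
    rw [abs_le]
    constructor <;> linarith
  refine (abs_add_le _ _).trans (add_le_add h3 ?_)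
  rw [abs_mul]
  exact mul_le_mul_of_nonneg_left h4 (abs_nonneg _)

/-- normalised local factor -/
noncomputable def ww (j : ℕ) (k : ℝ) (p : ℕ) (n : Fin 2 → ℤ) : ℝ := lf j p n ^ k / EE j k p

/-- normalised product -/
noncomputable def WW (j : ℕ) (k : ℝ) (y : ℕ) (n : Fin 2 → ℤ) : ℝ := ∏ p ∈ PS y, ww j k p n

lemma ww_per (j : ℕ) (k : ℝ) (p : ℕ) : Per (ww j k p) p := fun n n' h => by
  unfold ww
  rw [lf_per j p n n' h]

lemma ww_pos (j : ℕ) (k : ℝ) {p : ℕ} (hp : p.Prime) (n : Fin 2 → ℤ) : 0 < ww j k p n :=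
  div_pos (Real.rpow_pos_of_pos (lf_pos j p n) k) (EE_pos j k hp)

lemma ww_sum (j : ℕ) (k : ℝ) {p : ℕ} (hp : p.Prime) : ∑ n ∈ box (p : ℤ), ww j k p n = (p : ℝ) ^ 2 := by
  have hp0 : (0 : ℝ) < p := by exact_mod_cast hp.pos
  have hE := EE_pos j k hp
  unfold ww
  rw [← Finset.sum_div]
  have e : ∑ n ∈ box (p : ℤ), lf j p n ^ k = EE j k p * (p : ℝ) ^ 2 := by
    unfold EE
    field_simp
  rw [e]
  field_simp

lemma card_box' (M : ℕ) : ((box (M : ℤ)).card : ℝ) = (M : ℝ) ^ 2 := by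
  unfold box
  rw [Fintype.card_piFinset, Finset.prod_const, Finset.card_univ, Fintype.card_fin, Int.card_Ico,
    sub_zero, Int.toNat_natCast]
  push_cast
  rfl

lemma WW_pos (j : ℕ) (k : ℝ) (y : ℕ) (n : Fin 2 → ℤ) : 0 < WW j k y n :=
  Finset.prod_pos fun _ hp => ww_pos j k (PS_prime hp) n

lemma WW_per (j : ℕ) (k : ℝ) (y : ℕ) : Per (WW j k y) ((∏ p ∈ PS y, p : ℕ) : ℤ) :=
  (crt_prod (fun p => ww j k p) (PS y) (fun _ hp => PS_prime hp) (fun p _ => ww_per j k p)).1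

lemma WW_sum (j : ℕ) (k : ℝ) (X : ℕ) : ∑ n ∈ box ((∏ p ∈ PS X, p : ℕ) : ℤ), WW j k X n =
    ((∏ p ∈ PS X, p : ℕ) : ℝ) ^ 2 := by
  have h := (crt_prod (fun p => ww j k p) (PS X) (fun _ hp => PS_prime hp)
    (fun p _ => ww_per j k p)).2
  show ∑ n ∈ box ((∏ p ∈ PS X, p : ℕ) : ℤ), ∏ p ∈ PS X, ww j k p n = _
  rw [h]
  push_cast
  rw [← Finset.prod_pow]
  exact Finset.prod_congr rfl fun p hp => ww_sum j k (PS_prime hp)

/-- the martingale property -/
lemma mart (j : ℕ) (k : ℝ) {y X : ℕ} (hyX : y ≤ X) (A : (Fin 2 → ℤ) → ℝ)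
    (hA : Per A ((∏ p ∈ PS y, p : ℕ) : ℤ)) :
    ∑ n ∈ box ((∏ p ∈ PS X, p : ℕ) : ℤ), A n * WW j k X n =
      ∑ n ∈ box ((∏ p ∈ PS X, p : ℕ) : ℤ), A n * WW j k y n := by
  classical
  set R := PS X \ PS y with hR
  have hRp : ∀ p ∈ R, p.Prime := fun p hp => PS_prime (Finset.mem_sdiff.1 hp).1
  have hprod : ∏ p ∈ PS X, p = (∏ p ∈ PS y, p) * ∏ p ∈ R, p := by
    rw [hR, mul_comm, Finset.prod_sdiff (PS_mono hyX)]
  have hM0 : 0 < ∏ p ∈ PS y, p := Finset.prod_pos fun p hp => (PS_prime hp).pos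
  have hR0 : 0 < ∏ p ∈ R, p := Finset.prod_pos fun p hp => (hRp p hp).pos
  have hcop : IsCoprime ((∏ p ∈ PS y, p : ℕ) : ℤ) ((∏ p ∈ R, p : ℕ) : ℤ) := by
    rw [Nat.isCoprime_iff_coprime]
    refine Nat.Coprime.prod_left fun p hp => Nat.Coprime.prod_right fun q hq => ?_
    rw [Nat.coprime_primes (PS_prime hp) (hRp q hq)]
    intro h
    exact (Finset.mem_sdiff.1 hq).2 (h ▸ hp)
  have hrest := crt_prod (fun p => ww j k p) R hRp (fun p _ => ww_per j k p)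
  have hone : Per (fun _ => (1 : ℝ)) ((∏ p ∈ R, p : ℕ) : ℤ) := fun _ _ _ => rfl
  have hAW : Per (fun n => A n * WW j k y n) ((∏ p ∈ PS y, p : ℕ) : ℤ) := fun n n' h => by
    show A n * WW j k y n = A n' * WW j k y n'
    rw [hA n n' h, WW_per j k y n n' h]
  have hWX : ∀ n, WW j k X n = WW j k y n * ∏ p ∈ R, ww j k p n := by
    intro n
    unfold WW
    rw [mul_comm, hR, Finset.prod_sdiff (PS_mono hyX)]
  have hsumR : ∑ n ∈ box ((∏ p ∈ R, p : ℕ) : ℤ), ∏ p ∈ R, ww j k p n = ((∏ p ∈ R, p : ℕ) : ℝ) ^ 2 := by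
    rw [hrest.2]
    push_cast
    rw [← Finset.prod_pow]
    exact Finset.prod_congr rfl fun p hp => ww_sum j k (hRp p hp)
  have e1 := crt_two (g := fun n => A n * WW j k y n) (h := fun n => ∏ p ∈ R, ww j k p n)
    (m := ((∏ p ∈ PS y, p : ℕ) : ℤ)) (p := ((∏ p ∈ R, p : ℕ) : ℤ)) (by exact_mod_cast hM0)
    (by exact_mod_cast hR0) hcop hAW hrest.1
  have e2 := crt_two (g := fun n => A n * WW j k y n) (h := fun _ => (1 : ℝ))
    (m := ((∏ p ∈ PS y, p : ℕ) : ℤ)) (p := ((∏ p ∈ R, p : ℕ) : ℤ)) (by exact_mod_cast hM0)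
    (by exact_mod_cast hR0) hcop hAW hone
  rw [hsumR] at e1
  have e3 : ∑ n ∈ box ((∏ p ∈ R, p : ℕ) : ℤ), (1 : ℝ) = ((∏ p ∈ R, p : ℕ) : ℝ) ^ 2 := by
    rw [Finset.sum_const, nsmul_eq_mul, mul_one, card_box']
  rw [e3] at e2
  have hcast : ((∏ p ∈ PS X, p : ℕ) : ℤ) = ((∏ p ∈ PS y, p : ℕ) : ℤ) * ((∏ p ∈ R, p : ℕ) : ℤ) := by
    rw [hprod]; push_cast; rfl
  rw [hcast]
  calc _ = ∑ n ∈ box (((∏ p ∈ PS y, p : ℕ) : ℤ) * ((∏ p ∈ R, p : ℕ) : ℤ)),
        A n * WW j k y n * ∏ p ∈ R, ww j k p n := Finset.sum_congr rfl fun n _ => by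
          rw [hWX n]; ring
    _ = _ := e1
    _ = _ := e2.symm
    _ = _ := Finset.sum_congr rfl fun n _ => by ring

open Classical in
/-- the maximal inequality -/
theorem doob (j : ℕ) (k : ℝ) (x₀ X : ℕ) (L : ℝ) (hL : 0 < L) :
    ∑ n ∈ box ((∏ p ∈ PS X, p : ℕ) : ℤ), (if ∃ y ∈ Finset.Icc x₀ X, L ≤ WW j k y n then (1 : ℝ) else 0)
      ≤ ((∏ p ∈ PS X, p : ℕ) : ℝ) ^ 2 / L := by
  set M : ℤ := ((∏ p ∈ PS X, p : ℕ) : ℤ) with hM
  set Q : ℕ → (Fin 2 → ℤ) → Prop := fun y n => L ≤ WW j k y n ∧ ∀ z ∈ Finset.Icc x₀ X, z < y →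
    ¬ L ≤ WW j k z n with hQ
  set A : ℕ → (Fin 2 → ℤ) → ℝ := fun y n => if Q y n then 1 else 0 with hA
  have hAper : ∀ y ∈ Finset.Icc x₀ X, Per (A y) ((∏ p ∈ PS y, p : ℕ) : ℤ) := by
    intro y hy n n' h
    have hW : ∀ z, z ≤ y → WW j k z n = WW j k z n' := fun z hz =>
      WW_per j k z n n' fun i => (h i).of_dvd (by exact_mod_cast PM_dvd hz)
    have e : Q y n ↔ Q y n' := by
      show (L ≤ WW j k y n ∧ _) ↔ (L ≤ WW j k y n' ∧ _)
      rw [hW y le_rfl]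
      constructor
      · rintro ⟨h1, h2⟩
        exact ⟨h1, fun z hz hzy => by rw [← hW z hzy.le]; exact h2 z hz hzy⟩
      · rintro ⟨h1, h2⟩
        exact ⟨h1, fun z hz hzy => by rw [hW z hzy.le]; exact h2 z hz hzy⟩
    show (if Q y n then (1 : ℝ) else 0) = if Q y n' then 1 else 0
    simp only [e]
  have hA0 : ∀ y n, 0 ≤ A y n := fun y n => by
    show 0 ≤ if Q y n then (1 : ℝ) else 0
    split_ifs <;> norm_num
  have hone : ∀ n, (if ∃ y ∈ Finset.Icc x₀ X, L ≤ WW j k y n then (1 : ℝ) else 0) ≤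
      ∑ y ∈ Finset.Icc x₀ X, A y n := by
    intro n
    by_cases hex : ∃ y ∈ Finset.Icc x₀ X, L ≤ WW j k y n
    · rw [if_pos hex]
      have hex' : ∃ y, y ∈ Finset.Icc x₀ X ∧ L ≤ WW j k y n := hex
      set y0 := Nat.find hex' with hy0
      have hspec := Nat.find_spec hex'
      have hQ0 : Q y0 n := ⟨hspec.2, fun z hz hzy hcon => Nat.find_min hex' hzy ⟨hz, hcon⟩⟩
      have h1 : A y0 n = 1 := if_pos hQ0
      rw [← h1]
      exact Finset.single_le_sum (fun y _ => hA0 y n) hspec.1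
    · rw [if_neg hex]
      exact Finset.sum_nonneg fun y _ => hA0 y n
  have hle1 : ∀ n, ∑ y ∈ Finset.Icc x₀ X, A y n ≤ 1 := by
    intro n
    have e : ∑ y ∈ Finset.Icc x₀ X, A y n = (((Finset.Icc x₀ X).filter fun y => Q y n).card : ℝ) := by
      rw [Finset.card_filter]
      push_cast
      rfl
    rw [e]
    have : ((Finset.Icc x₀ X).filter fun y => Q y n).card ≤ 1 := by
      rw [Finset.card_le_one]
      intro a ha b hb
      rw [Finset.mem_filter] at ha hb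
      rcases lt_trichotomy a b with h | h | h
      · exact absurd ha.2.1 (hb.2.2 a ha.1 h)
      · exact h
      · exact absurd hb.2.1 (ha.2.2 b hb.1 h)
    exact_mod_cast this
  have hAy : ∀ y ∈ Finset.Icc x₀ X, L * ∑ n ∈ box M, A y n ≤ ∑ n ∈ box M, A y n * WW j k X n := by
    intro y hy
    rw [mart j k (Finset.mem_Icc.1 hy).2 (A y) (hAper y hy), Finset.mul_sum]
    refine Finset.sum_le_sum fun n _ => ?_
    show L * (if Q y n then (1 : ℝ) else 0) ≤ (if Q y n then (1 : ℝ) else 0) * WW j k y n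
    by_cases h : Q y n
    · rw [if_pos h, mul_one, one_mul]
      exact h.1
    · rw [if_neg h]; simp
  rw [le_div_iff₀ hL]
  calc (∑ n ∈ box M, (if ∃ y ∈ Finset.Icc x₀ X, L ≤ WW j k y n then (1 : ℝ) else 0)) * L
      ≤ (∑ n ∈ box M, ∑ y ∈ Finset.Icc x₀ X, A y n) * L :=
        mul_le_mul_of_nonneg_right (Finset.sum_le_sum fun n _ => hone n) hL.le
    _ = ∑ y ∈ Finset.Icc x₀ X, L * ∑ n ∈ box M, A y n := by
        rw [Finset.sum_comm, Finset.sum_mul]
        exact Finset.sum_congr rfl fun y _ => mul_comm _ _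
    _ ≤ ∑ y ∈ Finset.Icc x₀ X, ∑ n ∈ box M, A y n * WW j k X n := Finset.sum_le_sum hAy
    _ = ∑ n ∈ box M, (∑ y ∈ Finset.Icc x₀ X, A y n) * WW j k X n := by
        rw [Finset.sum_comm]
        exact Finset.sum_congr rfl fun n _ => by rw [Finset.sum_mul]
    _ ≤ ∑ n ∈ box M, 1 * WW j k X n := Finset.sum_le_sum fun n _ =>
        mul_le_mul_of_nonneg_right (hle1 n) (WW_pos j k X n).le
    _ = _ := by simp_rw [one_mul]; exact WW_sum j k X

/-- comparison of the sum over a rectangle with the sum over the residues -/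
theorem box_compare {g : (Fin 2 → ℤ) → ℝ} {M : ℤ} {lo hi : Fin 2 → ℤ} (hM : 0 < M)
    (hH : ∀ i, M ≤ hi i - lo i) (hg : Per g M) (hg0 : ∀ n, 0 ≤ g n) :
    ∑ n ∈ boxS lo hi, g n ≤ (4 * (((hi 0 - lo 0 : ℤ) : ℝ) * ((hi 1 - lo 1 : ℤ) : ℝ)) / (M : ℝ) ^ 2) *
      ∑ n ∈ box M, g n := by
  have hMr : (0 : ℝ) < M := by exact_mod_cast hM
  rw [box_formula lo hi hM hg, Finset.mul_sum]
  refine Finset.sum_le_sum fun r _ => mul_le_mul_of_nonneg_right ?_ (hg0 r)
  rw [Fin.prod_univ_two]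
  have hc : ∀ (i : Fin 2), (((Finset.Ioc (lo i) (hi i)).filter fun n => n % M = r i % M).card : ℝ) ≤
      2 * (((hi i - lo i : ℤ) : ℝ) / M) := by
    intro i
    have h := count_int hM (hH i) (r i)
    set L : ℤ := ⌊((hi i - lo i : ℤ) : ℚ) / M⌋ with hL
    have h1 : (L : ℝ) * M ≤ ((hi i - lo i : ℤ) : ℝ) := by
      have h1 := Int.floor_le (((hi i - lo i : ℤ) : ℚ) / M)
      rw [← hL, le_div_iff₀ (by exact_mod_cast hM)] at h1
      exact_mod_cast h1
    have h2 : (1 : ℝ) ≤ L := by exact_mod_cast h.1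
    have h3 : (((Finset.Ioc (lo i) (hi i)).filter fun n => n % M = r i % M).card : ℝ) ≤ L + 1 := by
      exact_mod_cast h.2.2
    have h4 : (L : ℝ) ≤ ((hi i - lo i : ℤ) : ℝ) / M := by
      rw [le_div_iff₀ hMr]
      exact h1
    linarith
  have h0 := hc 0
  have h1 := hc 1
  have hp1 : (0 : ℝ) ≤ (((Finset.Ioc (lo 1) (hi 1)).filter fun n => n % M = r 1 % M).card : ℝ) := by
    positivity
  have hp0 : (0 : ℝ) ≤ 2 * (((hi 0 - lo 0 : ℤ) : ℝ) / M) := le_trans (by positivity) h0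
  refine (mul_le_mul h0 h1 hp1 hp0).trans (le_of_eq ?_)
  field_simp
  ring

lemma WW_eq (j : ℕ) (k : ℝ) (y : ℕ) (n : Fin 2 → ℤ) :
    WW j k y n = FP j n y ^ k / ∏ p ∈ PS y, EE j k p := by
  unfold WW ww
  rw [Finset.prod_div_distrib, FP_eq, ← Real.finsetProd_rpow _ _ fun p _ => (lf_pos j p n).le]
  rfl

open Classical in
lemma count_le (j : ℕ) (k : ℝ) (x₀ X : ℕ) (lo hi : Fin 2 → ℤ) (hH : ∀ i, (primorial X : ℤ) ≤ hi i - lo i)
    (L : ℝ) (hL : 0 < L) :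
    (((boxS lo hi).filter fun n => ∃ y ∈ Finset.Icc x₀ X, L ≤ WW j k y n).card : ℝ) ≤
      4 * (((hi 0 - lo 0 : ℤ) : ℝ) * ((hi 1 - lo 1 : ℤ) : ℝ)) / L := by
  have hM : primorial X = ∏ p ∈ PS X, p := primorial_eq X
  set M : ℕ := ∏ p ∈ PS X, p with hMdef
  have hM0 : 0 < M := Finset.prod_pos fun p hp => (PS_prime hp).pos
  have hM0r : (0 : ℝ) < M := by exact_mod_cast hM0
  rw [hM] at hH
  set g : (Fin 2 → ℤ) → ℝ := fun n => if ∃ y ∈ Finset.Icc x₀ X, L ≤ WW j k y n then 1 else 0 with hg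
  have hper : Per g (M : ℤ) := by
    intro n n' h
    have e : (∃ y ∈ Finset.Icc x₀ X, L ≤ WW j k y n) ↔ ∃ y ∈ Finset.Icc x₀ X, L ≤ WW j k y n' := by
      refine exists_congr fun y => and_congr_right fun hy => ?_
      rw [WW_per j k y n n' fun i => (h i).of_dvd (by
        exact_mod_cast PM_dvd (Finset.mem_Icc.1 hy).2)]
    show (if _ then (1 : ℝ) else 0) = if _ then 1 else 0
    simp only [e]
  have hcomp := box_compare (g := g) (M := (M : ℤ)) (lo := lo) (hi := hi) (by exact_mod_cast hM0)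
    hH hper (fun n => by
      show 0 ≤ if _ then (1 : ℝ) else 0
      split_ifs <;> norm_num)
  have hd := doob j k x₀ X L hL
  rw [← hMdef] at hd
  rw [Finset.card_filter]
  push_cast
  have hl : ∀ i, (0 : ℝ) ≤ ((hi i - lo i : ℤ) : ℝ) := fun i => by
    have : (0 : ℤ) ≤ hi i - lo i := le_trans (by positivity) (hH i)
    exact_mod_cast this
  have hx : (0 : ℝ) ≤ 4 * (((hi 0 - lo 0 : ℤ) : ℝ) * ((hi 1 - lo 1 : ℤ) : ℝ)) / ((M : ℤ) : ℝ) ^ 2 := by
    have := hl 0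
    have := hl 1
    positivity
  refine hcomp.trans ((mul_le_mul_of_nonneg_left hd hx).trans (le_of_eq ?_))
  push_cast
  field_simp

lemma prod_le (j : ℕ) (hj : j ≤ 1) (k : ℝ) : ∃ K : ℝ, ∀ y : ℕ, 2 ≤ y →
    ∏ p ∈ PS y, EE j k p ≤ Real.exp K * Real.log y ^ kap j k := by
  obtain ⟨K, hK⟩ := prod_EE j hj k
  refine ⟨K, fun y hy => ?_⟩
  have hy' : (2 : ℝ) ≤ y := by exact_mod_cast hy
  have hlog : 0 < Real.log y := Real.log_pos (by linarith)
  have hE0 : 0 < ∏ p ∈ PS y, EE j k p := Finset.prod_pos fun p hp => EE_pos j k (PS_prime hp)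
  have hlogE : Real.log (∏ p ∈ PS y, EE j k p) = ∑ p ∈ PS y, Real.log (EE j k p) := by
    rw [Real.log_prod]
    exact fun p hp => (EE_pos j k (PS_prime hp)).ne'
  have hKx := (abs_le.1 (hK y hy)).2
  have e0 : ∑ p ∈ (Finset.Icc 1 y).filter Nat.Prime, Real.log (EE j k p) =
      Real.log (∏ p ∈ PS y, EE j k p) := hlogE.symm
  rw [e0] at hKx
  have e1 : Real.log y ^ kap j k = Real.exp (kap j k * Real.log (Real.log y)) := by
    rw [Real.rpow_def_of_pos hlog, mul_comm]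
  rw [e1, ← Real.exp_add, ← Real.exp_log hE0]
  apply Real.exp_le_exp.2
  linarith

open Classical in
/-- concentration, simultaneously for all `y` in `[x₀, X]` -/
theorem uniform (j : ℕ) (hj : j ≤ 1) (ε : ℝ) (hε : 0 < ε) : ∃ C : ℝ, 0 < C ∧ ∀ x₀ X : ℕ, 2 ≤ x₀ →
    ∀ lo hi : Fin 2 → ℤ, (∀ i, (primorial X : ℤ) ≤ hi i - lo i) →
      (((boxS lo hi).filter fun n => ∃ y ∈ Finset.Icc x₀ X,
        ¬ (Real.log y ^ ((j : ℝ) + 1 / 2 - ε) ≤ FP j n y ∧
          FP j n y ≤ Real.log y ^ ((j : ℝ) + 1 / 2 + ε))).card : ℝ) ≤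
        C * Real.log x₀ ^ (-(ε ^ 2 / 2)) * (((hi 0 - lo 0 : ℤ) : ℝ) * ((hi 1 - lo 1 : ℤ) : ℝ)) := by
  obtain ⟨K1, hK1⟩ := prod_le j hj ε
  obtain ⟨K2, hK2⟩ := prod_le j hj (-ε)
  refine ⟨4 * Real.exp K1 + 4 * Real.exp K2, by positivity, fun x₀ X hx₀ lo hi hH => ?_⟩
  have hx' : (2 : ℝ) ≤ x₀ := by exact_mod_cast hx₀
  have hl0 : 0 < Real.log x₀ := Real.log_pos (by linarith)
  set L1 : ℝ := Real.exp (-K1) * Real.log x₀ ^ (ε ^ 2 / 2) with hL1
  set L2 : ℝ := Real.exp (-K2) * Real.log x₀ ^ (ε ^ 2 / 2) with hL2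
  have hL1p : 0 < L1 := mul_pos (Real.exp_pos _) (Real.rpow_pos_of_pos hl0 _)
  have hL2p : 0 < L2 := mul_pos (Real.exp_pos _) (Real.rpow_pos_of_pos hl0 _)
  have c1 := count_le j ε x₀ X lo hi hH L1 hL1p
  have c2 := count_le j (-ε) x₀ X lo hi hH L2 hL2p
  have hsub : ((boxS lo hi).filter fun n => ∃ y ∈ Finset.Icc x₀ X,
        ¬ (Real.log y ^ ((j : ℝ) + 1 / 2 - ε) ≤ FP j n y ∧
          FP j n y ≤ Real.log y ^ ((j : ℝ) + 1 / 2 + ε))) ⊆
      ((boxS lo hi).filter fun n => ∃ y ∈ Finset.Icc x₀ X, L1 ≤ WW j ε y n) ∪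
      ((boxS lo hi).filter fun n => ∃ y ∈ Finset.Icc x₀ X, L2 ≤ WW j (-ε) y n) := by
    intro n hn
    rw [Finset.mem_filter] at hn
    obtain ⟨hnb, y, hy, hbad⟩ := hn
    have hyx : x₀ ≤ y := (Finset.mem_Icc.1 hy).1
    have hyx' : (x₀ : ℝ) ≤ y := by exact_mod_cast hyx
    have hly : 0 < Real.log y := Real.log_pos (by linarith)
    have hll : Real.log x₀ ≤ Real.log y := Real.log_le_log (by linarith) hyx'
    have hF := FP_pos j n y
    have hpow : Real.log x₀ ^ (ε ^ 2 / 2) ≤ Real.log y ^ (ε ^ 2 / 2) :=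
      Real.rpow_le_rpow hl0.le hll (by positivity)
    rw [Finset.mem_union, Finset.mem_filter, Finset.mem_filter]
    rw [not_and_or, not_le, not_le] at hbad
    rcases hbad with h | h
    · right
      refine ⟨hnb, y, hy, ?_⟩
      rw [WW_eq, le_div_iff₀ (Finset.prod_pos fun p hp => EE_pos j (-ε) (PS_prime hp))]
      have h1 : Real.log y ^ (-(ε * ((j : ℝ) + 1 / 2 - ε))) ≤ FP j n y ^ (-ε) := by
        have e1 : Real.log y ^ (-(ε * ((j : ℝ) + 1 / 2 - ε))) =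
            ((Real.log y ^ ((j : ℝ) + 1 / 2 - ε)) ^ ε)⁻¹ := by
          rw [Real.rpow_neg hly.le, ← Real.rpow_mul hly.le, mul_comm]
        rw [e1, Real.rpow_neg hF.le]
        exact inv_anti₀ (Real.rpow_pos_of_pos hF _) (Real.rpow_le_rpow hF.le h.le hε.le)
      refine le_trans ?_ h1
      calc L2 * ∏ p ∈ PS y, EE j (-ε) p ≤
            (Real.exp (-K2) * Real.log y ^ (ε ^ 2 / 2)) * (Real.exp K2 * Real.log y ^ kap j (-ε)) :=
            mul_le_mul (mul_le_mul_of_nonneg_left hpow (Real.exp_pos _).le) (hK2 y (by omega))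
              (Finset.prod_pos fun p hp => EE_pos j (-ε) (PS_prime hp)).le (by positivity)
        _ = (Real.exp (-K2) * Real.exp K2) * (Real.log y ^ (ε ^ 2 / 2) * Real.log y ^ kap j (-ε)) := by
            ring
        _ = Real.log y ^ (-(ε * ((j : ℝ) + 1 / 2 - ε))) := by
            rw [← Real.exp_add, neg_add_cancel, Real.exp_zero, one_mul, ← Real.rpow_add hly]
            congr 1
            unfold kap
            ring
    · left
      refine ⟨hnb, y, hy, ?_⟩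
      rw [WW_eq, le_div_iff₀ (Finset.prod_pos fun p hp => EE_pos j ε (PS_prime hp))]
      have h1 : Real.log y ^ (ε * ((j : ℝ) + 1 / 2 + ε)) ≤ FP j n y ^ ε := by
        have e1 : Real.log y ^ (ε * ((j : ℝ) + 1 / 2 + ε)) =
            (Real.log y ^ ((j : ℝ) + 1 / 2 + ε)) ^ ε := by
          rw [← Real.rpow_mul hly.le, mul_comm]
        rw [e1]
        exact Real.rpow_le_rpow (Real.rpow_pos_of_pos hly _).le h.le hε.le
      refine le_trans ?_ h1
      calc L1 * ∏ p ∈ PS y, EE j ε p ≤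
            (Real.exp (-K1) * Real.log y ^ (ε ^ 2 / 2)) * (Real.exp K1 * Real.log y ^ kap j ε) :=
            mul_le_mul (mul_le_mul_of_nonneg_left hpow (Real.exp_pos _).le) (hK1 y (by omega))
              (Finset.prod_pos fun p hp => EE_pos j ε (PS_prime hp)).le (by positivity)
        _ = (Real.exp (-K1) * Real.exp K1) * (Real.log y ^ (ε ^ 2 / 2) * Real.log y ^ kap j ε) := by
            ring
        _ = Real.log y ^ (ε * ((j : ℝ) + 1 / 2 + ε)) := by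
            rw [← Real.exp_add, neg_add_cancel, Real.exp_zero, one_mul, ← Real.rpow_add hly]
            congr 1
            unfold kap
            ring
  have h1 := (Finset.card_le_card hsub).trans (Finset.card_union_le _ _)
  have h2 : (((boxS lo hi).filter fun n => ∃ y ∈ Finset.Icc x₀ X,
        ¬ (Real.log y ^ ((j : ℝ) + 1 / 2 - ε) ≤ FP j n y ∧
          FP j n y ≤ Real.log y ^ ((j : ℝ) + 1 / 2 + ε))).card : ℝ) ≤
      (((boxS lo hi).filter fun n => ∃ y ∈ Finset.Icc x₀ X, L1 ≤ WW j ε y n).card : ℝ) +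
      (((boxS lo hi).filter fun n => ∃ y ∈ Finset.Icc x₀ X, L2 ≤ WW j (-ε) y n).card : ℝ) := by
    exact_mod_cast h1
  refine h2.trans ((add_le_add c1 c2).trans (le_of_eq ?_))
  rw [hL1, hL2, Real.rpow_neg hl0.le, Real.exp_neg, Real.exp_neg]
  have := Real.rpow_pos_of_pos hl0 (ε ^ 2 / 2)
  field_simp

end Pool.Agent.H678R3.BSD.W2
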